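import Pool.Agent.H62.OVN.Exh

/-!
# Exhaustion of an event by parts with large entropy
-/

set_option autoImplicit false

namespace Pool.S6C

open Finset Real
open Pool.Agent.H49.Ent Pool.Agent.H32.Dense Pool.STK Pool.KA Pool.KSAT Pool.K2S

variable {Ω S T : Type} [Fintype Ω]

theorem Pe_parts {p : Ω → ℝ} {B B' : Ω → Prop} (hs : Sub B' B) :
    Pe p B = Pe p B' + Pe p (fun ω => B ω ∧ ¬ B' ω) := by
  classical
  rw [Pe_eq, Pe_eq, Pe_eq, ← Finset.sum_add_distrib]
  refine Finset.sum_congr rfl fun ω _ => ?_
  by_cases h8 : B ω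
  · by_cases h9 : B' ω <;> simp [h8, h9]
  · have h9 : ¬ B' ω := fun h => h8 (hs ω h)
    simp [h8, h9]

/-- The entropy given an event is at least the mean of the entropies given the parts. -/
theorem CH_split_ge {p : Ω → ℝ} (hp : IsLaw p) {B B' : Ω → Prop} (hs : Sub B' B)
    (hB : 0 < Pe p B) (X : Ω → S) (Y : Ω → T) :
    Pe p B' * CH (Pool.Agent.H49.Ent.cond p B' True) X Y +
      Pe p (fun ω => B ω ∧ ¬ B' ω) *
        CH (Pool.Agent.H49.Ent.cond p (fun ω => B ω ∧ ¬ B' ω) True) X Y ≤
      Pe p B * CH (Pool.Agent.H49.Ent.cond p B True) X Y := by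
  classical
  obtain ⟨q, hq⟩ : ∃ q, q = Pool.Agent.H49.Ent.cond p B True := ⟨_, rfl⟩
  have hql : IsLaw q := by rw [hq]; exact isLaw_cond hp hB
  have h1 := Pool.KJ.CH_two hql.nonneg X Y B'
  have h2 : CH q X (fun ω => (Y ω, decide (B' ω))) ≤ CH q X Y :=
    CH_mono_cond hql.nonneg fun _ _ _ _ h => (Prod.ext_iff.1 h).1
  have hqB : ∀ ω, q ω ≠ 0 → B ω := by
    intro ω hω
    rw [hq] at hω
    unfold Pool.Agent.H49.Ent.cond at hω
    by_contra hcon
    exact hω (if_neg (fun h => hcon (of_eq_true h)))
  have e1 : Pool.Agent.H49.Ent.cond q B' False =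
      Pool.Agent.H49.Ent.cond q (fun ω => B ω ∧ ¬ B' ω) True := by
    have hl : law q B' False = law q (fun ω => B ω ∧ ¬ B' ω) True := by
      unfold law
      refine Finset.sum_congr rfl fun ω _ => ?_
      by_cases h0 : q ω = 0
      · rw [h0, ite_self, ite_self]
      · have hB0 := hqB ω h0
        by_cases h5 : B' ω <;> simp [h5, hB0]
    funext ω
    unfold Pool.Agent.H49.Ent.cond
    rw [hl]
    by_cases h0 : q ω = 0
    · rw [h0, zero_div, ite_self, ite_self]
    · have hB0 := hqB ω h0
      by_cases h5 : B' ω <;> simp [h5, hB0]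
  have hs2 : Sub (fun ω => B ω ∧ ¬ B' ω) B := fun ω hω => hω.1
  have e2 := Piece.cond_cond hs hB.ne'
  have e3 := Piece.cond_cond hs2 hB.ne'
  rw [← hq] at e2 e3
  have l1 : law q B' True = Pe p B' / Pe p B := by
    rw [hq]
    refine (Pe_cond (p := p) (A := B) B').trans ?_
    congr 1
    congr 1
    funext ω
    exact propext ⟨fun h' => h'.2, fun h' => ⟨hs ω h', h'⟩⟩
  have l2 : law q B' False = Pe p (fun ω => B ω ∧ ¬ B' ω) / Pe p B := by
    have h6 : law q B' True + law q B' False = 1 := by
      rw [← hql.sum_one]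
      unfold law
      rw [← Finset.sum_add_distrib]
      refine Finset.sum_congr rfl fun ω _ => ?_
      by_cases h : B' ω <;> simp [h]
    have h7 := Pe_parts (p := p) hs
    rw [l1] at h6
    have h8 : law q B' False = 1 - Pe p B' / Pe p B := by linarith
    rw [h8, eq_div_iff hB.ne', sub_mul, div_mul_cancel₀ _ hB.ne', one_mul]
    linarith
  rw [e1, e2, e3, l1, l2] at h1
  rw [← hq]
  have h5 : Pe p B' / Pe p B * CH (Pool.Agent.H49.Ent.cond p B' True) X Y +
      Pe p (fun ω => B ω ∧ ¬ B' ω) / Pe p B *
        CH (Pool.Agent.H49.Ent.cond p (fun ω => B ω ∧ ¬ B' ω) True) X Y ≤ CH q X Y := by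
    linarith
  refine le_trans (le_of_eq ?_) (mul_le_mul_of_nonneg_left h5 hB.le)
  have h6 := hB.ne'
  field_simp

/-- **Exhaustion.** If each part of `A` of proportion `δ` has a part with the entropy at least `E`,
then the entropy given `A` is at least `(1 - δ) E`. -/
theorem exh_ge {p : Ω → ℝ} (hp : IsLaw p) {A : Ω → Prop} (hA : 0 < Pe p A) (X : Ω → S)
    (Y : Ω → T) {δ E : ℝ} (hE0 : 0 ≤ E) (hδ : 0 ≤ δ)
    (hE : ∀ B : Ω → Prop, Sub B A → 0 < Pe p B → δ * Pe p A ≤ Pe p B → ∃ B' : Ω → Prop,
      Sub B' B ∧ 0 < Pe p B' ∧ E ≤ CH (Pool.Agent.H49.Ent.cond p B' True) X Y) :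
    (1 - δ) * E ≤ CH (Pool.Agent.H49.Ent.cond p A True) X Y := by
  classical
  have key : ∀ n : ℕ, ∀ B : Ω → Prop, Sub B A → (univ.filter fun ω => B ω ∧ p ω ≠ 0).card ≤ n →
      (Pe p B - δ * Pe p A) * E ≤ Pe p B * CH (Pool.Agent.H49.Ent.cond p B True) X Y := by
    intro n
    induction n with
    | zero =>
      intro B hB hcard
      have h0 : Pe p B = 0 := by
        unfold Pe
        refine Finset.sum_eq_zero fun ω _ => ?_
        by_cases hω : B ω
        · have : ω ∉ univ.filter fun ω => B ω ∧ p ω ≠ 0 := by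
            rw [Finset.card_eq_zero.1 (Nat.le_zero.1 hcard)]
            exact Finset.notMem_empty ω
          simp only [Finset.mem_filter, Finset.mem_univ, true_and, not_and, not_not] at this
          rw [this hω, ite_self]
        · exact if_neg fun h => hω (of_eq_true h)
      rw [h0, zero_sub, zero_mul]
      have := mul_nonneg (mul_nonneg hδ hA.le) hE0
      linarith
    | succ n ih =>
      intro B hB hcard
      have hB0 : 0 ≤ Pe p B := Pe_nonneg hp B
      by_cases hPB : 0 < Pe p B ∧ δ * Pe p A ≤ Pe p B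
      · obtain ⟨B', hs, hPB', hEB'⟩ := hE B hB hPB.1 hPB.2
        have h1 := CH_split_ge hp hs hPB.1 X Y
        have h2 := Pe_parts (p := p) hs
        have h3 : (univ.filter fun ω => (B ω ∧ ¬ B' ω) ∧ p ω ≠ 0).card ≤ n := by
          have hlt : (univ.filter fun ω => (B ω ∧ ¬ B' ω) ∧ p ω ≠ 0).card <
              (univ.filter fun ω => B ω ∧ p ω ≠ 0).card := by
            refine Finset.card_lt_card ⟨fun ω hω => ?_, fun hsub => ?_⟩
            · simp only [Finset.mem_filter, Finset.mem_univ, true_and] at hω ⊢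
              exact ⟨hω.1.1, hω.2⟩
            · have h4 : Pe p B' = 0 := by
                unfold Pe
                refine Finset.sum_eq_zero fun ω _ => ?_
                by_cases hω : B' ω
                · by_cases h0 : p ω = 0
                  · rw [h0, ite_self]
                  · have h5 : ω ∈ univ.filter fun ω => B ω ∧ p ω ≠ 0 := by
                      simp only [Finset.mem_filter, Finset.mem_univ, true_and]
                      exact ⟨hs ω hω, h0⟩
                    have h6 := hsub h5
                    simp only [Finset.mem_filter, Finset.mem_univ, true_and] at h6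
                    exact absurd hω h6.1.2
                · exact if_neg fun h => hω (of_eq_true h)
              linarith
          omega
        have h4 := ih (fun ω => B ω ∧ ¬ B' ω) (fun ω hω => hB ω hω.1) (by convert h3)
        have h5 := mul_le_mul_of_nonneg_left hEB' hPB'.le
        have e1 : (Pe p B - δ * Pe p A) * E = Pe p B' * E +
            (Pe p (fun ω => B ω ∧ ¬ B' ω) - δ * Pe p A) * E := by
          rw [h2]
          ring
        rw [e1]
        linarith
      · have h1 : Pe p B - δ * Pe p A ≤ 0 := by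
          by_cases h0 : 0 < Pe p B
          · have : ¬ δ * Pe p A ≤ Pe p B := fun h => hPB ⟨h0, h⟩
            linarith
          · have := mul_nonneg hδ hA.le
            linarith
        have h2 : 0 ≤ Pe p B * CH (Pool.Agent.H49.Ent.cond p B True) X Y := by
          by_cases h0 : 0 < Pe p B
          · exact mul_nonneg hB0 (CH_nonneg (isLaw_cond hp h0).nonneg _ _)
          · have : Pe p B = 0 := le_antisymm (not_lt.1 h0) hB0
            rw [this, zero_mul]
        first
          | exact (mul_nonpos_of_nonpos_of_nonneg h1 hE0).trans h2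
          | linarith
  have h1 := key _ A (fun _ h => h) le_rfl
  have e1 : (Pe p A - δ * Pe p A) * E = Pe p A * ((1 - δ) * E) := by ring
  rw [e1] at h1
  exact le_of_mul_le_mul_left h1 hA

end Pool.S6C
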