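import Pool.Agent.H75.S6C.S2
import Pool.Agent.H80.KS6.Epl

/-!
# The constancy of the directions at the row `Q`
-/

set_option autoImplicit false

namespace Pool.S6C

open Finset Real
open Pool.Agent.H49.Ent Pool.Agent.H32.Dense Pool.STK Pool.KA Pool.KSAT Pool.K2S Pool.PB Pool.KS6

/-- On at least half of the event, the fans at exact points are spread in the direction of the
chart. -/
theorem spread_part {S : PCl 3} {a R h₁ : ℝ} {i₀ : Fin 3} (ha : 1 < a) (hR : 0 < R)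
    (hU : UBa 3 a R)
    (hst : ∀ (τ : ℝ) (J : ℕ) (F : Fam 3 J) (A : F.Ω → Prop), S.St τ J F A → Fam.Stt F a R τ A)
    (hlb : ∀ (τ : ℝ) (J : ℕ) (F : Fam 3 J) (A : F.Ω → Prop), S.St τ J F A →
      Lb F i₀ ⌊h₁ * J⌋₊ A) {x : ℝ} (hx : 0 < x) :
    ∃ τ > 0, ∃ J₁ : ℕ, ∀ J ≥ J₁, ∀ (F : Fam 3 J) (A : F.Ω → Prop), S.St τ J F A →
      ∀ q : ℕ, q ≤ J → x * J ≤ q → q + 2 ≤ ⌊h₁ * J⌋₊ → ∃ B : F.Ω → Prop, Sub B A ∧
        Real.exp (-Real.log 2) * Pe F.p A ≤ Pe F.p B ∧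
        ∀ ω, B ω → ∃ ω' ω'', B ω' ∧ B ω'' ∧ Fam.pt F ω' = Fam.pt F ω ∧
          Fam.pt F ω'' = Fam.pt F ω ∧ 1 / 2 ^ (q + 1) ≤ |F.d ω' i₀ - F.d ω'' i₀| := by
  classical
  obtain ⟨τ, hτ, J₁, hball⟩ := Pool.S6K.ball_claim ha.le hR hU hx
  obtain ⟨J₂, hJ₂⟩ := Pool.S6K.exp_small (κ := τ / 2) (C := 2) (by linarith) (by norm_num)
  refine ⟨τ / 2, by linarith, max J₁ J₂, fun J hJ F A hS q hqJ hxq hq2 => ?_⟩
  obtain ⟨N, hN⟩ : ∃ N : F.Ω → Prop, N = Thin (1 / 2 ^ q) (Fam.pt F) F.d A := ⟨_, rfl⟩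
  have hthin : Pe F.p (fun ω => A ω ∧ N ω) ≤ Pe F.p A / 2 := by
    by_contra hcon
    push Not at hcon
    have hsub : Sub (fun ω => A ω ∧ N ω) A := fun ω hω => hω.1
    have h1 : Real.exp (-(τ / 2 * J)) * Pe F.p A ≤ Pe F.p (fun ω => A ω ∧ N ω) := by
      have h2 := hJ₂ J ((le_max_right _ _).trans hJ)
      have h3 := Pe_nonneg F.isLaw A
      have h4 : Real.exp (-(τ / 2 * J)) * Pe F.p A ≤ 1 / 2 * Pe F.p A :=
        mul_le_mul_of_nonneg_right h2 h3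
      linarith
    have h5 := hst _ _ _ _ (S.res (τ' := τ / 2) (by linarith) hS hsub h1)
    rw [add_halves] at h5
    refine hball J ((le_max_left _ _).trans hJ) F _ h5 q hqJ hxq ?_
    rw [hN]
    exact ball_thin _ _ _ _
  have hsp := spread_of_not_thin (1 / 2 ^ q) (Fam.pt F) F.d A
  rw [← hN] at hsp
  obtain ⟨e, n, hfr⟩ := hlb _ _ _ _ hS
  refine ⟨fun ω => A ω ∧ ¬ N ω, fun ω hω => hω.1, Pe_diff hthin, fun ω hω => ?_⟩
  obtain ⟨ω', ω'', h1, h2, h3, h4, j, h5⟩ := hsp ω hω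
  refine ⟨ω', ω'', h1, h2, h3, h4, ?_⟩
  have a1 := hfr.line ω' h1.1 j
  have a2 := hfr.line ω'' h2.1 j
  have a3 := hfr.bound ω' h1.1 j
  rw [h3] at a1 a3
  rw [h4] at a2
  have b1 : |e (Fam.pt F ω) j * (F.d ω' i₀ - F.d ω'' i₀)| ≤ |F.d ω' i₀ - F.d ω'' i₀| := by
    rw [abs_mul]
    calc _ ≤ 1 * |F.d ω' i₀ - F.d ω'' i₀| := mul_le_mul_of_nonneg_right a3 (abs_nonneg _)
      _ = _ := one_mul _
  have b2 : |F.d ω' j - F.d ω'' j| ≤ |e (Fam.pt F ω) j * (F.d ω' i₀ - F.d ω'' i₀)| +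
      (1 / 2 ^ ⌊h₁ * J⌋₊ + 1 / 2 ^ ⌊h₁ * J⌋₊) := by
    have e1 : F.d ω' j - F.d ω'' j = e (Fam.pt F ω) j * (F.d ω' i₀ - F.d ω'' i₀) +
        ((F.d ω' j - e (Fam.pt F ω) j * F.d ω' i₀ - n (Fam.pt F ω) j) -
          (F.d ω'' j - e (Fam.pt F ω) j * F.d ω'' i₀ - n (Fam.pt F ω) j)) := by ring
    rw [e1]
    refine (abs_add_le _ _).trans (add_le_add le_rfl ((abs_sub _ _).trans (add_le_add a1 a2)))
  have b3 : (1 : ℝ) / 2 ^ ⌊h₁ * J⌋₊ ≤ 1 / 2 ^ (q + 2) := inv_mono hq2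
  have b4 : (1 : ℝ) / 2 ^ (q + 2) = 1 / 2 ^ q / 4 := by rw [pow_add]; field_simp; norm_num
  have b5 : (1 : ℝ) / 2 ^ (q + 1) = 1 / 2 ^ q / 2 := by rw [pow_add]; field_simp
  rw [b5]
  linarith

/-- Points at precision `Q` are functions of the exact points. -/
theorem ptq_of_pt {J : ℕ} (F : Fam 3 J) {q : ℕ} (hq : q ≤ J) {ω ω' : F.Ω}
    (h : Fam.pt F ω = Fam.pt F ω') : Pool.KS6.ptq F q ω = Pool.KS6.ptq F q ω' := by
  obtain ⟨φ, hφ⟩ := ptr_coarse F hq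
  have h1 : Pool.KS6.ptq F q ω = φ (Fam.pt F ω) := hφ ω
  have h2 : Pool.KS6.ptq F q ω' = φ (Fam.pt F ω') := hφ ω'
  rw [h1, h2, h]

/-- Two frames at an exact point agree if the fan is spread. -/
theorem frame_close {U : Type} {Ω : Type} {i₀ j : Fin 3} {d : Ω → Fin 3 → ℝ} {ω' ω'' : Ω}
    {e e' n n' r r' δ : ℝ} (h1 : |d ω' j - e * d ω' i₀ - n| ≤ r)
    (h2 : |d ω'' j - e * d ω'' i₀ - n| ≤ r) (h3 : |d ω' j - e' * d ω' i₀ - n'| ≤ r')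
    (h4 : |d ω'' j - e' * d ω'' i₀ - n'| ≤ r') (hδ : 0 < δ) (h5 : δ ≤ |d ω' i₀ - d ω'' i₀|) :
    |e' - e| ≤ (2 * r + 2 * r') / δ := by
  rw [le_div_iff₀ hδ]
  have e1 : (e' - e) * (d ω' i₀ - d ω'' i₀) = ((d ω' j - e * d ω' i₀ - n) -
      (d ω'' j - e * d ω'' i₀ - n)) - ((d ω' j - e' * d ω' i₀ - n') -
      (d ω'' j - e' * d ω'' i₀ - n')) := by ring
  have e2 : |e' - e| * |d ω' i₀ - d ω'' i₀| ≤ 2 * r + 2 * r' := by
    rw [← abs_mul, e1]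
    refine (abs_sub _ _).trans ?_
    have := abs_sub (d ω' j - e * d ω' i₀ - n) (d ω'' j - e * d ω'' i₀ - n)
    have := abs_sub (d ω' j - e' * d ω' i₀ - n') (d ω'' j - e' * d ω'' i₀ - n')
    linarith
  exact (mul_le_mul_of_nonneg_left h5 (abs_nonneg _)).trans e2

theorem capS_hered {c : ℝ} {q : ℝ → Stat 3} (h : ∀ (s : ℝ) (J : ℕ) (F : Fam 3 J), Hered (q s J F))
    (s : ℝ) (J : ℕ) (F : Fam 3 J) : Hered (capS c q s J F) := by
  rintro A B hB (h1 | ⟨h1, h2⟩)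
  · exact Or.inl h1
  · exact Or.inr ⟨h1, h s J F A B hB h2⟩

theorem qRot_hered (i₀ : Fin 3) (Q w s : ℝ) (J : ℕ) (F : Fam 3 J) : Hered (qRot i₀ Q w s J F) :=
  RotU.hered _ _ _ _ _ _

/-- A margin in the floors. -/
theorem floor_margin {s s' J : ℝ} {k : ℕ} (hs : 0 ≤ s') (h : s' * J + k + 1 ≤ s * J)
    (hJ : 0 ≤ J) : ⌊s' * J⌋₊ + k ≤ ⌊s * J⌋₊ := by
  have h1 : (⌊s' * J⌋₊ : ℝ) ≤ s' * J := Nat.floor_le (by positivity)
  have h2 : s * J < ⌊s * J⌋₊ + 1 := Nat.lt_floor_add_one _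
  have h3 : ((⌊s' * J⌋₊ + k : ℕ) : ℝ) < ((⌊s * J⌋₊ : ℕ) : ℝ) := by
    push_cast
    linarith
  exact le_of_lt (by exact_mod_cast h3)

/-- **(a)** The directions at the row `Q` are at least as constant as the directions at exact
points, up to the straightness of the fans at the row `Q`. -/
theorem rot_min {S : PCl 3} {a R h₁ : ℝ} {i₀ : Fin 3} {c s₂ : ℝ} {r : ℝ → ℝ} {D : Set ℝ}
    {σ : ℝ → Row} (hC : Cs S a R h₁ i₀ c s₂ r D σ) {Q : ℝ} (hQ0 : 0 ≤ Q) (hQ1 : Q ≤ 1)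
    {ρ : Row} (hρ : Rw S i₀ Q ρ) (w : ℚ) (hw0 : 0 ≤ w) (hw1 : w ≤ 1) :
    min ((σ 1).rot w) ρ.pi ≤ ρ.rot w := by
  refine le_of_forall_pos_le_add fun h₀ hh₀ => ?_
  obtain ⟨h, hh⟩ : ∃ h, h = h₀ / 4 := ⟨_, rfl⟩
  have hh0 : 0 < h := by rw [hh]; linarith
  obtain ⟨mn, hmn⟩ : ∃ mn, mn = min ((σ 1).rot w) ρ.pi := ⟨_, rfl⟩
  have hm1 : mn ≤ (σ 1).rot w := by rw [hmn]; exact min_le_left _ _
  have hm2 : mn ≤ ρ.pi := by rw [hmn]; exact min_le_right _ _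
  rw [← hmn]
  have key : mn - 4 * h ≤ ρ.rot w := by
    refine PNum.att hC.ne (fun s J F => capS_hered (fun s J F => qRot_hered _ _ _ _ _ _) s J F)
      (hρ.rot w hw0 hw1) fun δ hδ => ?_
    by_cases hg : mn - 4 * h ≤ 0
    · refine Clp.of one_pos 0 fun J _ F A _ => ⟨A, fun _ h => h, ?_, Or.inl hg⟩
      have : Real.exp (-(δ * J)) ≤ 1 := by
        rw [Real.exp_le_one_iff]
        have : 0 ≤ δ * J := by positivity
        linarith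
      calc _ ≤ 1 * Pe F.p A := mul_le_mul_of_nonneg_right this (Pe_nonneg F.isLaw A)
        _ = _ := one_mul _
    push Not at hg
    have c1 := ((hC.row 1 one_pos le_rfl hC.D1).rot w hw0 hw1).1 h hh0
    have c2 := hρ.pi.1 h hh0
    obtain ⟨x, hx⟩ : ∃ x, x = min h (min h₁ 1 / 4) := ⟨_, rfl⟩
    have hx0 : 0 < x := by
      rw [hx]
      have := lt_min hC.h₁0 one_pos
      exact lt_min hh0 (by linarith)
    have hxh : x ≤ h := by rw [hx]; exact min_le_left _ _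
    have hx1 : x ≤ h₁ / 4 := by
      rw [hx]
      refine (min_le_right _ _).trans ?_
      have := min_le_left h₁ 1
      linarith
    have hx2 : x ≤ 1 / 4 := by
      rw [hx]
      refine (min_le_right _ _).trans ?_
      have := min_le_right h₁ 1
      linarith
    obtain ⟨τ, hτ, J₁, hsp⟩ := spread_part hC.a1 hC.R0 hC.ub hC.st hC.lb hx0
    obtain ⟨J₂, hJ₂⟩ := Pool.S6K.exp_small (κ := δ) (C := 2) hδ (by norm_num)
    obtain ⟨J₃, hJ₃⟩ := exists_nat_gt (16 / h + 16 / h₁ + 16)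
    have c3 : Clp S (fun J F A => ∀ q : ℕ, q ≤ J → x * J ≤ q → q + 2 ≤ ⌊h₁ * J⌋₊ →
        ∃ B : F.Ω → Prop, Sub B A ∧ Real.exp (-Real.log 2) * Pe F.p A ≤ Pe F.p B ∧
        ∀ ω, B ω → ∃ ω' ω'', B ω' ∧ B ω'' ∧ Fam.pt F ω' = Fam.pt F ω ∧
          Fam.pt F ω'' = Fam.pt F ω ∧ 1 / 2 ^ (q + 1) ≤ |F.d ω' i₀ - F.d ω'' i₀|) :=
      Clp.base τ hτ J₁ hsp
    refine Clp.mono (J₂ := max J₂ J₃) ((c1.and c2).and c3) ?_
    rintro J hJ F A ⟨⟨d1, d2⟩, d3⟩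
    have hJ₂' := hJ₂ J ((le_max_left _ _).trans hJ)
    have hJr : 16 / h + 16 / h₁ + 16 < J :=
      hJ₃.trans_le (by exact_mod_cast (le_max_right _ _).trans hJ)
    have q1 : 0 < 16 / h := by positivity
    have q2 : 0 < 16 / h₁ := div_pos (by norm_num) hC.h₁0
    have hJh : 16 < J * h := by
      have : 16 / h < J := by linarith
      rwa [div_lt_iff₀ hh0] at this
    have hJh₁ : 16 < J * h₁ := by
      have : 16 / h₁ < J := by linarith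
      rwa [div_lt_iff₀ hC.h₁0] at this
    have hJ0 : (0 : ℝ) ≤ J := Nat.cast_nonneg J
    have hJ16 : (16 : ℝ) < J := by linarith
    obtain ⟨q, hq⟩ : ∃ q, q = ⌈x * J⌉₊ := ⟨_, rfl⟩
    have hq1 : x * J ≤ q := by rw [hq]; exact Nat.le_ceil _
    have hq2 : (q : ℝ) < x * J + 1 := by rw [hq]; exact Nat.ceil_lt_add_one (by positivity)
    have hqJ : q ≤ J := by
      have e1 : x * J ≤ 1 / 4 * J := mul_le_mul_of_nonneg_right hx2 hJ0
      have : (q : ℝ) ≤ J := by linarith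
      exact_mod_cast this
    have hqh : q + 2 ≤ ⌊h₁ * J⌋₊ := by
      refine Nat.le_floor ?_
      push_cast
      have e1 : x * J ≤ h₁ / 4 * J := mul_le_mul_of_nonneg_right hx1 hJ0
      linarith
    obtain ⟨B, hB, hPB, hBs⟩ := d3 q hqJ hq1 hqh
    refine ⟨B, hB, ?_, Or.inr ⟨?_, ?_⟩⟩
    · refine le_trans (mul_le_mul_of_nonneg_right ?_ (Pe_nonneg F.isLaw A)) hPB
      rw [Real.exp_neg (Real.log 2), Real.exp_log (by norm_num)]
      rw [one_div] at hJ₂'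
      exact hJ₂'
    · rcases d2 with d2 | ⟨d2, -⟩
      · linarith
      · linarith
    rcases d1 with d1 | ⟨-, e, n, ζ, h1, h2⟩
    · linarith
    rcases d2 with d2 | ⟨-, e', n', h3⟩
    · linarith
    -- the floors
    obtain ⟨g, hg'⟩ : ∃ g, g = ⌊(mn - 4 * h) * J⌋₊ := ⟨_, rfl⟩
    obtain ⟨l1, hl1⟩ : ∃ l1, l1 = ⌊((σ 1).rot w - h) * J⌋₊ := ⟨_, rfl⟩
    obtain ⟨l2, hl2⟩ : ∃ l2, l2 = ⌊(ρ.pi - h) * J⌋₊ := ⟨_, rfl⟩
    have g1 : g + (q + 4) ≤ l1 := by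
      rw [hg', hl1]
      refine floor_margin hg.le ?_ hJ0
      push_cast
      have e1 : x * J ≤ h * J := mul_le_mul_of_nonneg_right hxh hJ0
      have e2 : mn * J ≤ (σ 1).rot w * J := mul_le_mul_of_nonneg_right hm1 hJ0
      linarith
    have g2 : g + (q + 4) ≤ l2 := by
      rw [hg', hl2]
      refine floor_margin hg.le ?_ hJ0
      push_cast
      have e1 : x * J ≤ h * J := mul_le_mul_of_nonneg_right hxh hJ0
      have e2 : mn * J ≤ ρ.pi * J := mul_le_mul_of_nonneg_right hm2 hJ0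
      linarith
    unfold qRot
    rw [← hg']
    have h1' : OnL i₀ (1 / 2 ^ l1) (Fam.pt F) F.d A e n := by
      rw [hl1, ← ptq_one F]; exact h1
    have h2' : ∀ ω, A ω → ∀ j, |e (Fam.pt F ω) j - ζ (slam F ⌊(w : ℝ) * J⌋₊ ω) j| ≤
        1 / 2 ^ l1 := by
      rw [hl1, ← ptq_one F]; exact h2
    have h3' : OnL i₀ (1 / 2 ^ l2) (Pool.KS6.ptq F ⌊Q * J⌋₊) F.d A e' n' := by
      rw [hl2]; exact h3
    have hQJ : ⌊Q * J⌋₊ ≤ J := by
      have : Q * J ≤ 1 * J := mul_le_mul_of_nonneg_right hQ1 hJ0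
      rw [one_mul] at this
      exact (Nat.floor_le_floor this).trans (Nat.floor_natCast J).le
    have k1 : (1 : ℝ) / 2 ^ l1 ≤ 1 / 2 ^ (g + (q + 4)) := inv_mono g1
    have k2 : (1 : ℝ) / 2 ^ l2 ≤ 1 / 2 ^ (g + (q + 4)) := inv_mono g2
    obtain ⟨u, hu⟩ : ∃ u : ℝ, u = 1 / 2 ^ (g + (q + 4)) := ⟨_, rfl⟩
    rw [← hu] at k1 k2
    have hu0 : 0 < u := by rw [hu]; positivity
    have hug : u * 2 ^ (q + 4) = 1 / 2 ^ g := by
      rw [hu, pow_add 2 g]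
      field_simp
    have hp : (1 : ℝ) ≤ 2 ^ q := one_le_pow₀ (by norm_num)
    have hug2 : u ≤ 1 / 2 ^ g := by
      rw [← hug, pow_add]
      have h16 : (1 : ℝ) ≤ 2 ^ q * 2 ^ 4 := by
        have : (2 : ℝ) ^ 4 = 16 := by norm_num
        rw [this]
        linarith
      exact le_mul_of_one_le_right hu0.le h16
    refine ⟨e', n', ζ, (h3'.sub hB).mono (k2.trans hug2), fun ω hω j => ?_⟩
    obtain ⟨ω', ω'', b1, b2, b3, b4, b5⟩ := hBs ω hω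
    have a1 := h1' ω' (hB _ b1) j
    have a2 := h1' ω'' (hB _ b2) j
    have a3 := h3' ω' (hB _ b1) j
    have a4 := h3' ω'' (hB _ b2) j
    rw [b3] at a1
    rw [b4] at a2
    rw [ptq_of_pt F hQJ b3] at a3
    rw [ptq_of_pt F hQJ b4] at a4
    have hcl := frame_close (U := ℕ) (d := F.d) a1 a2 a3 a4 (by positivity) b5
    have hz := h2' ω (hB _ hω) j
    have t1 : (2 * (1 / 2 ^ l1) + 2 * (1 / 2 ^ l2)) / (1 / 2 ^ (q + 1)) ≤
        8 * u * 2 ^ q := by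
      rw [div_le_iff₀ (by positivity)]
      have : 8 * u * 2 ^ q * (1 / 2 ^ (q + 1)) = 4 * u := by
        rw [pow_succ]
        field_simp
        norm_num
      rw [this]
      linarith
    have t2 : |e' (Pool.KS6.ptq F ⌊Q * J⌋₊ ω) j - ζ (slam F ⌊(w : ℝ) * J⌋₊ ω) j| ≤
        8 * u * 2 ^ q + u := by
      have := abs_sub_le (e' (Pool.KS6.ptq F ⌊Q * J⌋₊ ω) j) (e (Fam.pt F ω) j)
        (ζ (slam F ⌊(w : ℝ) * J⌋₊ ω) j)
      linarith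
    refine t2.trans ?_
    rw [← hug, pow_add]
    have h16 : (2 : ℝ) ^ 4 = 16 := by norm_num
    rw [h16]
    have h17 := mul_le_mul_of_nonneg_left hp hu0.le
    linarith
  linarith

end Pool.S6C
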