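import Pool.Agent.H75.S6C.Glu

/-!
# The thickness of the planks increases with the window
-/

set_option autoImplicit false

namespace Pool.S6C

open Finset Real
open Pool.Agent.H49.Ent Pool.Agent.H32.Dense Pool.STK Pool.KA Pool.KSAT Pool.K2S Pool.PB Pool.KS6

/-- Planks for smaller windows, one family. -/
theorem lab_window {J : ℕ} (F : Fam 3 J) {i₀ iu iN : Fin 3}
    (hi : ∀ j : Fin 3, j = i₀ ∨ j = iu ∨ j = iN) {Qt w w' lam l2 P P2 : ℕ} {A : F.Ω → Prop}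
    (hA : 0 < Pe F.p A) (hL : LABq F Qt i₀ iu iN w lam P 2 A) (hw : w ≤ w') (hl : l2 ≤ lam)
    (hwl : w' + l2 ≤ Qt) (hP : w + P2 ≤ w' + P) (hPQ : P2 ≤ Qt) (hQ : Qt ≤ J) :
    ∃ B : F.Ω → Prop, Sub B A ∧
      Real.exp (-(8 * (3 * Real.log 15 + 6 * Real.log (16 * 2 + 21)))) / 2 * Pe F.p A ≤
        Pe F.p B ∧ LABq F Qt i₀ iu iN w' l2 P2 2 B := by
  classical
  obtain ⟨z, hz, ⟨φ, hφ⟩, ψ, hψ⟩ := hL
  have hr : ∀ ω, A ω →
      |(z ω).e - (ψ ((slam F w' ω).1, (slam F w' ω).2.1,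
        (slam F w' ω).2.2 / 2 ^ (w' - w))).e| ≤ 1 / 2 ^ l2 ∧
      |(z ω).s - (ψ ((slam F w' ω).1, (slam F w' ω).2.1,
        (slam F w' ω).2.2 / 2 ^ (w' - w))).s| ≤ 1 / 2 ^ P2 ∧
      |Ae (z ω).c (z ω).s (ψ ((slam F w' ω).1, (slam F w' ω).2.1,
        (slam F w' ω).2.2 / 2 ^ (w' - w))).c (ψ ((slam F w' ω).1, (slam F w' ω).2.1,
        (slam F w' ω).2.2 / 2 ^ (w' - w))).s (ψ ((slam F w' ω).1, (slam F w' ω).2.1,
        (slam F w' ω).2.2 / 2 ^ (w' - w))).e| ≤ 1 / 2 ^ P2 := by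
    intro ω hω
    have e1 := hψ ω hω
    rw [slam_coarse F hw (by omega) ω] at e1
    rw [e1]
    refine ⟨?_, ?_, ?_⟩
    · rw [sub_self, abs_zero]
      positivity
    · rw [sub_self, abs_zero]
      positivity
    · unfold Ae
      simp only [sub_self, zero_mul, add_zero, abs_zero]
      positivity
  exact lab_prod F hQ hi (C := 2) (by norm_num) hA hz (φ := φ) hφ
    (ζ := fun v => ψ (v.1, v.2.1, v.2.2 / 2 ^ (w' - w))) hr hl hwl (by omega) (by omega) hP hPQ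

/-- **(h)** The thickness of the planks increases with the window (for windows up to `Q`). -/
theorem th_mono {S : PCl 3} {a R : ℝ} {i₀ : Fin 3} (hS : S.Ne)
    (hst : ∀ (τ : ℝ) (J : ℕ) (F : Fam 3 J) (A : F.Ω → Prop), S.St τ J F A → Fam.Stt F a R τ A)
    {Q : ℝ} (hQ1 : Q ≤ 1) {ρ : Row} (hρ : Rw S i₀ Q ρ) (v w : ℚ) (hv : 0 ≤ v) (hvw : v ≤ w)
    (hwQ : (w : ℝ) ≤ Q) : ρ.th v ≤ ρ.th w := by
  classical
  have hw1 : w ≤ 1 := by
    have : (w : ℝ) ≤ 1 := hwQ.trans hQ1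
    exact_mod_cast this
  have hv' : (0 : ℝ) ≤ v := by exact_mod_cast hv
  have hvw' : (v : ℝ) ≤ w := by exact_mod_cast hvw
  refine le_of_forall_pos_le_add fun h hh => ?_
  have key : ρ.th v - h ≤ ρ.th w := by
    refine num_ge hS (hρ.th w (hv.trans hvw) hw1) ?_
    obtain ⟨κc, hκc⟩ : ∃ κc : ℝ, κc = Real.exp (-(8 * (3 * Real.log 15 +
        6 * Real.log (16 * 2 + 21)))) / 2 := ⟨_, rfl⟩
    have hκc0 : 0 < κc := by rw [hκc]; positivity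
    refine Clp.step ⟨1, fun J F _ => capS Q (qTh i₀ Q w) (ρ.th v - h) J F, fun J F _ =>
      capS_hered (fun s J F A B hB => by
        rintro ⟨iu, iN, hi, hL⟩
        exact ⟨iu, iN, hi, LABq.hered _ _ _ _ _ _ _ _ _ A B hB hL⟩) _ J F⟩ fun κ hκ => ?_
    obtain ⟨J₂, hJ₂⟩ := Pool.S6K.exp_small (κ := κ) (C := max 1 (1 / κc)) hκ (le_max_left _ _)
    have c1 := (hρ.th v hv (hvw.trans hw1)).1 h hh
    have c2 : Clp S (fun J F A => 0 < Pe F.p A) :=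
      Clp.base 1 one_pos 0 fun J _ F A hA => lt_of_lt_of_le (Real.exp_pos _) (hst _ _ _ _ hA).2.2.2
    refine Clp.mono (J₂ := J₂) (c1.and c2) ?_
    rintro J hJ F A ⟨d1, d2⟩ hSb
    have hJ0 : (0 : ℝ) ≤ J := Nat.cast_nonneg J
    rcases d1 with d1 | ⟨d1, iu, iN, hi, hL⟩
    · exact Or.inl d1
    have hQJ : ⌊Q * J⌋₊ ≤ J := by
      have : Q * J ≤ 1 * J := mul_le_mul_of_nonneg_right hQ1 hJ0
      rw [one_mul] at this
      exact (Nat.floor_le_floor this).trans (Nat.floor_natCast J).le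
    have f1 : ⌊(v : ℝ) * J⌋₊ ≤ ⌊(w : ℝ) * J⌋₊ :=
      Nat.floor_le_floor (mul_le_mul_of_nonneg_right hvw' hJ0)
    have f2 : ⌊(w : ℝ) * J⌋₊ ≤ ⌊Q * J⌋₊ :=
      Nat.floor_le_floor (mul_le_mul_of_nonneg_right hwQ hJ0)
    have f3 : ⌊(ρ.th v - h) * J⌋₊ ≤ ⌊Q * J⌋₊ :=
      Nat.floor_le_floor (mul_le_mul_of_nonneg_right d1 hJ0)
    obtain ⟨B, hB, hPB, hLB⟩ := lab_window F hi d2 hL (w' := ⌊(w : ℝ) * J⌋₊) (l2 := 0)
      (P2 := ⌊(ρ.th v - h) * J⌋₊) f1 le_rfl (by omega) (by omega) f3 hQJ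
    rw [← hκc] at hPB
    have hPA : Pe F.p A ≤ max 1 (1 / κc) * Pe F.p B := by
      have e2 : Pe F.p A ≤ 1 / κc * Pe F.p B := by
        rw [div_mul_eq_mul_div, le_div_iff₀ hκc0]
        linarith
      exact e2.trans (mul_le_mul_of_nonneg_right (le_max_right _ _) (Pe_nonneg F.isLaw B))
    exact Pool.S6K.stb_part (hSb 0) hB (by positivity) hPA (hJ₂ J hJ) (Pe_nonneg F.isLaw A)
      (Or.inr ⟨d1, iu, iN, hi, hLB⟩)
  linarith

end Pool.S6C
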