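import Pool.Agent.H75.S6C.SN

/-!
# The straightness in the direction of the normals: the forms with the plank at the window `v₁`
-/

set_option autoImplicit false

namespace Pool.S6C

open Finset Real
open Pool.Agent.H49.Ent Pool.Agent.H32.Dense Pool.STK Pool.KA Pool.KSAT Pool.K2S Pool.PB Pool.KS6

theorem turn_of_adm {σ : ℝ → Row} {K : Set ℝ} {W : ℝ → ℝ} {v₁ t : ℚ} {e₁ : ℝ}
    (hA : Adm σ K W v₁ t e₁) : (σ 1).rot v₁ < (σ 1).pi := by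
  have h1 := hA.e8
  have h2 := hA.e0
  linarith

theorem t1_of_adm {S : PCl 3} {a R h₁ : ℝ} {i₀ : Fin 3} {c s₂ : ℝ} {r : ℝ → ℝ} {D : Set ℝ}
    {σ : ℝ → Row} (hC : Cs S a R h₁ i₀ c s₂ r D σ) {K : Set ℝ} {W : ℝ → ℝ} {v₁ t : ℚ} {e₁ : ℝ}
    (hA : Adm σ K W v₁ t e₁) (hv0 : 0 ≤ v₁) : t ≤ 1 := by
  have h1 : (σ 1).th v₁ ≤ 1 := num_le_cap hC.ne zero_le_one
    ((hC.row 1 one_pos le_rfl hC.D1).th v₁ hv0 hA.v1.le)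
  have h2 : (t : ℝ) ≤ 1 := (hA.lt.trans_le h1).le
  exact_mod_cast h2

/-- The velocity precision of the planks below the window `v₁`. -/
theorem vel_adm {S : PCl 3} {a R h₁ : ℝ} {i₀ : Fin 3} {c s₂ : ℝ} {r : ℝ → ℝ} {D : Set ℝ}
    {σ : ℝ → Row} (hC : Cs S a R h₁ i₀ c s₂ r D σ) {K : Set ℝ} {W : ℝ → ℝ} {v₁ t : ℚ} {e₁ : ℝ}
    (hA : Adm σ K W v₁ t e₁) {w : ℚ} (hw0 : 0 ≤ w) (hw : w ≤ v₁) :
    (σ 1).th w - w < t - v₁ + e₁ := by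
  have h1 := th_slope hC.ne hC.st le_rfl (hC.row 1 one_pos le_rfl hC.D1) w v₁ hw0 hw
    (by exact_mod_cast hA.v1.le)
  have h2 := hA.th1
  have h3 := hA.gt
  rcases min_choice 1 ((σ 1).th w + ((v₁ : ℝ) - w)) with h | h
  · rw [h] at h1
    linarith
  · rw [h] at h1
    linarith

/-- **(b)** The planks bound the number `sN` from below. -/
theorem th_le_sN {S : PCl 3} {a R h₁ : ℝ} {i₀ : Fin 3} {c s₂ : ℝ} {r : ℝ → ℝ} {D : Set ℝ}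
    {σ : ℝ → Row} (hC : Cs S a R h₁ i₀ c s₂ r D σ) {K : Set ℝ} {W : ℝ → ℝ} {v₁ t : ℚ} {e₁ : ℝ}
    (hA : Adm σ K W v₁ t e₁) {w : ℚ} (hw0 : 0 ≤ w) (hw : w ≤ v₁) :
    (σ 1).th w - w ≤ (σ 1).sN v₁ t := by
  have hv0 := hw0.trans hw
  have h1 := vel_adm hC hA hw0 hw
  have h2 := hA.e8
  have h3 := hA.e0
  refine th_le_sn hC v₁ hA.v1.le (turn_of_adm hA) hw0 hw hv0 le_rfl hA.t0.le (t1_of_adm hC hA hv0) hA.lt ?_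
  linarith

/-- **(IND)** for given planks. -/
theorem nst_adm {S : PCl 3} {a R h₁ : ℝ} {i₀ : Fin 3} {c s₂ : ℝ} {r : ℝ → ℝ} {D : Set ℝ}
    {σ : ℝ → Row} (hC : Cs S a R h₁ i₀ c s₂ r D σ) {K : Set ℝ} {W : ℝ → ℝ} {v₁ t : ℚ} {e₁ : ℝ}
    (hA : Adm σ K W v₁ t e₁) {w : ℚ} (hw0 : 0 ≤ w) (hw : w ≤ v₁) {s g' C : ℝ} (hg0 : 0 ≤ g')
    (hs : s - w ≤ t - v₁ + e₁) (h1 : g' < (σ 1).sN v₁ t)
    (h2 : g' < s - w + ((σ 1).pi - (σ 1).rot v₁) - e₁) (hC1 : 1 ≤ C) :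
    Clp S (fun J F A => ∀ G : F.Ω → Prop, Sub G A → Pe F.p A ≤ C * Pe F.p G →
      ∀ iu iN : Fin 3, (∀ j : Fin 3, j = i₀ ∨ j = iu ∨ j = iN) → ∀ y : F.Ω → Pln,
      (∀ ω, G ω → Inc i₀ iu iN ⌊(w : ℝ) * J⌋₊ 0 ⌊s * J⌋₊ 2 (y ω) (F.t ω) (F.x ω) (F.d ω)) →
      (∃ φ : (Fin 3 → ℤ) × (ℕ × F.ζ) → Pln, ∀ ω, G ω → y ω = φ (ptq F J ω)) →
      (∃ ψ : ((Fin 3 → ℝ) × (Fin 3 → ℝ)) × F.ζ × ℕ → Pln, ∀ ω, G ω →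
        y ω = ψ (slam F ⌊(w : ℝ) * J⌋₊ ω)) →
      ∃ B : F.Ω → Prop, Sub B G ∧ Pe F.p G ≤ 4 * Pe F.p B ∧
        ∃ b k : (Fin 3 → ℤ) × (ℕ × F.ζ) → ℝ, ∀ ω, B ω →
        |fn i₀ iu iN (y ω).c (y ω).s (F.d ω) - b (ptq F J ω) - k (ptq F J ω) * F.d ω i₀| ≤
          1 / 2 ^ ⌊g' * J⌋₊) := by
  have hv0 := hw0.trans hw
  have h3 := hA.e0
  exact nst hC v₁ hA.v1.le (turn_of_adm hA) hw0 hw hv0 le_rfl hA.t0.le (t1_of_adm hC hA hv0) hg0 h1 (by linarith)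
    (by linarith) hC1

/-- **(IND)**, exclusion. -/
theorem not_nst_adm {S : PCl 3} {a R h₁ : ℝ} {i₀ : Fin 3} {c s₂ : ℝ} {r : ℝ → ℝ} {D : Set ℝ}
    {σ : ℝ → Row} (hC : Cs S a R h₁ i₀ c s₂ r D σ) {K : Set ℝ} {W : ℝ → ℝ} {v₁ t : ℚ} {e₁ : ℝ}
    (hA : Adm σ K W v₁ t e₁) {w : ℚ} (hw0 : 0 ≤ w) (hw : w ≤ v₁) {s g : ℝ}
    (hs : s - w ≤ t - v₁ + e₁) (h0 : (σ 1).sN v₁ t < 1) (h1 : (σ 1).sN v₁ t < g)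
    (h2 : (σ 1).sN v₁ t < s - w + ((σ 1).pi - (σ 1).rot v₁) - e₁) :
    Clp S (fun J F A => ¬ qSN i₀ w s g J F A) := by
  have hv0 := hw0.trans hw
  have h3 := hA.e0
  exact not_nst hC v₁ hA.v1.le (turn_of_adm hA) hw0 hw hv0 le_rfl hA.t0.le (t1_of_adm hC hA hv0) hA.lt h0 h1
    (by linarith) (by linarith)

end Pool.S6C
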