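import Pool.Agent.H75.S6C.Mon
import Pool.Agent.H51.S6.Loc

/-!
# The slope of the thickness is at least one; the statements (RQ), (RW), (TS)
-/

set_option autoImplicit false

namespace Pool.S6C

open Finset Real
open Pool.Agent.H49.Ent Pool.Agent.H32.Dense Pool.STK Pool.KA Pool.KSAT Pool.K2S Pool.PB Pool.KS6

theorem exists_perm : ∀ i₀ : Fin 3, ∃ iu iN : Fin 3, ∀ j : Fin 3, j = i₀ ∨ j = iu ∨ j = iN := by
  decide

/-- Planks on smaller windows are thicker. -/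
theorem th_slope {S : PCl 3} {a R : ℝ} {i₀ : Fin 3} (hS : S.Ne)
    (hst : ∀ (τ : ℝ) (J : ℕ) (F : Fam 3 J) (A : F.Ω → Prop), S.St τ J F A → Fam.Stt F a R τ A)
    {Q : ℝ} (hQ1 : Q ≤ 1) {ρ : Row} (hρ : Rw S i₀ Q ρ) (v w : ℚ) (hv : 0 ≤ v) (hvw : v ≤ w)
    (hwQ : (w : ℝ) ≤ Q) : min Q (ρ.th v + ((w : ℝ) - v)) ≤ ρ.th w := by
  classical
  have hw1 : w ≤ 1 := by
    have : (w : ℝ) ≤ 1 := hwQ.trans hQ1
    exact_mod_cast this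
  have hv' : (0 : ℝ) ≤ v := by exact_mod_cast hv
  have hvw' : (v : ℝ) ≤ w := by exact_mod_cast hvw
  refine le_of_forall_pos_le_add fun h₀ hh₀ => ?_
  obtain ⟨h, hh⟩ : ∃ h, h = h₀ / 2 := ⟨_, rfl⟩
  have hh0 : 0 < h := by rw [hh]; linarith
  obtain ⟨mn, hmn⟩ : ∃ mn, mn = min Q (ρ.th v + ((w : ℝ) - v)) := ⟨_, rfl⟩
  have hm1 : mn ≤ Q := by rw [hmn]; exact min_le_left _ _
  have hm2 : mn ≤ ρ.th v + ((w : ℝ) - v) := by rw [hmn]; exact min_le_right _ _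
  rw [← hmn]
  have key : mn - 2 * h ≤ ρ.th w := by
    refine num_ge hS (hρ.th w (hv.trans hvw) hw1) ?_
    by_cases hg : mn - 2 * h ≤ 0
    · exact Clp.of one_pos 0 fun _ _ _ _ _ => Or.inl hg
    push Not at hg
    obtain ⟨κc, hκc⟩ : ∃ κc : ℝ, κc = Real.exp (-(8 * (3 * Real.log 15 +
        6 * Real.log (16 * 10 + 21)))) / 2 := ⟨_, rfl⟩
    obtain ⟨κd, hκd⟩ : ∃ κd : ℝ, κd = Real.exp (-(8 * (3 * Real.log 15 +
        6 * Real.log (16 * 2 + 21)))) / 2 := ⟨_, rfl⟩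
    have hκc0 : 0 < κc := by rw [hκc]; positivity
    have hκcd : κc ≤ κd := by
      rw [hκc, hκd]
      have : Real.log (16 * 2 + 21) ≤ Real.log (16 * 10 + 21) :=
        Real.log_le_log (by norm_num) (by norm_num)
      refine div_le_div_of_nonneg_right (Real.exp_le_exp.2 ?_) (by norm_num)
      linarith
    refine Clp.step ⟨1, fun J F _ => capS Q (qTh i₀ Q w) (mn - 2 * h) J F, fun J F _ =>
      capS_hered (fun s J F A B hB => by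
        rintro ⟨iu, iN, hi, hL⟩
        exact ⟨iu, iN, hi, LABq.hered _ _ _ _ _ _ _ _ _ A B hB hL⟩) _ J F⟩ fun κ hκ => ?_
    obtain ⟨J₂, hJ₂⟩ := Pool.S6K.exp_small (κ := κ) (C := max 1 (1 / κc)) hκ (le_max_left _ _)
    obtain ⟨J₃, hJ₃⟩ := exists_nat_gt (4 / h)
    have c1 := (hρ.th v hv (hvw.trans hw1)).1 h hh0
    have c2 : Clp S (fun J F A => 0 < Pe F.p A) :=
      Clp.base 1 one_pos 0 fun J _ F A hA => lt_of_lt_of_le (Real.exp_pos _) (hst _ _ _ _ hA).2.2.2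
    refine Clp.mono (J₂ := max J₂ J₃) (c1.and c2) ?_
    rintro J hJ F A ⟨d1, d2⟩ hSb
    have hJ0 : (0 : ℝ) ≤ J := Nat.cast_nonneg J
    have hJh : 4 < J * h := by
      have : 4 / h < J := hJ₃.trans_le (by exact_mod_cast (le_max_right _ _).trans hJ)
      rwa [div_lt_iff₀ hh0] at this
    have hQJ : ⌊Q * J⌋₊ ≤ J := floor_row_one hQ1 J
    have f1 : ⌊(v : ℝ) * J⌋₊ ≤ ⌊(w : ℝ) * J⌋₊ := floor_row hvw' J
    have f2 : ⌊(w : ℝ) * J⌋₊ ≤ ⌊Q * J⌋₊ := floor_row hwQ J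
    have f3 : ⌊(mn - 2 * h) * J⌋₊ ≤ ⌊Q * J⌋₊ := floor_row (by linarith) J
    have main : ∃ B : F.Ω → Prop, Sub B A ∧ κc * Pe F.p A ≤ Pe F.p B ∧
        qTh i₀ Q w (mn - 2 * h) J F B := by
      rcases d1 with d1 | ⟨-, iu, iN, hi, hL⟩
      · obtain ⟨iu, iN, hi⟩ := exists_perm i₀
        obtain ⟨B, hB, hPB, hLB⟩ := lab_triv F hi d2 f2 hQJ
        rw [← hκc] at hPB
        exact ⟨B, hB, hPB, iu, iN, hi, lab_thin (by norm_num) hLB (floor_row (by linarith) J)⟩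
      · have hPP : ⌊(v : ℝ) * J⌋₊ + ⌊(mn - 2 * h) * J⌋₊ ≤
            ⌊(w : ℝ) * J⌋₊ + ⌊(ρ.th v - h) * J⌋₊ := by
          have a1 : (⌊(v : ℝ) * J⌋₊ : ℝ) ≤ v * J := Nat.floor_le (by positivity)
          have a2 : (⌊(mn - 2 * h) * J⌋₊ : ℝ) ≤ (mn - 2 * h) * J := Nat.floor_le (by positivity)
          have a3 : (w : ℝ) * J < ⌊(w : ℝ) * J⌋₊ + 1 := Nat.lt_floor_add_one _
          have a4 : (ρ.th v - h) * J < ⌊(ρ.th v - h) * J⌋₊ + 1 := Nat.lt_floor_add_one _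
          have a5 : mn * J ≤ (ρ.th v + ((w : ℝ) - v)) * J := mul_le_mul_of_nonneg_right hm2 hJ0
          have a6 : ((⌊(v : ℝ) * J⌋₊ + ⌊(mn - 2 * h) * J⌋₊ : ℕ) : ℝ) ≤
              ((⌊(w : ℝ) * J⌋₊ + ⌊(ρ.th v - h) * J⌋₊ : ℕ) : ℝ) := by
            push_cast
            linarith
          exact_mod_cast a6
        obtain ⟨B, hB, hPB, hLB⟩ := lab_window F hi d2 hL (w' := ⌊(w : ℝ) * J⌋₊) (l2 := 0)
          (P2 := ⌊(mn - 2 * h) * J⌋₊) f1 le_rfl (by omega) hPP f3 hQJ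
        rw [← hκd] at hPB
        refine ⟨B, hB, ?_, iu, iN, hi, hLB⟩
        exact (mul_le_mul_of_nonneg_right hκcd (Pe_nonneg F.isLaw A)).trans hPB
    obtain ⟨B, hB, hPB, hLB⟩ := main
    have hPA : Pe F.p A ≤ max 1 (1 / κc) * Pe F.p B := by
      have e2 : Pe F.p A ≤ 1 / κc * Pe F.p B := by
        rw [div_mul_eq_mul_div, le_div_iff₀ hκc0]
        linarith
      exact e2.trans (mul_le_mul_of_nonneg_right (le_max_right _ _) (Pe_nonneg F.isLaw B))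
    exact Pool.S6K.stb_part (hSb 0) hB (by positivity) hPA
      (hJ₂ J ((le_max_left _ _).trans hJ)) (Pe_nonneg F.isLaw A) (Or.inr ⟨by linarith, hLB⟩)
  linarith

/-- Trivial planks: the thickness is at least the window. -/
theorem th_ge {S : PCl 3} {a R : ℝ} {i₀ : Fin 3} (hS : S.Ne)
    (hst : ∀ (τ : ℝ) (J : ℕ) (F : Fam 3 J) (A : F.Ω → Prop), S.St τ J F A → Fam.Stt F a R τ A)
    {Q : ℝ} (hQ1 : Q ≤ 1) {ρ : Row} (hρ : Rw S i₀ Q ρ) (w : ℚ) (hw : 0 ≤ w)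
    (hwQ : (w : ℝ) ≤ Q) : (w : ℝ) ≤ ρ.th w := by
  have hw' : (0 : ℝ) ≤ w := by exact_mod_cast hw
  have h0 : 0 ≤ ρ.th 0 := by
    refine num_ge hS (hρ.th 0 le_rfl zero_le_one) ?_
    exact Clp.of one_pos 0 fun _ _ _ _ _ => Or.inl le_rfl
  have h1 := th_slope hS hst hQ1 hρ 0 w le_rfl hw hwQ
  refine le_trans (le_min hwQ ?_) h1
  push_cast
  linarith

/-- **(RQ)** -/
theorem rq_thm : RQStmt := by
  intro S a R h₁ i₀ c s₂ r D σ hC Q Q' hQ0 hQQ hQ1 hQD hQD'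
  have h1 := hC.row Q hQ0 (hQQ.trans hQ1) hQD
  have h2 := hC.row Q' (hQ0.trans_le hQQ) hQ1 hQD'
  obtain ⟨k1, k2⟩ := rw_row hC.ne hQQ h1 h2
  exact ⟨k1, fun w hw0 hw1 => ⟨(k2 w hw0 hw1).1, (k2 w hw0 hw1).2,
    rot_min hC hQ0.le (hQQ.trans hQ1) h1 w hw0 hw1⟩⟩

/-- **(RW)** -/
theorem rw_thm : RWStmt := by
  intro S a R h₁ i₀ c s₂ r D σ hC Q hQ0 hQ1 hQD w w' hw hww hw1
  exact rot_window hC.ne (hC.row Q hQ0 hQ1 hQD) hw hww hw1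

/-- **(TS)**, for windows up to `Q`. -/
theorem ths_thm {S : PCl 3} {a R h₁ : ℝ} {i₀ : Fin 3} {c s₂ : ℝ} {r : ℝ → ℝ} {D : Set ℝ}
    {σ : ℝ → Row} (hC : Cs S a R h₁ i₀ c s₂ r D σ) {Q : ℝ} (hQ0 : 0 < Q) (hQ1 : Q ≤ 1)
    (hQD : Q ∉ D) {w w' : ℚ} (hw : 0 ≤ w) (hww : w ≤ w') (hwQ : (w' : ℝ) ≤ Q) :
    min Q ((σ Q).th w + ((w' : ℝ) - w)) ≤ (σ Q).th w' ∧ (w' : ℝ) ≤ (σ Q).th w' :=
  ⟨th_slope hC.ne hC.st hQ1 (hC.row Q hQ0 hQ1 hQD) w w' hw hww hwQ,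
    th_ge hC.ne hC.st hQ1 (hC.row Q hQ0 hQ1 hQD) w' (hw.trans hww) hwQ⟩

end Pool.S6C
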