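import Pool.Agent.H75.S6C.Rot
import Pool.Agent.H77.S6.LAB4

/-!
# Gluing of a plank with a frame which is constant on the window
-/

set_option autoImplicit false

namespace Pool.S6C

open Finset Real
open Pool.Agent.H49.Ent Pool.Agent.H32.Dense Pool.STK Pool.KA Pool.KSAT Pool.K2S Pool.PB Pool.KS6

/-- **Gluing**, one family. -/
theorem glu_one {J : ℕ} (F : Fam 3 J) {i₀ iu iN : Fin 3}
    (hi : ∀ j : Fin 3, j = i₀ ∨ j = iu ∨ j = iN) {Qt w l2 P P2 : ℕ} {A : F.Ω → Prop}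
    (hA : 0 < Pe F.p A) (hL : LABq F Qt i₀ iu iN w 0 P 2 A)
    {e n : (Fin 3 → ℤ) × (ℕ × F.ζ) → Fin 3 → ℝ}
    {ζ : ((Fin 3 → ℝ) × (Fin 3 → ℝ)) × F.ζ × ℕ → Fin 3 → ℝ}
    (h1 : OnL i₀ (1 / 2 ^ l2) (Pool.KS6.ptq F Qt) F.d A e n)
    (h2 : ∀ ω, A ω → ∀ j, |e (Pool.KS6.ptq F Qt ω) j - ζ (slam F w ω) j| ≤ 1 / 2 ^ l2)
    (h3 : ∀ ω, A ω → |e (Pool.KS6.ptq F Qt ω) iu| ≤ 2)
    (hQ : Qt ≤ J) (hw : w + l2 ≤ Qt) (hP : P2 ≤ P) (hPQ : P2 ≤ Qt) :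
    ∃ B : F.Ω → Prop, Sub B A ∧
      Real.exp (-(8 * (3 * Real.log 15 + 6 * Real.log (16 * 10 + 21)))) / 2 * Pe F.p A ≤
        Pe F.p B ∧ LABq F Qt i₀ iu iN w l2 P2 2 B := by
  classical
  obtain ⟨z, hz, ⟨φ, hφ⟩, ψ, hψ⟩ := hL
  obtain ⟨n1, n2, n3⟩ := three hi
  obtain ⟨Φ, hΦ⟩ : ∃ Φ : (Fin 3 → ℤ) × (ℕ × F.ζ) → Pln, Φ = fun u =>
      { e := e u iu, c := (φ u).c, s := (φ u).s,
        xb := fun i => (u.1 i : ℝ) / 2 ^ Qt - (u.2.1 : ℝ) / 2 ^ J *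
          Pool.KS6.bp i₀ iu (e u iu) (φ u).c (φ u).s 0 (n u iu)
            (fn i₀ iu iN (φ u).c (φ u).s (φ u).db) i
        db := Pool.KS6.bp i₀ iu (e u iu) (φ u).c (φ u).s 0 (n u iu)
            (fn i₀ iu iN (φ u).c (φ u).s (φ u).db) } := ⟨_, rfl⟩
  obtain ⟨y, hy⟩ : ∃ y : F.Ω → Pln, y = fun ω => Φ (Pool.KS6.ptq F Qt ω) := ⟨_, rfl⟩
  have hQ0 : (0 : ℝ) < 2 ^ Qt := by positivity
  have i1 : (1 : ℝ) / 2 ^ Qt ≤ 1 / 2 ^ (w + l2) := inv_mono hw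
  have i2 : (1 : ℝ) / 2 ^ Qt ≤ 1 / 2 ^ P2 := inv_mono hPQ
  have i3 : (1 : ℝ) / 2 ^ Qt ≤ 1 / 2 ^ w := inv_mono (by omega)
  have i4 : (1 : ℝ) / 2 ^ P ≤ 1 / 2 ^ P2 := inv_mono hP
  have hI : ∀ ω, A ω → Inc i₀ iu iN w l2 P2 10 (y ω) (F.t ω) (F.x ω) (F.d ω) := by
    intro ω hω
    obtain ⟨u, hu⟩ : ∃ u, u = Pool.KS6.ptq F Qt ω := ⟨_, rfl⟩
    have hyu : y ω = Φ u := by rw [hy, hu]
    have hzu : z ω = φ u := by rw [hu]; exact hφ ω hω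
    have hI0 := hz ω hω
    rw [hzu] at hI0
    have hx : ∀ i, |F.x ω i - (u.1 i : ℝ) / 2 ^ Qt| ≤ 1 / 2 ^ Qt := by
      intro i
      rw [hu]
      exact floor_near Qt (F.x ω i)
    have hmv : ∀ i, (Φ u).xb i + F.t ω * (Φ u).db i = (u.1 i : ℝ) / 2 ^ Qt := by
      intro i
      rw [hΦ, hu]
      change (_ : ℝ) - (F.T ω : ℝ) / 2 ^ J * _ + (F.T ω : ℝ) / 2 ^ J * _ = _
      ring
    have hmv' : (fun i => (Φ u).xb i + F.t ω * (Φ u).db i) = fun i => (u.1 i : ℝ) / 2 ^ Qt :=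
      funext hmv
    have he := h3 ω hω
    have hon := h1 ω hω iu
    rw [← hu] at he hon
    have hx0 := hx i₀
    have hxu := hx iu
    have hxN := hx iN
    have ee : (Φ u).e = e u iu := by rw [hΦ]
    have ec : (Φ u).c = (φ u).c := by rw [hΦ]
    have es : (Φ u).s = (φ u).s := by rw [hΦ]
    have edb : (Φ u).db = Pool.KS6.bp i₀ iu (e u iu) (φ u).c (φ u).s 0 (n u iu)
        (fn i₀ iu iN (φ u).c (φ u).s (φ u).db) := by rw [hΦ]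
    rw [hyu]
    refine ⟨?_, ?_, ?_, ?_, ?_, ?_, ?_, ?_, ?_⟩
    · rw [ee]; exact he
    · rw [ec]; exact hI0.c_le
    · rw [es]; exact hI0.s_le
    · rw [hmv]
      refine hx0.trans (i3.trans ?_)
      exact div_le_div_of_nonneg_right (by norm_num) (by positivity)
    · rw [hmv', ee]
      have e1 : fu i₀ iu (e u iu) (F.x ω) - fu i₀ iu (e u iu) (fun i => (u.1 i : ℝ) / 2 ^ Qt) =
          (F.x ω iu - (u.1 iu : ℝ) / 2 ^ Qt) - e u iu * (F.x ω i₀ - (u.1 i₀ : ℝ) / 2 ^ Qt) := by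
        unfold fu
        ring
      rw [e1]
      refine (abs_sub _ _).trans ?_
      rw [abs_mul]
      have e2 : |e u iu| * |F.x ω i₀ - (u.1 i₀ : ℝ) / 2 ^ Qt| ≤ 2 * (1 / 2 ^ Qt) :=
        mul_le_mul he hx0 (abs_nonneg _) (by norm_num)
      have e3 : (10 : ℝ) / 2 ^ (w + l2) = 10 * (1 / 2 ^ (w + l2)) := by ring
      rw [e3]
      have : (0 : ℝ) < 1 / 2 ^ (w + l2) := by positivity
      linarith
    · rw [hmv', ec, es]
      have e1 : fn i₀ iu iN (φ u).c (φ u).s (F.x ω) -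
          fn i₀ iu iN (φ u).c (φ u).s (fun i => (u.1 i : ℝ) / 2 ^ Qt) =
          (φ u).c * (F.x ω i₀ - (u.1 i₀ : ℝ) / 2 ^ Qt) +
            (φ u).s * (F.x ω iu - (u.1 iu : ℝ) / 2 ^ Qt) +
            (F.x ω iN - (u.1 iN : ℝ) / 2 ^ Qt) := by
        unfold fn
        ring
      rw [e1]
      have e2 : |(φ u).c * (F.x ω i₀ - (u.1 i₀ : ℝ) / 2 ^ Qt)| ≤ 4 * (1 / 2 ^ Qt) := by
        rw [abs_mul]
        exact mul_le_mul hI0.c_le hx0 (abs_nonneg _) (by norm_num)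
      have e2' : |(φ u).s * (F.x ω iu - (u.1 iu : ℝ) / 2 ^ Qt)| ≤ 4 * (1 / 2 ^ Qt) := by
        rw [abs_mul]
        exact mul_le_mul hI0.s_le hxu (abs_nonneg _) (by norm_num)
      refine (abs_add_le _ _).trans ?_
      have := abs_add_le ((φ u).c * (F.x ω i₀ - (u.1 i₀ : ℝ) / 2 ^ Qt))
        ((φ u).s * (F.x ω iu - (u.1 iu : ℝ) / 2 ^ Qt))
      have e3 : (10 : ℝ) / 2 ^ P2 = 10 * (1 / 2 ^ P2) := by ring
      rw [e3]
      have : (0 : ℝ) < 1 / 2 ^ P2 := by positivity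
      linarith
    · rw [edb, bp_i0, sub_zero]
      exact (F.dir ω i₀).trans (by norm_num)
    · rw [ee, edb, bp_fu n1]
      have e3 : (10 : ℝ) / 2 ^ l2 = 10 * (1 / 2 ^ l2) := by ring
      rw [e3]
      have : (0 : ℝ) < 1 / 2 ^ l2 := by positivity
      refine le_trans (le_trans (le_of_eq ?_) hon) (by linarith)
      unfold fu
      rfl
    · rw [ec, es, edb, bp_fn n1 n2 n3]
      refine hI0.vn.trans ?_
      have e3 : (10 : ℝ) * 2 ^ w / 2 ^ P2 = 10 * 2 ^ w * (1 / 2 ^ P2) := by ring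
      have e4 : (2 : ℝ) * 2 ^ w / 2 ^ P = 2 * 2 ^ w * (1 / 2 ^ P) := by ring
      rw [e3, e4]
      have : (0 : ℝ) < 2 ^ w := by positivity
      have : (0 : ℝ) < 1 / 2 ^ P := by positivity
      have h5 : (2 : ℝ) * 2 ^ w * (1 / 2 ^ P) ≤ 2 * 2 ^ w * (1 / 2 ^ P2) :=
        mul_le_mul_of_nonneg_left i4 (by positivity)
      have h6 : (2 : ℝ) * 2 ^ w * (1 / 2 ^ P2) ≤ 10 * 2 ^ w * (1 / 2 ^ P2) :=
        mul_le_mul_of_nonneg_right (by linarith) (by positivity)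
      exact h5.trans h6
  obtain ⟨Z, hZ⟩ : ∃ Z : ((Fin 3 → ℝ) × (Fin 3 → ℝ)) × F.ζ × ℕ → Pln, Z = fun v =>
      { e := ζ v iu, c := (ψ v).c, s := (ψ v).s, xb := fun _ => 0, db := fun _ => 0 } := ⟨_, rfl⟩
  have hr : ∀ ω, A ω → |(y ω).e - (Z (slam F w ω)).e| ≤ 1 / 2 ^ l2 ∧
      |(y ω).s - (Z (slam F w ω)).s| ≤ 1 / 2 ^ P2 ∧
      |Ae (y ω).c (y ω).s (Z (slam F w ω)).c (Z (slam F w ω)).s (Z (slam F w ω)).e| ≤
        1 / 2 ^ P2 := by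
    intro ω hω
    have hzu : φ (Pool.KS6.ptq F Qt ω) = ψ (slam F w ω) := (hφ ω hω).symm.trans (hψ ω hω)
    have ee : (y ω).e = e (Pool.KS6.ptq F Qt ω) iu := by rw [hy, hΦ]
    have ec : (y ω).c = (ψ (slam F w ω)).c := by rw [hy, hΦ, ← hzu]
    have es : (y ω).s = (ψ (slam F w ω)).s := by rw [hy, hΦ, ← hzu]
    have ze : (Z (slam F w ω)).e = ζ (slam F w ω) iu := by rw [hZ]
    have zc : (Z (slam F w ω)).c = (ψ (slam F w ω)).c := by rw [hZ]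
    have zs : (Z (slam F w ω)).s = (ψ (slam F w ω)).s := by rw [hZ]
    refine ⟨?_, ?_, ?_⟩
    · rw [ee, ze]
      exact h2 ω hω iu
    · rw [es, zs, sub_self, abs_zero]
      positivity
    · rw [ec, es, zc, zs]
      unfold Ae
      simp only [sub_self, zero_mul, add_zero, abs_zero]
      positivity
  exact lab_prod F hQ hi (C := 10) (by norm_num) hA hI (φ := Φ) (fun ω _ => by rw [hy]) hr
    le_rfl hw (by omega) (by omega) le_rfl hPQ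

/-- Planks are planks of smaller thickness. -/
theorem lab_thin {J : ℕ} {F : Fam 3 J} {Qt : ℕ} {i₀ iu iN : Fin 3} {w lam P P2 : ℕ} {C : ℝ}
    (hC : 0 ≤ C) {A : F.Ω → Prop} (h : LABq F Qt i₀ iu iN w lam P C A) (hP : P2 ≤ P) :
    LABq F Qt i₀ iu iN w lam P2 C A := by
  obtain ⟨y, h1, h2, h3⟩ := h
  refine ⟨y, fun ω hω => ?_, h2, h3⟩
  have hI := h1 ω hω
  have hp : (2 : ℝ) ^ P2 ≤ 2 ^ P := pow_le_pow_right₀ (by norm_num) hP
  exact ⟨hI.e_le, hI.c_le, hI.s_le, hI.pe, hI.pu,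
    hI.pn.trans (div_le_div_of_nonneg_left hC (by positivity) hp), hI.ve, hI.vu,
    hI.vn.trans (div_le_div_of_nonneg_left (by positivity) (by positivity) hp)⟩

/-- The glued planks for the windows `w`, visible at precision `Q`. -/
def qGl (i₀ : Fin 3) (Q w v s : ℝ) : Stat 3 := fun J F A =>
  ∃ iu iN : Fin 3, (∀ j : Fin 3, j = i₀ ∨ j = iu ∨ j = iN) ∧
    LABq F ⌊Q * J⌋₊ i₀ iu iN ⌊w * J⌋₊ ⌊v * J⌋₊ ⌊s * J⌋₊ 2 A

theorem qGl_hered (i₀ : Fin 3) (Q w v s : ℝ) (J : ℕ) (F : Fam 3 J) :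
    Hered (qGl i₀ Q w v s J F) := by
  rintro A B hB ⟨iu, iN, hi, h⟩
  exact ⟨iu, iN, hi, LABq.hered _ _ _ _ _ _ _ _ _ A B hB h⟩

/-- **(g)** Planks of thickness `s` with the frames of precision `v`. -/
theorem glu {S : PCl 3} {a R h₁ : ℝ} {i₀ : Fin 3} {c s₂ : ℝ} {r : ℝ → ℝ} {D : Set ℝ}
    {σ : ℝ → Row} (hC : Cs S a R h₁ i₀ c s₂ r D σ) {Q : ℝ} (hQ1 : Q ≤ 1)
    {ρ : Row} (hρ : Rw S i₀ Q ρ) (w : ℚ) (hw0 : 0 ≤ w) (hw1 : w ≤ 1) {v s : ℝ}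
    (hv : v < ρ.rot w) (hs : s < ρ.th w) (hvs : w + v ≤ s) (hs0 : 0 < s) (hsQ : s ≤ Q) :
    Clp S (qGl i₀ Q w v s) := by
  classical
  have hw0' : (0 : ℝ) ≤ w := by exact_mod_cast hw0
  by_cases hv0 : v ≤ 0
  · refine Clp.mono (J₂ := 0) ((hρ.th w hw0 hw1).1 (ρ.th w - s) (by linarith)) ?_
    intro J _ F A hA
    have hJ0 : (0 : ℝ) ≤ J := Nat.cast_nonneg J
    have e1 : ρ.th w - (ρ.th w - s) = s := by ring
    rw [e1] at hA
    rcases hA with hA | ⟨-, iu, iN, hi, hL⟩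
    · linarith
    · refine ⟨iu, iN, hi, ?_⟩
      have e2 : ⌊v * (J : ℝ)⌋₊ = 0 := Nat.floor_of_nonpos (mul_nonpos_of_nonpos_of_nonneg hv0 hJ0)
      rw [e2]
      exact hL
  push Not at hv0
  obtain ⟨h, hh⟩ : ∃ h, h = min ((ρ.rot w - v) / 2) ((ρ.th w - s) / 2) := ⟨_, rfl⟩
  have hh0 : 0 < h := by rw [hh]; exact lt_min (by linarith) (by linarith)
  have hhv : v + h ≤ ρ.rot w - h := by
    have := min_le_left ((ρ.rot w - v) / 2) ((ρ.th w - s) / 2)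
    rw [← hh] at this
    linarith
  have hhs : s ≤ ρ.th w - h := by
    have := min_le_right ((ρ.rot w - v) / 2) ((ρ.th w - s) / 2)
    rw [← hh] at this
    linarith
  obtain ⟨κc, hκc⟩ : ∃ κc : ℝ, κc = Real.exp (-(8 * (3 * Real.log 15 +
      6 * Real.log (16 * 10 + 21)))) / 2 := ⟨_, rfl⟩
  have hκc0 : 0 < κc := by rw [hκc]; positivity
  obtain ⟨x, hx⟩ : ∃ x, x = min (v / 4) (min h₁ 1 / 4) := ⟨_, rfl⟩
  have hx0 : 0 < x := by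
    rw [hx]
    have := lt_min hC.h₁0 one_pos
    exact lt_min (by linarith) (by linarith)
  have hxv : x ≤ v / 4 := by rw [hx]; exact min_le_left _ _
  have hx1 : x ≤ h₁ / 4 := by
    rw [hx]
    refine (min_le_right _ _).trans ?_
    have := min_le_left h₁ 1
    linarith
  have hx2 : x ≤ 1 / 4 := by
    rw [hx]
    refine (min_le_right _ _).trans ?_
    have := min_le_right h₁ 1
    linarith
  obtain ⟨τ, hτ, J₁, hsp⟩ := spread_part hC.a1 hC.R0 hC.ub hC.st hC.lb hx0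
  obtain ⟨J₃, hJ₃⟩ := exists_nat_gt (32 / v + 32 / h₁ + 16)
  refine Clp.step ⟨1, fun J F _ => qGl i₀ Q w v s J F, fun J F _ => qGl_hered _ _ _ _ _ _ _⟩
    fun κ hκ => ?_
  obtain ⟨J₂, hJ₂⟩ := Pool.S6K.exp_small (κ := κ) (C := max 1 (2 / κc)) hκ (le_max_left _ _)
  have c1 := (hρ.rot w hw0 hw1).1 h hh0
  have c2 := (hρ.th w hw0 hw1).1 h hh0
  have c3 : Clp S (fun J F A => (0 < Pe F.p A ∧ Lb F i₀ ⌊h₁ * J⌋₊ A) ∧
      ∀ q : ℕ, q ≤ J → x * J ≤ q → q + 2 ≤ ⌊h₁ * J⌋₊ →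
        ∃ B : F.Ω → Prop, Sub B A ∧ Real.exp (-Real.log 2) * Pe F.p A ≤ Pe F.p B ∧
        ∀ ω, B ω → ∃ ω' ω'', B ω' ∧ B ω'' ∧ Fam.pt F ω' = Fam.pt F ω ∧
          Fam.pt F ω'' = Fam.pt F ω ∧ 1 / 2 ^ (q + 1) ≤ |F.d ω' i₀ - F.d ω'' i₀|) :=
    Clp.base τ hτ J₁ fun J hJ F A hS =>
      ⟨⟨lt_of_lt_of_le (Real.exp_pos _) (hC.st _ _ _ _ hS).2.2.2, hC.lb _ _ _ _ hS⟩,
        hsp J hJ F A hS⟩
  refine Clp.mono (J₂ := max J₂ J₃) ((c1.and c2).and c3) ?_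
  rintro J hJ F A ⟨⟨d1, d2⟩, ⟨dA, eb, nb, hfr⟩, d3⟩ hSb
  have hJr : 32 / v + 32 / h₁ + 16 < J :=
    hJ₃.trans_le (by exact_mod_cast (le_max_right _ _).trans hJ)
  have q1 : 0 < 32 / v := by positivity
  have q2 : 0 < 32 / h₁ := div_pos (by norm_num) hC.h₁0
  have hJv : 32 < J * v := by
    have : 32 / v < J := by linarith
    rwa [div_lt_iff₀ hv0] at this
  have hJh₁ : 32 < J * h₁ := by
    have : 32 / h₁ < J := by linarith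
    rwa [div_lt_iff₀ hC.h₁0] at this
  have hJ0 : (0 : ℝ) ≤ J := Nat.cast_nonneg J
  have hJ16 : (16 : ℝ) < J := by linarith
  obtain ⟨q, hq⟩ : ∃ q, q = ⌈x * J⌉₊ := ⟨_, rfl⟩
  have hq1 : x * J ≤ q := by rw [hq]; exact Nat.le_ceil _
  have hq2 : (q : ℝ) < x * J + 1 := by rw [hq]; exact Nat.ceil_lt_add_one (by positivity)
  have hqJ : q ≤ J := by
    have e1 : x * J ≤ 1 / 4 * J := mul_le_mul_of_nonneg_right hx2 hJ0
    have : (q : ℝ) ≤ J := by linarith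
    exact_mod_cast this
  have hqh : q + 4 ≤ ⌊h₁ * J⌋₊ := by
    refine Nat.le_floor ?_
    push_cast
    have e1 : x * J ≤ h₁ / 4 * J := mul_le_mul_of_nonneg_right hx1 hJ0
    linarith
  obtain ⟨B, hB, hPB, hBs⟩ := d3 q hqJ hq1 (by omega)
  rcases d1 with d1 | ⟨-, e, n, ζ, h1, h2⟩
  · linarith
  rcases d2 with d2 | ⟨-, iu, iN, hi, hL⟩
  · linarith
  obtain ⟨l1, hl1⟩ : ∃ l1, l1 = ⌊(ρ.rot w - h) * J⌋₊ := ⟨_, rfl⟩
  rw [← hl1] at h1 h2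
  have g1 : ⌊v * J⌋₊ ≤ l1 := by
    rw [hl1]
    exact Nat.floor_le_floor (mul_le_mul_of_nonneg_right (by linarith) hJ0)
  have g2 : q + 4 ≤ l1 := by
    rw [hl1]
    refine Nat.le_floor ?_
    push_cast
    have e1 : x * J ≤ v / 4 * J := mul_le_mul_of_nonneg_right hxv hJ0
    have e2 : v * J ≤ (ρ.rot w - h) * J := mul_le_mul_of_nonneg_right (by linarith) hJ0
    linarith
  have hQJ : ⌊Q * J⌋₊ ≤ J := by
    have : Q * J ≤ 1 * J := mul_le_mul_of_nonneg_right hQ1 hJ0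
    rw [one_mul] at this
    exact (Nat.floor_le_floor this).trans (Nat.floor_natCast J).le
  -- the slopes are bounded
  have hbd : ∀ ω, B ω → |e (Pool.KS6.ptq F ⌊Q * J⌋₊ ω) iu| ≤ 2 := by
    intro ω hω
    obtain ⟨ω', ω'', b1, b2, b3, b4, b5⟩ := hBs ω hω
    have a1 := hfr.line ω' (hB _ b1) iu
    have a2 := hfr.line ω'' (hB _ b2) iu
    have a3 := h1 ω' (hB _ b1) iu
    have a4 := h1 ω'' (hB _ b2) iu
    rw [b3] at a1
    rw [b4] at a2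
    rw [ptq_of_pt F hQJ b3] at a3
    rw [ptq_of_pt F hQJ b4] at a4
    have hcl := frame_close (U := ℕ) (d := F.d) a1 a2 a3 a4 (by positivity) b5
    have hb := hfr.bound ω (hB _ hω) iu
    have k1 : (1 : ℝ) / 2 ^ l1 ≤ 1 / 2 ^ (q + 4) := inv_mono g2
    have k2 : (1 : ℝ) / 2 ^ ⌊h₁ * J⌋₊ ≤ 1 / 2 ^ (q + 4) := inv_mono hqh
    have t1 : (2 * (1 / 2 ^ ⌊h₁ * J⌋₊) + 2 * (1 / 2 ^ l1)) / (1 / 2 ^ (q + 1)) ≤ (1 : ℝ) := by
      rw [div_le_iff₀ (by positivity)]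
      have : (1 : ℝ) / 2 ^ (q + 4) = 1 / 2 ^ (q + 1) / 8 := by
        rw [show q + 4 = q + 1 + 3 by ring, pow_add 2 (q + 1) 3]
        field_simp
        norm_num
      have h0 : (0 : ℝ) < 1 / 2 ^ (q + 1) := by positivity
      rw [this] at k1 k2
      linarith
    have := abs_sub_abs_le_abs_sub (e (Pool.KS6.ptq F ⌊Q * J⌋₊ ω) iu) (eb (Fam.pt F ω) iu)
    linarith
  have hPeB : 0 < Pe F.p B := lt_of_lt_of_le (by positivity) hPB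
  have i1 : (1 : ℝ) / 2 ^ l1 ≤ 1 / 2 ^ ⌊v * J⌋₊ := inv_mono g1
  have f1 : (⌊(w : ℝ) * J⌋₊ : ℝ) ≤ w * J := Nat.floor_le (by positivity)
  have f2 : (⌊v * J⌋₊ : ℝ) ≤ v * J := Nat.floor_le (by positivity)
  have f3 : w * J + v * J ≤ s * J := by
    rw [← add_mul]
    exact mul_le_mul_of_nonneg_right hvs hJ0
  have f4 : s * J ≤ Q * J := mul_le_mul_of_nonneg_right hsQ hJ0
  obtain ⟨B', hB', hPB', hLB⟩ := glu_one F hi hPeB (LABq.hered _ _ _ _ _ _ _ _ _ A B hB hL)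
    (l2 := ⌊v * J⌋₊) (P2 := ⌊s * J⌋₊) ((h1.sub hB).mono i1)
    (fun ω hω j => (h2 ω (hB _ hω) j).trans i1) hbd hQJ (by
      refine Nat.le_floor ?_
      push_cast
      linarith) (Nat.floor_le_floor (mul_le_mul_of_nonneg_right hhs hJ0))
    (Nat.floor_le_floor f4)
  rw [← hκc] at hPB'
  have hPA : Pe F.p A ≤ max 1 (2 / κc) * Pe F.p B' := by
    have e1 : Real.exp (-Real.log 2) = 1 / 2 := by
      rw [Real.exp_neg, Real.exp_log (by norm_num)]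
      norm_num
    rw [e1] at hPB
    have e2 : Pe F.p A ≤ 2 / κc * Pe F.p B' := by
      rw [div_mul_eq_mul_div, le_div_iff₀ hκc0]
      have e3 := mul_le_mul_of_nonneg_left hPB hκc0.le
      linarith
    exact e2.trans (mul_le_mul_of_nonneg_right (le_max_right _ _) (Pe_nonneg F.isLaw B'))
  exact Pool.S6K.stb_part (hSb 0) (hB'.trans hB) (by positivity) hPA
    (hJ₂ J ((le_max_left _ _).trans hJ)) (Pe_nonneg F.isLaw A) ⟨iu, iN, hi, hLB⟩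

end Pool.S6C
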