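import Pool.Agent.H75.S6C.Th
import Pool.Agent.H80.S6C.Num

/-!
# The numbers of a class are monotone in the row and in the window
-/

set_option autoImplicit false

namespace Pool.S6C

open Finset Real
open Pool.Agent.H49.Ent Pool.Agent.H32.Dense Pool.STK Pool.KA Pool.KSAT Pool.K2S Pool.PB Pool.KS6

/-- Comparison of numbers. -/
theorem num_mono {m : ℕ} {S : PCl m} (hS : S.Ne) {q q' : ℝ → Stat m} {s s' : ℝ}
    (hs : PNum S q s) (hs' : PNum S q' s')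
    (h : ∀ (t : ℝ) (J : ℕ) (F : Fam m J) (A : F.Ω → Prop), q t J F A → q' t J F A) : s ≤ s' := by
  refine le_of_forall_pos_le_add fun e he => ?_
  have := num_ge hS hs' (Clp.mono (J₂ := 0) (hs.1 e he) fun J _ F A hA => h _ J F A hA)
  linarith

theorem floor_row_one {Q : ℝ} (h : Q ≤ 1) (J : ℕ) : ⌊Q * J⌋₊ ≤ J := by
  have h1 := floor_row h J
  rw [one_mul, Nat.floor_natCast] at h1
  exact h1

/-- The numbers of two rows. -/
theorem rw_row {S : PCl 3} {i₀ : Fin 3} (hS : S.Ne) {Q Q' : ℝ} (hQ : Q ≤ Q') {ρ ρ' : Row}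
    (hρ : Rw S i₀ Q ρ) (hρ' : Rw S i₀ Q' ρ') : ρ.pi ≤ ρ'.pi ∧ ∀ w : ℚ, 0 ≤ w → w ≤ 1 →
      ρ.rot w ≤ ρ'.rot w ∧ ρ.th w ≤ ρ'.th w := by
  refine ⟨num_mono hS hρ.pi hρ'.pi ?_, fun w h0 h1 =>
    ⟨num_mono hS (hρ.rot w h0 h1) (hρ'.rot w h0 h1) ?_,
      num_mono hS (hρ.th w h0 h1) (hρ'.th w h0 h1) ?_⟩⟩
  · rintro t J F A (h | ⟨h, e, n, hL⟩)
    · exact Or.inl h
    · obtain ⟨φ, hφ⟩ := ptq_coarse F (floor_row hQ J)
      refine Or.inr ⟨h, fun u => e (φ u), fun u => n (φ u), fun ω hω j => ?_⟩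
      have := hL ω hω j
      rw [hφ ω] at this
      exact this
  · rintro t J F A (h | ⟨h, e, n, ζ, hL, hz⟩)
    · exact Or.inl h
    · obtain ⟨φ, hφ⟩ := ptq_coarse F (floor_row hQ J)
      refine Or.inr ⟨h, fun u => e (φ u), fun u => n (φ u), ζ, fun ω hω j => ?_,
        fun ω hω j => ?_⟩
      · have := hL ω hω j
        rw [hφ ω] at this
        exact this
      · have := hz ω hω j
        rw [hφ ω] at this
        exact this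
  · rintro t J F A (h | ⟨h, iu, iN, hi, y, hy, ⟨φ, hφ⟩, ψ, hψ⟩)
    · exact Or.inl h
    · obtain ⟨χ, hχ⟩ := ptq_coarse F (floor_row hQ J)
      refine Or.inr ⟨h.trans hQ, iu, iN, hi, y, hy, ⟨fun u => φ (χ u), fun ω hω => ?_⟩, ψ, hψ⟩
      rw [hφ ω hω, hχ ω]

/-- **(RW)**, one row. -/
theorem rot_window {S : PCl 3} {i₀ : Fin 3} (hS : S.Ne) {Q : ℝ} {ρ : Row} (hρ : Rw S i₀ Q ρ)
    {w w' : ℚ} (hw : 0 ≤ w) (hww : w ≤ w') (hw1 : w' ≤ 1) : ρ.rot w ≤ ρ.rot w' := by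
  refine num_mono hS (hρ.rot w hw (hww.trans hw1)) (hρ.rot w' (hw.trans hww) hw1) ?_
  rintro t J F A (h | ⟨h, e, n, ζ, hL, hz⟩)
  · exact Or.inl h
  · have hww' : (w : ℝ) ≤ w' := by exact_mod_cast hww
    have hw1' : (w' : ℝ) ≤ 1 := by exact_mod_cast hw1
    refine Or.inr ⟨h, e, n, fun s => ζ (s.1, s.2.1, s.2.2 / 2 ^ (⌊(w' : ℝ) * J⌋₊ -
      ⌊(w : ℝ) * J⌋₊)), hL, fun ω hω j => ?_⟩
    have := hz ω hω j
    rw [slam_coarse F (floor_row hww' J) (floor_row_one hw1' J) ω] at this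
    exact this

/-- **Trivial planks**, one family. -/
theorem lab_triv {J : ℕ} (F : Fam 3 J) {i₀ iu iN : Fin 3}
    (hi : ∀ j : Fin 3, j = i₀ ∨ j = iu ∨ j = iN) {Qt w : ℕ} {A : F.Ω → Prop}
    (hA : 0 < Pe F.p A) (hw : w ≤ Qt) (hQ : Qt ≤ J) :
    ∃ B : F.Ω → Prop, Sub B A ∧
      Real.exp (-(8 * (3 * Real.log 15 + 6 * Real.log (16 * 10 + 21)))) / 2 * Pe F.p A ≤
        Pe F.p B ∧ LABq F Qt i₀ iu iN w 0 w 2 B := by
  classical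
  obtain ⟨n1, n2, n3⟩ := three hi
  obtain ⟨Φ, hΦ⟩ : ∃ Φ : (Fin 3 → ℤ) × (ℕ × F.ζ) → Pln, Φ = fun u =>
      { e := 0, c := 0, s := 0, xb := fun i => (u.1 i : ℝ) / 2 ^ Qt, db := fun _ => 0 } :=
    ⟨_, rfl⟩
  have i3 : (1 : ℝ) / 2 ^ Qt ≤ 1 / 2 ^ w := inv_mono hw
  have hw0 : (0 : ℝ) < 1 / 2 ^ w := by positivity
  have hx : ∀ ω i, |F.x ω i - ((Pool.KS6.ptq F Qt ω).1 i : ℝ) / 2 ^ Qt| ≤ 1 / 2 ^ w :=
    fun ω i => (floor_near Qt (F.x ω i)).trans i3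
  have e10 : (10 : ℝ) / 2 ^ w = 10 * (1 / 2 ^ w) := by ring
  have hI : ∀ ω, A ω → Inc i₀ iu iN w 0 w 10 (Φ (Pool.KS6.ptq F Qt ω)) (F.t ω) (F.x ω)
      (F.d ω) := by
    intro ω _
    rw [hΦ]
    refine ⟨?_, ?_, ?_, ?_, ?_, ?_, ?_, ?_, ?_⟩
    · change |(0 : ℝ)| ≤ 2
      norm_num
    · change |(0 : ℝ)| ≤ 4
      norm_num
    · change |(0 : ℝ)| ≤ 4
      norm_num
    · change |F.x ω i₀ - (((Pool.KS6.ptq F Qt ω).1 i₀ : ℝ) / 2 ^ Qt + F.t ω * 0)| ≤ _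
      rw [mul_zero, add_zero, e10]
      linarith [hx ω i₀]
    · change |fu i₀ iu 0 (F.x ω) - fu i₀ iu 0 (fun i => ((Pool.KS6.ptq F Qt ω).1 i : ℝ) /
        2 ^ Qt + F.t ω * 0)| ≤ _
      rw [add_zero, e10]
      unfold fu
      have e1 : F.x ω iu - 0 * F.x ω i₀ - (((Pool.KS6.ptq F Qt ω).1 iu : ℝ) / 2 ^ Qt +
          F.t ω * 0 - 0 * (((Pool.KS6.ptq F Qt ω).1 i₀ : ℝ) / 2 ^ Qt + F.t ω * 0)) =
          F.x ω iu - ((Pool.KS6.ptq F Qt ω).1 iu : ℝ) / 2 ^ Qt := by ring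
      rw [e1]
      linarith [hx ω iu]
    · change |fn i₀ iu iN 0 0 (F.x ω) - fn i₀ iu iN 0 0
        (fun i => ((Pool.KS6.ptq F Qt ω).1 i : ℝ) / 2 ^ Qt + F.t ω * 0)| ≤ _
      rw [e10]
      unfold fn
      have e1 : 0 * F.x ω i₀ + 0 * F.x ω iu + F.x ω iN -
          (0 * (((Pool.KS6.ptq F Qt ω).1 i₀ : ℝ) / 2 ^ Qt + F.t ω * 0) +
            0 * (((Pool.KS6.ptq F Qt ω).1 iu : ℝ) / 2 ^ Qt + F.t ω * 0) +
            (((Pool.KS6.ptq F Qt ω).1 iN : ℝ) / 2 ^ Qt + F.t ω * 0)) =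
          F.x ω iN - ((Pool.KS6.ptq F Qt ω).1 iN : ℝ) / 2 ^ Qt := by ring
      rw [e1]
      linarith [hx ω iN]
    · change |F.d ω i₀ - 0| ≤ 10
      rw [sub_zero]
      exact (F.dir ω i₀).trans (by norm_num)
    · change |fu i₀ iu 0 (F.d ω) - fu i₀ iu 0 (fun _ => (0 : ℝ))| ≤ 10 / 2 ^ 0
      unfold fu
      have e1 : F.d ω iu - 0 * F.d ω i₀ - ((0 : ℝ) - 0 * 0) = F.d ω iu := by ring
      rw [e1]
      exact (F.dir ω iu).trans (by norm_num)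
    · change |fn i₀ iu iN 0 0 (F.d ω) - fn i₀ iu iN 0 0 (fun _ => (0 : ℝ))| ≤ 10 * 2 ^ w / 2 ^ w
      unfold fn
      have e1 : 0 * F.d ω i₀ + 0 * F.d ω iu + F.d ω iN - (0 * (0 : ℝ) + 0 * 0 + 0) =
          F.d ω iN := by ring
      rw [e1, mul_div_assoc, div_self (by positivity), mul_one]
      exact (F.dir ω iN).trans (by norm_num)
  refine lab_prod F hQ hi (C := 10) (by norm_num) hA hI (φ := Φ) (fun ω _ => rfl)
    (ζ := fun _ => { e := 0, c := 0, s := 0, xb := fun _ => 0, db := fun _ => 0 })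
    (l2 := 0) (sg := w) (ag := w) (P2 := w) (fun ω _ => ?_) le_rfl (by omega) (by omega)
    (by omega) le_rfl hw
  rw [hΦ]
  refine ⟨?_, ?_, ?_⟩
  · change |(0 : ℝ) - 0| ≤ _
    rw [sub_zero, abs_zero]
    positivity
  · change |(0 : ℝ) - 0| ≤ _
    rw [sub_zero, abs_zero]
    positivity
  · unfold Ae
    simp only [sub_self, mul_zero, add_zero, abs_zero]
    positivity

end Pool.S6C
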