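import Pool.Agent.H75.S6C.Ths

/-!
# Comparison of the normals of two planks, one family
-/

set_option autoImplicit false

namespace Pool.S6C

open Finset Real
open Pool.Agent.H49.Ent Pool.Agent.H32.Dense Pool.STK Pool.KA Pool.KSAT Pool.K2S Pool.PB Pool.KS6

/-! ### Algebra -/

theorem ind_alg {c s c' s' au aN bu bN ε ε' ρ : ℝ} (h1 : |c + s * au + aN| ≤ ε)
    (h2 : |c + s * bu + bN| ≤ ε) (h1' : |c' + s' * au + aN| ≤ ε')
    (h2' : |c' + s' * bu + bN| ≤ ε') (hs : |s| ≤ 4) (hs' : |s'| ≤ 4) (hρ : 0 < ρ)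
    (h : ρ ≤ |au - bu| ∨ ρ ≤ |aN - bN|) : |s' - s| ≤ 100 * ((ε + ε') / ρ) := by
  have hε : 0 ≤ ε := (abs_nonneg _).trans h1
  have hε' : 0 ≤ ε' := (abs_nonneg _).trans h1'
  have key : |s' - s| * |au - bu| ≤ 2 * (ε + ε') := by
    rw [← abs_mul]
    have e1 : (s' - s) * (au - bu) = ((c' + s' * au + aN) - (c' + s' * bu + bN)) -
      ((c + s * au + aN) - (c + s * bu + bN)) := by ring
    rw [e1]
    have t1 := abs_sub ((c' + s' * au + aN) - (c' + s' * bu + bN))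
      ((c + s * au + aN) - (c + s * bu + bN))
    have t2 := abs_sub (c' + s' * au + aN) (c' + s' * bu + bN)
    have t3 := abs_sub (c + s * au + aN) (c + s * bu + bN)
    linarith
  have e0 : 100 * ((ε + ε') / ρ) = 100 * (ε + ε') / ρ := by ring
  rw [e0, le_div_iff₀ hρ]
  by_cases hb : ρ / 16 ≤ |au - bu|
  · have : |s' - s| * (ρ / 16) ≤ |s' - s| * |au - bu| :=
      mul_le_mul_of_nonneg_left hb (abs_nonneg _)
    linarith
  · push Not at hb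
    have h3 : ρ ≤ |aN - bN| := by
      rcases h with h | h
      · linarith
      · exact h
    have h4 : |aN - bN| ≤ 4 * |au - bu| + 2 * ε := by
      have e2 : aN - bN = ((c + s * au + aN) - (c + s * bu + bN)) - s * (au - bu) := by ring
      rw [e2]
      have t1 := abs_sub ((c + s * au + aN) - (c + s * bu + bN)) (s * (au - bu))
      have t2 := abs_sub (c + s * au + aN) (c + s * bu + bN)
      have t3 : |s * (au - bu)| ≤ 4 * |au - bu| := by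
        rw [abs_mul]
        exact mul_le_mul_of_nonneg_right hs (abs_nonneg _)
      linarith
    have h5 : |s' - s| ≤ 8 := by
      have := abs_sub s' s
      linarith
    have h6 : |s' - s| * ρ ≤ 8 * ρ := mul_le_mul_of_nonneg_right h5 hρ.le
    linarith

theorem ind_alg2 {c s c' s' au aN bu bN ε ε' ρ : ℝ} (h1 : |c + s * au + aN| ≤ ε)
    (h2 : |c + s * bu + bN| ≤ ε) (h1' : |c' + s' * aN + au| ≤ ε')
    (h2' : |c' + s' * bN + bu| ≤ ε') (hs : |s| ≤ 4) (hs' : |s'| ≤ 4) (hρ : 0 < ρ)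
    (h : ρ ≤ |au - bu| ∨ ρ ≤ |aN - bN|) : |1 - s' * s| ≤ 100 * ((ε + ε') / ρ) := by
  have hε : 0 ≤ ε := (abs_nonneg _).trans h1
  have hε' : 0 ≤ ε' := (abs_nonneg _).trans h1'
  have t2 := abs_sub (c + s * au + aN) (c + s * bu + bN)
  have t3 := abs_sub (c' + s' * aN + au) (c' + s' * bN + bu)
  have k1 : |1 - s' * s| * |au - bu| ≤ 8 * (ε + ε') := by
    rw [← abs_mul]
    have e1 : (1 - s' * s) * (au - bu) = ((c' + s' * aN + au) - (c' + s' * bN + bu)) -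
      s' * ((c + s * au + aN) - (c + s * bu + bN)) := by ring
    rw [e1]
    have t1 := abs_sub ((c' + s' * aN + au) - (c' + s' * bN + bu))
      (s' * ((c + s * au + aN) - (c + s * bu + bN)))
    have t4 : |s' * ((c + s * au + aN) - (c + s * bu + bN))| ≤
        4 * |(c + s * au + aN) - (c + s * bu + bN)| := by
      rw [abs_mul]
      exact mul_le_mul_of_nonneg_right hs' (abs_nonneg _)
    linarith
  have k2 : |1 - s' * s| * |aN - bN| ≤ 8 * (ε + ε') := by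
    rw [← abs_mul]
    have e1 : (1 - s' * s) * (aN - bN) = ((c + s * au + aN) - (c + s * bu + bN)) -
      s * ((c' + s' * aN + au) - (c' + s' * bN + bu)) := by ring
    rw [e1]
    have t1 := abs_sub ((c + s * au + aN) - (c + s * bu + bN))
      (s * ((c' + s' * aN + au) - (c' + s' * bN + bu)))
    have t4 : |s * ((c' + s' * aN + au) - (c' + s' * bN + bu))| ≤
        4 * |(c' + s' * aN + au) - (c' + s' * bN + bu)| := by
      rw [abs_mul]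
      exact mul_le_mul_of_nonneg_right hs (abs_nonneg _)
    linarith
  have e0 : 100 * ((ε + ε') / ρ) = 100 * (ε + ε') / ρ := by ring
  rw [e0, le_div_iff₀ hρ]
  rcases h with h | h
  · have := mul_le_mul_of_nonneg_left h (abs_nonneg (1 - s' * s))
    linarith
  · have := mul_le_mul_of_nonneg_left h (abs_nonneg (1 - s' * s))
    linarith

/-- The direction of a pair of velocities at a point lies in the plank. -/
theorem pair_fn {i₀ iu iN : Fin 3} {w P q : ℕ} {y : Pln} {t1 t2 : ℝ} {x1 x2 d1 d2 : Fin 3 → ℝ}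
    (h1 : Inc i₀ iu iN w 0 P 2 y t1 x1 d1) (h2 : Inc i₀ iu iN w 0 P 2 y t2 x2 d2)
    (hq : 1 / 2 ^ (q + 1) ≤ |d1 i₀ - d2 i₀|) :
    |y.c + y.s * ((d1 iu - d2 iu) / (d1 i₀ - d2 i₀)) + (d1 iN - d2 iN) / (d1 i₀ - d2 i₀)| ≤
      8 * 2 ^ q * (2 ^ w / 2 ^ P) := by
  have hq0 : (0 : ℝ) < 1 / 2 ^ (q + 1) := by positivity
  have hd : 0 < |d1 i₀ - d2 i₀| := lt_of_lt_of_le hq0 hq
  have hd0 : d1 i₀ - d2 i₀ ≠ 0 := abs_pos.mp hd
  have e1 : y.c + y.s * ((d1 iu - d2 iu) / (d1 i₀ - d2 i₀)) + (d1 iN - d2 iN) / (d1 i₀ - d2 i₀) =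
      ((fn i₀ iu iN y.c y.s d1 - fn i₀ iu iN y.c y.s y.db) -
        (fn i₀ iu iN y.c y.s d2 - fn i₀ iu iN y.c y.s y.db)) / (d1 i₀ - d2 i₀) := by
    unfold fn
    field_simp
    ring
  rw [e1, abs_div, div_le_iff₀ hd]
  have t1 := abs_sub (fn i₀ iu iN y.c y.s d1 - fn i₀ iu iN y.c y.s y.db)
    (fn i₀ iu iN y.c y.s d2 - fn i₀ iu iN y.c y.s y.db)
  have t2 := h1.vn
  have t3 := h2.vn
  have e2 : (8 : ℝ) * 2 ^ q * (2 ^ w / 2 ^ P) * (1 / 2 ^ (q + 1)) = 2 * (2 * 2 ^ w / 2 ^ P) := by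
    rw [pow_succ]
    field_simp
    norm_num
  have t4 : (8 : ℝ) * 2 ^ q * (2 ^ w / 2 ^ P) * (1 / 2 ^ (q + 1)) ≤
      8 * 2 ^ q * (2 ^ w / 2 ^ P) * |d1 i₀ - d2 i₀| :=
    mul_le_mul_of_nonneg_left hq (by positivity)
  linarith

/-- The direction of a pair of velocities at a point is the slope of the fan. -/
theorem pair_slope {i₀ j : Fin 3} {q : ℕ} {e n r : ℝ} {d1 d2 : Fin 3 → ℝ}
    (h1 : |d1 j - e * d1 i₀ - n| ≤ r) (h2 : |d2 j - e * d2 i₀ - n| ≤ r)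
    (hq : 1 / 2 ^ (q + 1) ≤ |d1 i₀ - d2 i₀|) :
    |(d1 j - d2 j) / (d1 i₀ - d2 i₀) - e| ≤ 4 * 2 ^ q * r := by
  have hr : 0 ≤ r := (abs_nonneg _).trans h1
  have hq0 : (0 : ℝ) < 1 / 2 ^ (q + 1) := by positivity
  have hd : 0 < |d1 i₀ - d2 i₀| := lt_of_lt_of_le hq0 hq
  have hd0 : d1 i₀ - d2 i₀ ≠ 0 := abs_pos.mp hd
  have e1 : (d1 j - d2 j) / (d1 i₀ - d2 i₀) - e =
      ((d1 j - e * d1 i₀ - n) - (d2 j - e * d2 i₀ - n)) / (d1 i₀ - d2 i₀) := by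
    field_simp
    ring
  rw [e1, abs_div, div_le_iff₀ hd]
  have t1 := abs_sub (d1 j - e * d1 i₀ - n) (d2 j - e * d2 i₀ - n)
  have e2 : (4 : ℝ) * 2 ^ q * r * (1 / 2 ^ (q + 1)) = 2 * r := by
    rw [pow_succ]
    field_simp
    ring
  have t4 : (4 : ℝ) * 2 ^ q * r * (1 / 2 ^ (q + 1)) ≤ 4 * 2 ^ q * r * |d1 i₀ - d2 i₀| :=
    mul_le_mul_of_nonneg_left hq (by positivity)
  linarith

/-- The normals of two planks which contain the same two pairs of velocities. -/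
theorem ind_pts {i₀ iu iN : Fin 3} (hi : ∀ j : Fin 3, j = i₀ ∨ j = iu ∨ j = iN) {q l lp : ℕ}
    (hlp : l + q + 5 ≤ lp) {e e' n n' : Fin 3 → ℝ} {d1 d2 d3 d4 : Fin 3 → ℝ}
    (h1 : ∀ j, |d1 j - e j * d1 i₀ - n j| ≤ 1 / 2 ^ lp)
    (h2 : ∀ j, |d2 j - e j * d2 i₀ - n j| ≤ 1 / 2 ^ lp)
    (h3 : ∀ j, |d3 j - e' j * d3 i₀ - n' j| ≤ 1 / 2 ^ lp)
    (h4 : ∀ j, |d4 j - e' j * d4 i₀ - n' j| ≤ 1 / 2 ^ lp)
    (h12 : 1 / 2 ^ (q + 1) ≤ |d1 i₀ - d2 i₀|) (h34 : 1 / 2 ^ (q + 1) ≤ |d3 i₀ - d4 i₀|)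
    {j : Fin 3} (hj : 1 / 2 ^ l < |e j - e' j|) :
    1 / 2 ^ (l + 1) ≤ |(d1 iu - d2 iu) / (d1 i₀ - d2 i₀) - (d3 iu - d4 iu) / (d3 i₀ - d4 i₀)| ∨
    1 / 2 ^ (l + 1) ≤
      |(d1 iN - d2 iN) / (d1 i₀ - d2 i₀) - (d3 iN - d4 iN) / (d3 i₀ - d4 i₀)| := by
  have hq0 : (0 : ℝ) < 1 / 2 ^ (q + 1) := by positivity
  have hd0 : d1 i₀ - d2 i₀ ≠ 0 := abs_pos.mp (lt_of_lt_of_le hq0 h12)
  have hd1 : d3 i₀ - d4 i₀ ≠ 0 := abs_pos.mp (lt_of_lt_of_le hq0 h34)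
  have k : (4 : ℝ) * 2 ^ q * (1 / 2 ^ lp) ≤ 1 / 2 ^ (l + 3) := by
    obtain ⟨m, rfl⟩ := Nat.exists_eq_add_of_le hlp
    have a1 : (0 : ℝ) < 2 ^ q := by positivity
    have a2 : (0 : ℝ) < 2 ^ l := by positivity
    have a3 : (1 : ℝ) ≤ 2 ^ m := one_le_pow₀ (by norm_num)
    rw [pow_add, pow_add, pow_add, pow_add]
    rw [mul_one_div, div_le_div_iff₀ (by positivity) (by positivity)]
    have : (0 : ℝ) < 2 ^ l * 2 ^ q := mul_pos a2 a1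
    nlinarith
  have l3 : (1 : ℝ) / 2 ^ (l + 3) = 1 / 2 ^ l / 8 := by
    rw [pow_add]
    field_simp
    norm_num
  have l1 : (1 : ℝ) / 2 ^ (l + 1) = 1 / 2 ^ l / 2 := by
    rw [pow_succ]
    field_simp
  have l0 : (0 : ℝ) < 1 / 2 ^ l := by positivity
  rw [l3] at k
  have main : ∀ j, 1 / 2 ^ l < |e j - e' j| →
      1 / 2 ^ (l + 1) ≤ |(d1 j - d2 j) / (d1 i₀ - d2 i₀) - (d3 j - d4 j) / (d3 i₀ - d4 i₀)| := by
    intro j hj
    have t1 := pair_slope (h1 j) (h2 j) h12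
    have t2 := pair_slope (h3 j) (h4 j) h34
    rw [l1]
    have e1 : e j - e' j = ((d1 j - d2 j) / (d1 i₀ - d2 i₀) - (d3 j - d4 j) / (d3 i₀ - d4 i₀)) -
        ((d1 j - d2 j) / (d1 i₀ - d2 i₀) - e j) + ((d3 j - d4 j) / (d3 i₀ - d4 i₀) - e' j) := by
      ring
    rw [e1] at hj
    have t3 := abs_add_le (((d1 j - d2 j) / (d1 i₀ - d2 i₀) - (d3 j - d4 j) / (d3 i₀ - d4 i₀)) -
        ((d1 j - d2 j) / (d1 i₀ - d2 i₀) - e j)) ((d3 j - d4 j) / (d3 i₀ - d4 i₀) - e' j)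
    have t4 := abs_sub ((d1 j - d2 j) / (d1 i₀ - d2 i₀) - (d3 j - d4 j) / (d3 i₀ - d4 i₀))
        ((d1 j - d2 j) / (d1 i₀ - d2 i₀) - e j)
    linarith
  rcases hi j with h | h | h
  · exfalso
    have := main j hj
    rw [h, div_self hd0, div_self hd1, sub_self, abs_zero] at this
    have : (0 : ℝ) < 1 / 2 ^ (l + 1) := by positivity
    linarith
  · exact Or.inl (h ▸ main j hj)
  · exact Or.inr (h ▸ main j hj)

/-- The directions turn on the windows. -/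
theorem turn_part {S : PCl 3} {i₀ : Fin 3} {ρ : Row} (hR : Rw S i₀ 1 ρ) (v₁ : ℚ) (h0 : 0 ≤ v₁)
    (h1 : v₁ ≤ 1) {h : ℝ} (hh : 0 < h) (hr : ρ.rot v₁ + h ≤ 1) :
    ∃ τ > 0, ∃ J₁ : ℕ, ∀ J ≥ J₁, ∀ (F : Fam 3 J) (G : F.Ω → Prop), S.St τ J F G →
      ∀ e n : (Fin 3 → ℤ) × (ℕ × F.ζ) → Fin 3 → ℝ,
      OnL i₀ (1 / 2 ^ ⌊(ρ.rot v₁ + h) * J⌋₊) (Fam.pt F) F.d G e n →
      ∃ B : F.Ω → Prop, Sub B G ∧ Pe F.p G ≤ 2 * Pe F.p B ∧ ∀ ω, B ω → ∃ ω', G ω' ∧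
        slam F ⌊(v₁ : ℝ) * J⌋₊ ω' = slam F ⌊(v₁ : ℝ) * J⌋₊ ω ∧
        ∃ j, 1 / 2 ^ ⌊(ρ.rot v₁ + h) * J⌋₊ < |e (Fam.pt F ω) j - e (Fam.pt F ω') j| := by
  classical
  obtain ⟨c, hc, J₁, hn⟩ := Clp.neg_base
    (fun J F => capS_hered (fun s J F => qRot_hered i₀ 1 v₁ s J F) (ρ.rot v₁ + h) J F)
    ((hR.rot v₁ h0 h1).2 h hh)
  obtain ⟨J₂, hJ₂⟩ := Pool.S6K.exp_small (κ := c / 2) (C := 2) (by linarith) (by norm_num)
  refine ⟨c / 2, by linarith, max J₁ J₂, fun J hJ F G hS e n hL => ?_⟩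
  obtain ⟨N, hN⟩ : ∃ N : F.Ω → Prop, N = fun ω => ∀ ω', G ω' →
      slam F ⌊(v₁ : ℝ) * J⌋₊ ω' = slam F ⌊(v₁ : ℝ) * J⌋₊ ω →
      ∀ j, |e (Fam.pt F ω) j - e (Fam.pt F ω') j| ≤ 1 / 2 ^ ⌊(ρ.rot v₁ + h) * J⌋₊ := ⟨_, rfl⟩
  have hthin : Pe F.p (fun ω => G ω ∧ N ω) ≤ Pe F.p G / 2 := by
    by_contra hcon
    push Not at hcon
    have hsub : Sub (fun ω => G ω ∧ N ω) G := fun ω hω => hω.1
    have k1 : Real.exp (-(c / 2 * J)) * Pe F.p G ≤ Pe F.p (fun ω => G ω ∧ N ω) := by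
      have h2 := hJ₂ J ((le_max_right _ _).trans hJ)
      have h3 := Pe_nonneg F.isLaw G
      have h4 : Real.exp (-(c / 2 * J)) * Pe F.p G ≤ 1 / 2 * Pe F.p G :=
        mul_le_mul_of_nonneg_right h2 h3
      linarith
    have h5 := S.res (τ' := c / 2) (by linarith) hS hsub k1
    rw [add_halves] at h5
    refine hn J ((le_max_left _ _).trans hJ) F _ h5 (Or.inr ⟨hr, ?_⟩)
    refine ⟨e, n, fun s => if hs : ∃ ω, (G ω ∧ N ω) ∧ slam F ⌊(v₁ : ℝ) * J⌋₊ ω = s then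
      e (Fam.pt F hs.choose) else 0, ?_, fun ω hω j => ?_⟩
    · rw [ptq_one F]
      exact hL.sub hsub
    · rw [ptq_one F]
      have hs : ∃ ω', (G ω' ∧ N ω') ∧ slam F ⌊(v₁ : ℝ) * J⌋₊ ω' = slam F ⌊(v₁ : ℝ) * J⌋₊ ω :=
        ⟨ω, hω, rfl⟩
      beta_reduce
      rw [dif_pos hs]
      have h6 := hω.2
      rw [hN] at h6
      exact h6 _ hs.choose_spec.1.1 hs.choose_spec.2 j
  refine ⟨fun ω => G ω ∧ ¬ N ω, fun ω hω => hω.1, ?_, fun ω hω => ?_⟩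
  · have := Pe_diff hthin
    have e1 : Real.exp (-Real.log 2) = 1 / 2 := by
      rw [Real.exp_neg, Real.exp_log (by norm_num)]
      norm_num
    rw [e1] at this
    linarith
  · have h6 := hω.2
    rw [hN] at h6
    push Not at h6
    obtain ⟨ω', h7, h8, j, h9⟩ := h6
    exact ⟨ω', h7, h8, j, h9⟩

/-- **Comparison of two planks**, one family: straightness in the direction of the normal of the
plank `y` gives straightness in the direction of the normal of the plank `y'`. -/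
theorem ind_base {S : PCl 3} {a R h₁ : ℝ} {i₀ : Fin 3} {c s₂ : ℝ} {r : ℝ → ℝ} {D : Set ℝ}
    {σ : ℝ → Row} (hC : Cs S a R h₁ i₀ c s₂ r D σ) (v₁ : ℚ) (hv0 : 0 ≤ v₁) (hv1 : v₁ ≤ 1)
    {h x : ℝ} (hh : 0 < h) (hr : (σ 1).rot v₁ + h ≤ 1) (hx : 0 < x) :
    ∃ τ > 0, ∃ J₁ : ℕ, ∀ J ≥ J₁, ∀ (F : Fam 3 J) (G : F.Ω → Prop), S.St τ J F G →
      ∀ q lp : ℕ, q ≤ J → x * J ≤ q → q + 2 ≤ ⌊h₁ * J⌋₊ →
      ⌊((σ 1).rot v₁ + h) * J⌋₊ + q + 5 ≤ lp →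
      ∀ e n : (Fin 3 → ℤ) × (ℕ × F.ζ) → Fin 3 → ℝ, OnL i₀ (1 / 2 ^ lp) (Fam.pt F) F.d G e n →
      ∀ iu iN iu' iN' : Fin 3, (∀ j : Fin 3, j = i₀ ∨ j = iu ∨ j = iN) →
      (∀ j : Fin 3, j = i₀ ∨ j = iu' ∨ j = iN') → ∀ w w' P P' : ℕ,
      w ≤ ⌊(v₁ : ℝ) * J⌋₊ → w' ≤ ⌊(v₁ : ℝ) * J⌋₊ → ∀ y y' : F.Ω → Pln,
      (∀ ω, G ω → Inc i₀ iu iN w 0 P 2 (y ω) (F.t ω) (F.x ω) (F.d ω)) →
      (∀ ω, G ω → Inc i₀ iu' iN' w' 0 P' 2 (y' ω) (F.t ω) (F.x ω) (F.d ω)) →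
      (∃ φ : (Fin 3 → ℤ) × (ℕ × F.ζ) → Pln, ∀ ω, G ω → y ω = φ (ptq F J ω)) →
      (∃ φ : (Fin 3 → ℤ) × (ℕ × F.ζ) → Pln, ∀ ω, G ω → y' ω = φ (ptq F J ω)) →
      (∃ ψ : ((Fin 3 → ℝ) × (Fin 3 → ℝ)) × F.ζ × ℕ → Pln, ∀ ω, G ω → y ω = ψ (slam F w ω)) →
      (∃ ψ : ((Fin 3 → ℝ) × (Fin 3 → ℝ)) × F.ζ × ℕ → Pln, ∀ ω, G ω → y' ω = ψ (slam F w' ω)) →
      ∀ (g : ℕ) (b k : (Fin 3 → ℤ) × (ℕ × F.ζ) → ℝ), (∀ ω, G ω →
        |fn i₀ iu iN (y ω).c (y ω).s (F.d ω) - b (ptq F J ω) - k (ptq F J ω) * F.d ω i₀| ≤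
          1 / 2 ^ g) →
      ∃ B : F.Ω → Prop, Sub B G ∧ Pe F.p G ≤ 4 * Pe F.p B ∧
        ∃ b' k' : (Fin 3 → ℤ) × (ℕ × F.ζ) → ℝ, ∀ ω, B ω →
        |fn i₀ iu' iN' (y' ω).c (y' ω).s (F.d ω) - b' (ptq F J ω) -
          k' (ptq F J ω) * F.d ω i₀| ≤ 4 * (1 / 2 ^ g) +
          1600 * 2 ^ q * 2 ^ ⌊((σ 1).rot v₁ + h) * J⌋₊ * (2 ^ w / 2 ^ P + 2 ^ w' / 2 ^ P') *
            (1 / 2 ^ lp) := by
  classical
  obtain ⟨τ₁, hτ₁, J₁, hsp⟩ := spread_part hC.a1 hC.R0 hC.ub hC.st hC.lb hx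
  obtain ⟨τ₂, hτ₂, J₂, htn⟩ := turn_part (hC.row 1 one_pos le_rfl hC.D1) v₁ hv0 hv1 hh hr
  obtain ⟨J₃, hJ₃⟩ := Pool.S6K.exp_small (κ := τ₂ / 2) (C := 2) (by linarith) (by norm_num)
  have e2 : Real.exp (-Real.log 2) = 1 / 2 := by
    rw [Real.exp_neg, Real.exp_log (by norm_num)]
    norm_num
  refine ⟨min τ₁ (τ₂ / 2), lt_min hτ₁ (by linarith), max J₁ (max J₂ J₃), ?_⟩
  intro J hJ F G hS q lp hqJ hxq hq2 hlp e n hL iu iN iu' iN' hi hi' w w' P P' hw hw' y y' hI hI'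
    ⟨φ, hφ⟩ ⟨φ', hφ'⟩ ⟨ψ, hψ⟩ ⟨ψ', hψ'⟩ g b k hb
  have hJ1 : J₁ ≤ J := (le_max_left _ _).trans hJ
  have hJ2 : J₂ ≤ J := (le_max_left _ _).trans ((le_max_right _ _).trans hJ)
  have hJ3 : J₃ ≤ J := (le_max_right _ _).trans ((le_max_right _ _).trans hJ)
  obtain ⟨G', hG', hPG', hpr⟩ := hsp J hJ1 F G (S.mono (min_le_left _ _) hS) q hqJ hxq hq2
  have hS' : S.St τ₂ J F G' := by
    have h1 := S.res (τ' := τ₂ / 2) (by linarith) (S.mono (min_le_right _ _) hS) hG' (by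
      refine le_trans (mul_le_mul_of_nonneg_right ?_ (Pe_nonneg F.isLaw G)) hPG'
      rw [e2]
      exact hJ₃ J hJ3)
    rwa [add_halves] at h1
  have i1 : (1 : ℝ) / 2 ^ lp ≤ 1 / 2 ^ ⌊((σ 1).rot v₁ + h) * J⌋₊ := inv_mono (by omega)
  obtain ⟨B, hB, hPB, htr⟩ := htn J hJ2 F G' hS' e n ((hL.sub hG').mono i1)
  obtain ⟨l, hl⟩ : ∃ l, l = ⌊((σ 1).rot v₁ + h) * J⌋₊ := ⟨_, rfl⟩
  rw [← hl] at htr hlp ⊢
  have hvJ : ⌊(v₁ : ℝ) * J⌋₊ ≤ J := floor_row_one (by exact_mod_cast hv1) J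
  obtain ⟨ε, hε⟩ : ∃ ε : ℝ, ε = 8 * 2 ^ q * (2 ^ w / 2 ^ P) := ⟨_, rfl⟩
  obtain ⟨ε', hε'⟩ : ∃ ε' : ℝ, ε' = 8 * 2 ^ q * (2 ^ w' / 2 ^ P') := ⟨_, rfl⟩
  have hl0 : (0 : ℝ) < 1 / 2 ^ (l + 1) := by positivity
  have hκ : 100 * ((ε + ε') / (1 / 2 ^ (l + 1))) =
      1600 * 2 ^ q * 2 ^ l * (2 ^ w / 2 ^ P + 2 ^ w' / 2 ^ P') := by
    rw [hε, hε', pow_succ]
    field_simp
    ring
  -- the two pairs
  have pts : ∀ ω, B ω → ∃ au aN bu bN : ℝ, |(y ω).c + (y ω).s * au + aN| ≤ ε ∧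
      |(y ω).c + (y ω).s * bu + bN| ≤ ε ∧ (1 / 2 ^ (l + 1) ≤ |au - bu| ∨
        1 / 2 ^ (l + 1) ≤ |aN - bN|) ∧
      ((iu' = iu ∧ iN' = iN ∧ |(y' ω).c + (y' ω).s * au + aN| ≤ ε' ∧
        |(y' ω).c + (y' ω).s * bu + bN| ≤ ε') ∨
      (iu' = iN ∧ iN' = iu ∧ |(y' ω).c + (y' ω).s * aN + au| ≤ ε' ∧
        |(y' ω).c + (y' ω).s * bN + bu| ≤ ε')) := by
    intro ω hω
    obtain ⟨ω₁, hω₁, hsl, j, hj⟩ := htr ω hω
    obtain ⟨ωa, ωb, ha, hb, pa, pb, hab⟩ := hpr ω (hB _ hω)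
    obtain ⟨ωc, ωd, hc, hd, pc, pd, hcd⟩ := hpr ω₁ hω₁
    have s1 : slam F w ω₁ = slam F w ω := Pool.S6K.slam_mono hw hvJ hsl
    have s2 : slam F w' ω₁ = slam F w' ω := Pool.S6K.slam_mono hw' hvJ hsl
    have y1 : y ω₁ = y ω := by
      rw [hψ _ (hG' _ hω₁), hψ _ (hG' _ (hB _ hω)), s1]
    have y2 : y' ω₁ = y' ω := by
      rw [hψ' _ (hG' _ hω₁), hψ' _ (hG' _ (hB _ hω)), s2]
    have yp : ∀ ω₂, G' ω₂ → ∀ ω₃, G' ω₃ → Fam.pt F ω₂ = Fam.pt F ω₃ → y ω₂ = y ω₃ ∧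
        y' ω₂ = y' ω₃ := by
      intro ω₂ h2 ω₃ h3 h4
      have h5 : ptq F J ω₂ = ptq F J ω₃ := h4
      exact ⟨by rw [hφ _ (hG' _ h2), hφ _ (hG' _ h3), h5],
        by rw [hφ' _ (hG' _ h2), hφ' _ (hG' _ h3), h5]⟩
    have ya := yp _ ha _ (hB _ hω) pa
    have yb := yp _ hb _ (hB _ hω) pb
    have yc := yp _ hc _ hω₁ pc
    have yd := yp _ hd _ hω₁ pd
    have Ia := hI _ (hG' _ ha)
    have Ib := hI _ (hG' _ hb)
    have Ic := hI _ (hG' _ hc)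
    have Id := hI _ (hG' _ hd)
    rw [ya.1] at Ia
    rw [yb.1] at Ib
    rw [yc.1, y1] at Ic
    rw [yd.1, y1] at Id
    have Ia' := hI' _ (hG' _ ha)
    have Ib' := hI' _ (hG' _ hb)
    have Ic' := hI' _ (hG' _ hc)
    have Id' := hI' _ (hG' _ hd)
    rw [ya.2] at Ia'
    rw [yb.2] at Ib'
    rw [yc.2, y2] at Ic'
    rw [yd.2, y2] at Id'
    have La : ∀ j, |F.d ωa j - e (Fam.pt F ω) j * F.d ωa i₀ - n (Fam.pt F ω) j| ≤ 1 / 2 ^ lp := by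
      intro j
      have := hL _ (hG' _ ha) j
      rwa [pa] at this
    have Lb : ∀ j, |F.d ωb j - e (Fam.pt F ω) j * F.d ωb i₀ - n (Fam.pt F ω) j| ≤ 1 / 2 ^ lp := by
      intro j
      have := hL _ (hG' _ hb) j
      rwa [pb] at this
    have Lc : ∀ j, |F.d ωc j - e (Fam.pt F ω₁) j * F.d ωc i₀ - n (Fam.pt F ω₁) j| ≤
        1 / 2 ^ lp := by
      intro j
      have := hL _ (hG' _ hc) j
      rwa [pc] at this
    have Ld : ∀ j, |F.d ωd j - e (Fam.pt F ω₁) j * F.d ωd i₀ - n (Fam.pt F ω₁) j| ≤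
        1 / 2 ^ lp := by
      intro j
      have := hL _ (hG' _ hd) j
      rwa [pd] at this
    refine ⟨(F.d ωa iu - F.d ωb iu) / (F.d ωa i₀ - F.d ωb i₀),
      (F.d ωa iN - F.d ωb iN) / (F.d ωa i₀ - F.d ωb i₀),
      (F.d ωc iu - F.d ωd iu) / (F.d ωc i₀ - F.d ωd i₀),
      (F.d ωc iN - F.d ωd iN) / (F.d ωc i₀ - F.d ωd i₀), ?_, ?_, ?_, ?_⟩
    · rw [hε]
      exact pair_fn Ia Ib hab
    · rw [hε]
      exact pair_fn Ic Id hcd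
    · exact ind_pts hi hlp La Lb Lc Ld hab hcd hj
    · obtain ⟨n1, n2, n3⟩ := three hi
      obtain ⟨n1', n2', n3'⟩ := three hi'
      have hcase : (iu' = iu ∧ iN' = iN) ∨ (iu' = iN ∧ iN' = iu) := by
        rcases hi iu' with h | h | h
        · exact absurd h n1'
        · rcases hi iN' with h' | h' | h'
          · exact absurd h' n2'
          · exact absurd (h'.trans h.symm) n3'
          · exact Or.inl ⟨h, h'⟩
        · rcases hi iN' with h' | h' | h'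
          · exact absurd h' n2'
          · exact Or.inr ⟨h, h'⟩
          · exact absurd (h'.trans h.symm) n3'
      rcases hcase with ⟨u1, u2⟩ | ⟨u1, u2⟩
      · left
        refine ⟨u1, u2, ?_, ?_⟩
        · rw [hε', ← u1, ← u2]
          exact pair_fn Ia' Ib' hab
        · rw [hε', ← u1, ← u2]
          exact pair_fn Ic' Id' hcd
      · right
        refine ⟨u1, u2, ?_, ?_⟩
        · rw [hε', ← u1, ← u2]
          exact pair_fn Ia' Ib' hab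
        · rw [hε', ← u1, ← u2]
          exact pair_fn Ic' Id' hcd
  refine ⟨B, hB.trans hG', ?_, ?_⟩
  · rw [e2] at hPG'
    linarith
  obtain ⟨n1, n2, n3⟩ := three hi
  obtain ⟨n1', n2', n3'⟩ := three hi'
  have hcase : (iu' = iu ∧ iN' = iN) ∨ (iu' = iN ∧ iN' = iu) := by
    rcases hi iu' with h | h | h
    · exact absurd h n1'
    · rcases hi iN' with h' | h' | h'
      · exact absurd h' n2'
      · exact absurd (h'.trans h.symm) n3'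
      · exact Or.inl ⟨h, h'⟩
    · rcases hi iN' with h' | h' | h'
      · exact absurd h' n2'
      · exact Or.inr ⟨h, h'⟩
      · exact absurd (h'.trans h.symm) n3'
  rcases hcase with ⟨u1, u2⟩ | ⟨u1, u2⟩
  · subst u1 u2
    refine ⟨fun u => b u + ((φ' u).s - (φ u).s) * n u iu',
      fun u => k u + ((φ' u).c - (φ u).c) + ((φ' u).s - (φ u).s) * e u iu', fun ω hω => ?_⟩
    have hωG := hG' _ (hB _ hω)
    obtain ⟨au, aN, bu, bN, p1, p2, p3, p4⟩ := pts ω hω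
    have Iy := hI ω hωG
    have Iy' := hI' ω hωG
    have key : |(y' ω).s - (y ω).s| ≤ 100 * ((ε + ε') / (1 / 2 ^ (l + 1))) := by
      rcases p4 with ⟨-, -, p4, p5⟩ | ⟨u3, -, -⟩
      · exact ind_alg p1 p2 p4 p5 Iy.s_le Iy'.s_le hl0 p3
      · exact absurd u3.symm n3
    rw [hκ] at key
    have hb1 := hb ω hωG
    have hl1 := hL ω hωG iu'
    have q1 := hφ ω hωG
    have q2 := hφ' ω hωG
    have q3 : Fam.pt F ω = ptq F J ω := rfl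
    rw [q3] at hl1
    beta_reduce
    rw [← q1, ← q2]
    have e1 : fn i₀ iu' iN' (y' ω).c (y' ω).s (F.d ω) -
        (b (ptq F J ω) + ((y' ω).s - (y ω).s) * n (ptq F J ω) iu') -
        (k (ptq F J ω) + ((y' ω).c - (y ω).c) + ((y' ω).s - (y ω).s) * e (ptq F J ω) iu') *
          F.d ω i₀ =
        (fn i₀ iu' iN' (y ω).c (y ω).s (F.d ω) - b (ptq F J ω) - k (ptq F J ω) * F.d ω i₀) +
        ((y' ω).s - (y ω).s) *
          (F.d ω iu' - e (ptq F J ω) iu' * F.d ω i₀ - n (ptq F J ω) iu') := by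
      unfold fn
      ring
    rw [e1]
    refine (abs_add_le _ _).trans ?_
    rw [abs_mul]
    have t1 := mul_le_mul key hl1 (abs_nonneg _) (by positivity)
    have t2 : (0 : ℝ) < 1 / 2 ^ g := by positivity
    linarith
  · subst u1 u2
    refine ⟨fun u => (φ' u).s * b u + (1 - (φ' u).s * (φ u).s) * n u iN',
      fun u => (φ' u).c + (φ' u).s * (k u - (φ u).c) + (1 - (φ' u).s * (φ u).s) * e u iN',
      fun ω hω => ?_⟩
    have hωG := hG' _ (hB _ hω)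
    obtain ⟨au, aN, bu, bN, p1, p2, p3, p4⟩ := pts ω hω
    have Iy := hI ω hωG
    have Iy' := hI' ω hωG
    have key : |1 - (y' ω).s * (y ω).s| ≤ 100 * ((ε + ε') / (1 / 2 ^ (l + 1))) := by
      rcases p4 with ⟨u3, -, -⟩ | ⟨-, -, p4, p5⟩
      · exact absurd u3 n3
      · exact ind_alg2 p1 p2 p4 p5 Iy.s_le Iy'.s_le hl0 p3
    rw [hκ] at key
    have hb1 := hb ω hωG
    have hl1 := hL ω hωG iN'
    have q1 := hφ ω hωG
    have q2 := hφ' ω hωG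
    have q3 : Fam.pt F ω = ptq F J ω := rfl
    rw [q3] at hl1
    beta_reduce
    rw [← q1, ← q2]
    have e1 : fn i₀ iu' iN' (y' ω).c (y' ω).s (F.d ω) -
        ((y' ω).s * b (ptq F J ω) + (1 - (y' ω).s * (y ω).s) * n (ptq F J ω) iN') -
        ((y' ω).c + (y' ω).s * (k (ptq F J ω) - (y ω).c) +
          (1 - (y' ω).s * (y ω).s) * e (ptq F J ω) iN') * F.d ω i₀ =
        (y' ω).s *
          (fn i₀ iN' iu' (y ω).c (y ω).s (F.d ω) - b (ptq F J ω) - k (ptq F J ω) * F.d ω i₀) +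
        (1 - (y' ω).s * (y ω).s) *
          (F.d ω iN' - e (ptq F J ω) iN' * F.d ω i₀ - n (ptq F J ω) iN') := by
      unfold fn
      ring
    rw [e1]
    refine (abs_add_le _ _).trans ?_
    rw [abs_mul, abs_mul]
    have t1 := mul_le_mul key hl1 (abs_nonneg _) (by positivity)
    have t2 := mul_le_mul Iy'.s_le hb1 (abs_nonneg _) (by norm_num)
    linarith

end Pool.S6C
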