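import Pool.Agent.H80.S6C.Cls

/-!
# The planks at exact points bound the planarity of the fans from below
-/

set_option autoImplicit false

namespace Pool.S6C

open Finset Real
open Pool.Agent.H49.Ent Pool.Agent.H32.Dense Pool.STK Pool.KA Pool.KSAT Pool.K2S Pool.PB Pool.KS6

/-- A value which is attained in the class is at most the number of the class. -/
theorem num_ge {m : ℕ} {S : PCl m} (hS : S.Ne) {q : ℝ → Stat m} {s g : ℝ} (hs : PNum S q s)
    (h : Clp S (q g)) : g ≤ s := by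
  by_contra hcon
  push Not at hcon
  have h1 := hs.2 (g - s) (by linarith)
  have e : s + (g - s) = g := by ring
  rw [e] at h1
  refine Clp.not_false hS (Clp.mono (J₂ := 0) (h1.and h) ?_)
  rintro J - F A ⟨h2, h3⟩
  exact h2 h3

/-- The exact points. -/
theorem ptq_one {J : ℕ} (F : Fam 3 J) : Pool.KS6.ptq F ⌊(1 : ℝ) * J⌋₊ = Fam.pt F := by
  rw [one_mul, Nat.floor_natCast]
  rfl

/-- The fans at the points at which a plank is visible are planar. -/
theorem plu_of_lab {J : ℕ} {F : Fam 3 J} {i₀ iu iN : Fin 3}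
    (hi : ∀ j : Fin 3, j = i₀ ∨ j = iu ∨ j = iN) {Qt w lam P : ℕ} {C : ℝ} {A : F.Ω → Prop}
    (h : LABq F Qt i₀ iu iN w lam P C A) {ρ : ℝ} (hρ : C * 2 ^ w / 2 ^ P ≤ ρ) (hρ0 : 0 ≤ ρ) :
    PlU 2 ρ (Pool.KS6.ptq F Qt) F.d A := by
  classical
  obtain ⟨y, h1, ⟨φ, h2⟩, -⟩ := h
  obtain ⟨n1, n2, n3⟩ := three hi
  refine ⟨fun u => ((φ u).db, ![fun i => if i = i₀ then 1 else if i = iN then -(φ u).c else 0,
    fun i => if i = iu then 1 else if i = iN then -(φ u).s else 0]), fun ω hω => ?_⟩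
  have hI := (h1 ω hω).vn
  have hy := h2 ω hω
  refine ⟨![F.d ω i₀ - (y ω).db i₀, F.d ω iu - (y ω).db iu], fun i => ?_⟩
  beta_reduce
  rw [← hy]
  simp only [Fin.sum_univ_two, Matrix.cons_val_zero, Matrix.cons_val_one]
  rcases hi i with h | h | h
  · subst h
    rw [if_pos rfl, if_neg (Ne.symm n1), if_neg (Ne.symm n2)]
    have : F.d ω i - (y ω).db i - ((F.d ω i - (y ω).db i) * 1 +
        (F.d ω iu - (y ω).db iu) * 0) = 0 := by ring
    rw [this, abs_zero]
    exact hρ0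
  · subst h
    rw [if_neg n1, if_neg (Ne.symm n3), if_pos rfl]
    have : F.d ω i - (y ω).db i - ((F.d ω i₀ - (y ω).db i₀) * 0 +
        (F.d ω i - (y ω).db i) * 1) = 0 := by ring
    rw [this, abs_zero]
    exact hρ0
  · subst h
    rw [if_neg n2, if_pos rfl, if_neg n3, if_pos rfl]
    refine le_trans (le_of_eq ?_) (hI.trans hρ)
    congr 1
    unfold fn
    ring

/-- **(b)** The planks for the windows `w` which are visible at exact points, of thickness `s`, show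
that the fans at exact points are planar to precision `s - w`. -/
theorem th_le_s2 {S : PCl 3} {i₀ : Fin 3} {s₂ : ℝ} {ρ : Row} (hS : S.Ne)
    (hR : Rw S i₀ 1 ρ) (h2 : PNum S (capS 1 qS2) s₂) (w : ℚ) (hw0 : 0 ≤ w) (hw1 : w ≤ 1) :
    ρ.th w - w ≤ s₂ := by
  refine le_of_forall_pos_le_add fun h hh => ?_
  have hw0' : (0 : ℝ) ≤ w := by exact_mod_cast hw0
  have key : ρ.th w - w - h ≤ s₂ := by
    refine num_ge hS h2 ?_
    by_cases hg : ρ.th w - w - h ≤ 0
    · exact Clp.of one_pos 0 fun _ _ _ _ _ => Or.inl hg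
    push Not at hg
    obtain ⟨J₂, hJ₂⟩ := exists_nat_gt (8 / h)
    refine Clp.mono (J₂ := J₂) ((hR.th w hw0 hw1).1 (h / 2) (by linarith)) ?_
    intro J hJ F A hA
    have hJ1 : 8 / h < J := hJ₂.trans_le (by exact_mod_cast hJ)
    have hJ8 : 8 < J * h := by rwa [div_lt_iff₀ hh] at hJ1
    have hJ0 : (0 : ℝ) ≤ J := Nat.cast_nonneg J
    rcases hA with hA | ⟨hA1, iu, iN, hi, hL⟩
    · linarith
    have hth1 : ρ.th w - h / 2 ≤ 1 := hA1
    refine Or.inr ⟨by linarith, ?_⟩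
    have hpl := plu_of_lab hi hL (ρ := 1 / 2 ^ ⌊(ρ.th w - w - h) * J⌋₊) ?_ (by positivity)
    · unfold qS2
      rwa [ptq_one F] at hpl
    obtain ⟨g, hg'⟩ : ∃ g, g = ⌊(ρ.th w - w - h) * J⌋₊ := ⟨_, rfl⟩
    obtain ⟨P, hP⟩ : ∃ P, P = ⌊(ρ.th w - h / 2) * J⌋₊ := ⟨_, rfl⟩
    obtain ⟨v, hv⟩ : ∃ v, v = ⌊(w : ℝ) * J⌋₊ := ⟨_, rfl⟩
    rw [← hg', ← hP, ← hv]
    have e1 : (g : ℝ) ≤ (ρ.th w - w - h) * J := by
      rw [hg']
      exact Nat.floor_le (by positivity)
    have e2 : (v : ℝ) ≤ w * J := by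
      rw [hv]
      exact Nat.floor_le (by positivity)
    have e3 : (ρ.th w - h / 2) * J < P + 1 := by
      rw [hP]
      exact Nat.lt_floor_add_one _
    have e4 : g + v + 1 ≤ P := by
      have : (g : ℝ) + v + 1 < P + 1 := by nlinarith
      have : g + v + 1 < P + 1 := by exact_mod_cast this
      omega
    obtain ⟨k, rfl⟩ := Nat.exists_eq_add_of_le e4
    rw [pow_add, pow_add, pow_add]
    have a1 : (0 : ℝ) < 2 ^ g := by positivity
    have a2 : (0 : ℝ) < 2 ^ v := by positivity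
    have a3 : (1 : ℝ) ≤ 2 ^ k := one_le_pow₀ (by norm_num)
    rw [div_le_div_iff₀ (by positivity) a1]
    nlinarith [mul_pos a1 a2]
  linarith

end Pool.S6C
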