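import Pool.Agent.H75.S6C.Nat3
import Pool.Agent.H10.S6U.Out

/-!
# The natural label and the static boxes
-/

set_option autoImplicit false

namespace Pool.S6C

open Finset Real
open Pool.Agent.H49.Ent Pool.Agent.H32.Dense Pool.STK Pool.KA Pool.KSAT Pool.K2S Pool.PB Pool.KS6
  Pool.S6U

variable {J : ℕ}

/-- An integer variable with few values. -/
theorem CH_int {Ω V : Type} [Fintype Ω] {p : Ω → ℝ} (hp : IsLaw p) (W : Ω → V) (X : Ω → ℤ)
    {M : ℝ} (h : ∀ ω ω', 0 < p ω → 0 < p ω' → W ω = W ω' → |((X ω - X ω' : ℤ) : ℝ)| ≤ M) :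
    CH p X W ≤ Real.log (2 * M + 1) := by
  have h1 := CH_le_vec (d := 1) hp.nonneg hp.sum_one (fun ω _ => X ω) W (fun _ => M)
    fun ω ω' a b c _ => h ω ω' a b c
  rw [Ex_const hp.sum_one] at h1
  have h2 : CH p X W ≤ CH p (fun ω (_ : Fin 1) => X ω) W :=
    CH_mono_left hp.nonneg fun ω ω' _ _ e => congrFun (Prod.ext_iff.mp e).1 0
  refine h2.trans (h1.trans (le_of_eq ?_))
  norm_num

/-- **The plank with the position cells of the window `y₀`**, given the natural label of the window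
`x`, has at most the entropy of the box of `y₀` given the box of `x`. -/
theorem ent_nat (F : Fam 3 J) {ς : Fin 3 → Fin 3} {x y₀ l P : ℕ} {M : ℝ} (hM : 0 ≤ M)
    {p : F.Ω → ℝ} (hp : IsLaw p) {Λ : Type} {κ : F.Ω → Λ}
    {pl : Λ → Pln} {al : F.Ω → ℝ} {y z : F.Ω → Pln}
    (hf : ∀ ω, 0 < p ω → (y ω).c = (pl (κ ω)).c ∧ (y ω).s = (pl (κ ω)).s)
    (hI : ∀ ω, 0 < p ω → Inc (ς 0) (ς 1) (ς 2) x l P 2 (y ω) (F.t ω) (F.x ω) (F.d ω))
    (hz : ∀ ω, z ω = zpl (ς 0) (ς 1) y₀ l P (y ω) (psc F (ς 0) (ς 1) (ς 2) y₀ l P (y ω) ω)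
      (F.t ω))
    (hal : ∀ ω, 0 < p ω → |al ω - (y ω).e| ≤ M / 2 ^ l) :
    CH p z (fun ω => ((κ ω, y ω), F.W ω)) ≤
      CH p (F.sbx ς y₀ (y₀ + l) P (ald l al) (fun ω => -(pl (κ ω)).s) (fun ω => -(pl (κ ω)).c))
        (fun ω => (F.sbx ς x (x + l) P (ald l al) (fun ω => -(pl (κ ω)).s)
          (fun ω => -(pl (κ ω)).c) ω, (Uni.dg l al ω, (κ ω, F.W ω)))) +
      7 * Real.log (8 * M + 19) := by
  have h0 := hp.nonneg
  have hl0 : (0 : ℝ) < 2 ^ l := by positivity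
  obtain ⟨T', hT'⟩ : ∃ T' : F.Ω → (Λ × Pln) × (ℕ × F.ζ), T' = fun ω => ((κ ω, y ω), F.W ω) :=
    ⟨_, rfl⟩
  obtain ⟨s, hs⟩ : ∃ s : F.Ω → ℝ, s = fun ω => -(pl (κ ω)).s := ⟨_, rfl⟩
  obtain ⟨t, ht⟩ : ∃ t : F.Ω → ℝ, t = fun ω => -(pl (κ ω)).c := ⟨_, rfl⟩
  obtain ⟨a, ha⟩ : ∃ a : F.Ω → ℝ, a = ald l al := ⟨_, rfl⟩
  rw [← hT', ← hs, ← ht, ← ha]
  have hdet : ∀ ω ω', T' ω = T' ω' → κ ω = κ ω' ∧ y ω = y ω' ∧ F.W ω = F.W ω' ∧
      F.t ω = F.t ω' := by
    intro ω ω' h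
    rw [hT'] at h
    have h1 := Prod.ext_iff.mp h
    have h2 := Prod.ext_iff.mp h1.1
    have h3 : F.W ω = F.W ω' := h1.2
    have h4 : F.T ω = F.T ω' := (Prod.ext_iff.mp h3).1
    exact ⟨h2.1, h2.2, h3, by unfold Fam.t; rw [h4]⟩
  have haa : ∀ ω, a ω = (Uni.dg l al ω : ℝ) / 2 ^ l := fun ω => by rw [ha]; rfl
  have hae : ∀ ω, 0 < p ω → |a ω - (y ω).e| ≤ (M + 1) / 2 ^ l := by
    intro ω hω
    have h1 := floor_near l (al ω)
    have h2 := hal ω hω
    have h3 : a ω = (⌊(2 : ℝ) ^ l * al ω⌋ : ℝ) / 2 ^ l := by rw [haa]; rfl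
    rw [← h3] at h1
    have h4 : (M + 1) / (2 : ℝ) ^ l = M / 2 ^ l + 1 / 2 ^ l := by ring
    rw [h4]
    rw [abs_le] at h1 h2 ⊢
    constructor <;> linarith [h1.1, h1.2, h2.1, h2.2]
  have hco : ∀ ω ω', a ω = a ω' → s ω = s ω' → t ω = t ω' → ∀ i,
      mco (tfr ς (a ω) (s ω) (t ω)) (F.x ω') i = Vd.co F ς a s t i ω' := by
    intro ω ω' h1 h2 h3 i
    unfold Vd.co
    rw [h1, h2, h3]
  -- (4) the digits of the slope
  have k4 : CH p (Uni.dg l al) T' ≤ Real.log (8 * M + 19) := by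
    have h1 := CH_int hp T' (Uni.dg l al) (M := 2 * M + 1) (by
      intro ω ω' hω hω' e
      have hy := (hdet ω ω' e).2.1
      refine floor_diff (M := 2 * M) ?_
      have a1 := hal ω hω
      have a2 := hal ω' hω'
      rw [← hy] at a2
      have a3 : |al ω - al ω'| ≤ 2 * M / 2 ^ l := by
        have e1 : 2 * M / (2 : ℝ) ^ l = M / 2 ^ l + M / 2 ^ l := by ring
        rw [e1]
        rw [abs_le] at a1 a2 ⊢
        constructor <;> linarith [a1.1, a1.2, a2.1, a2.2]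
      rw [← mul_sub, abs_mul, abs_of_pos hl0]
      rw [le_div_iff₀ hl0] at a3
      linarith)
    exact h1.trans (Real.log_le_log (by linarith) (by linarith))
  -- (5) the box of the window `x`
  have k5 : CH p (F.sbx ς x (x + l) P a s t) (fun ω => (Uni.dg l al ω, T' ω)) ≤
      3 * Real.log (8 * M + 19) := by
    have h1 := Box.CH_sbx (F := F) (σ := ς) (a := a) (s := s) (t := t) (r := x) (U := x + l)
      (P := P) (C := 4 * M + 8) hp (fun ω => (Uni.dg l al ω, T' ω)) (by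
      intro ω ω' hω hω' e
      obtain ⟨e1, e2⟩ := Prod.ext_iff.mp e
      obtain ⟨b1, b2, -, b4⟩ := hdet ω ω' e2
      have c1 : a ω = a ω' := by
        rw [haa, haa]
        have : Uni.dg l al ω = Uni.dg l al ω' := e1
        rw [this]
      have c2 : s ω = s ω' := by rw [hs]; beta_reduce; rw [b1]
      have c3 : t ω = t ω' := by rw [ht]; beta_reduce; rw [b1]
      refine ⟨⟨c1, c2, c3⟩, ?_⟩
      have I1 := hI ω hω
      have I2 := hI ω' hω'
      rw [← b2, ← b4] at I2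
      have d0 : |F.x ω (ς 0) - F.x ω' (ς 0)| ≤ 4 / 2 ^ x := by
        have a1 := I1.pe
        have a2 := I2.pe
        have e1 : (4 : ℝ) / 2 ^ x = 2 / 2 ^ x + 2 / 2 ^ x := by ring
        rw [e1]
        rw [abs_le] at a1 a2 ⊢
        constructor <;> linarith [a1.1, a1.2, a2.1, a2.2]
      intro i
      fin_cases i
      · change |mco (tfr ς (a ω) (s ω) (t ω)) (F.x ω) 0 -
          mco (tfr ς (a ω) (s ω) (t ω)) (F.x ω') 0| ≤ (4 * M + 8) / 2 ^ x
        rw [Box.mco_tfr0, Box.mco_tfr0]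
        refine d0.trans ?_
        exact div_le_div_of_nonneg_right (by linarith) (by positivity)
      · change |mco (tfr ς (a ω) (s ω) (t ω)) (F.x ω) 1 -
          mco (tfr ς (a ω) (s ω) (t ω)) (F.x ω') 1| ≤ (4 * M + 8) / 2 ^ (x + l)
        rw [Box.mco_tfr1, Box.mco_tfr1]
        have e3 : F.x ω (ς 1) - a ω * F.x ω (ς 0) - (F.x ω' (ς 1) - a ω * F.x ω' (ς 0)) =
            ((fu (ς 0) (ς 1) (y ω).e (F.x ω) - fu (ς 0) (ς 1) (y ω).e
              (fun i => (y ω).xb i + F.t ω * (y ω).db i)) -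
            (fu (ς 0) (ς 1) (y ω).e (F.x ω') - fu (ς 0) (ς 1) (y ω).e
              (fun i => (y ω).xb i + F.t ω * (y ω).db i))) -
            (a ω - (y ω).e) * (F.x ω (ς 0) - F.x ω' (ς 0)) := by unfold fu; ring
        rw [e3]
        refine (abs_sub _ _).trans ?_
        rw [abs_mul]
        have f1 := mul_le_mul (hae ω hω) d0 (abs_nonneg _) (by positivity)
        have f2 := (abs_sub (fu (ς 0) (ς 1) (y ω).e (F.x ω) - fu (ς 0) (ς 1) (y ω).e
              (fun i => (y ω).xb i + F.t ω * (y ω).db i))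
            (fu (ς 0) (ς 1) (y ω).e (F.x ω') - fu (ς 0) (ς 1) (y ω).e
              (fun i => (y ω).xb i + F.t ω * (y ω).db i))).trans (add_le_add I1.pu I2.pu)
        have e4 : (4 * M + 8) / (2 : ℝ) ^ (x + l) = (2 / 2 ^ (x + l) + 2 / 2 ^ (x + l)) +
            (M + 1) / 2 ^ l * (4 / 2 ^ x) := by
          rw [pow_add]
          field_simp
          ring
        rw [e4]
        exact add_le_add f2 f1
      · change |mco (tfr ς (a ω) (s ω) (t ω)) (F.x ω) 2 -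
          mco (tfr ς (a ω) (s ω) (t ω)) (F.x ω') 2| ≤ (4 * M + 8) / 2 ^ P
        rw [Box.mco_tfr2, Box.mco_tfr2]
        have hc : t ω = -(y ω).c := by rw [ht, (hf ω hω).1]
        have hs' : s ω = -(y ω).s := by rw [hs, (hf ω hω).2]
        have e3 : F.x ω (ς 2) - s ω * F.x ω (ς 1) - t ω * F.x ω (ς 0) -
            (F.x ω' (ς 2) - s ω * F.x ω' (ς 1) - t ω * F.x ω' (ς 0)) =
            (fn (ς 0) (ς 1) (ς 2) (y ω).c (y ω).s (F.x ω) - fn (ς 0) (ς 1) (ς 2) (y ω).c (y ω).s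
              (fun i => (y ω).xb i + F.t ω * (y ω).db i)) -
            (fn (ς 0) (ς 1) (ς 2) (y ω).c (y ω).s (F.x ω') - fn (ς 0) (ς 1) (ς 2) (y ω).c (y ω).s
              (fun i => (y ω).xb i + F.t ω * (y ω).db i)) := by
          rw [hc, hs']; unfold fn; ring
        rw [e3]
        refine (abs_sub _ _).trans ((add_le_add I1.pn I2.pn).trans ?_)
        have e4 : (2 : ℝ) / 2 ^ P + 2 / 2 ^ P = 4 / 2 ^ P := by ring
        rw [e4]
        exact div_le_div_of_nonneg_right (by linarith) (by positivity))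
    refine h1.trans ?_
    push_cast
    have : Real.log (2 * (4 * M + 8) + 3) = Real.log (8 * M + 19) := by
      congr 1
      ring
    rw [this]
  -- (6) the cells in the frame of the label
  have k6 : CH p z (fun ω => (F.sbx ς y₀ (y₀ + l) P a s t ω, T' ω)) ≤
      3 * Real.log (8 * M + 19) := by
    have h1 : CH p z (fun ω => (F.sbx ς y₀ (y₀ + l) P a s t ω, T' ω)) ≤
        CH p (fun ω => psc F (ς 0) (ς 1) (ς 2) y₀ l P (y ω) ω)
          (fun ω => (F.sbx ς y₀ (y₀ + l) P a s t ω, T' ω)) := by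
      refine CH_mono_left h0 ?_
      intro ω ω' _ _ e
      obtain ⟨e1, e2⟩ := Prod.ext_iff.mp e
      obtain ⟨b1, b2, -, b4⟩ := hdet ω ω' (Prod.ext_iff.mp e2).2
      rw [hz, hz, ← b2, ← b4]
      have e1' : psc F (ς 0) (ς 1) (ς 2) y₀ l P (y ω) ω =
        psc F (ς 0) (ς 1) (ς 2) y₀ l P (y ω') ω' := e1
      rw [e1', b2]
    refine h1.trans ?_
    have h2 := CH_le_vec hp.nonneg hp.sum_one
      (fun ω => psc F (ς 0) (ς 1) (ς 2) y₀ l P (y ω) ω)
      (fun ω => (F.sbx ς y₀ (y₀ + l) P a s t ω, T' ω)) (fun _ => M + 3) (by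
      intro ω ω' hω hω' e k
      obtain ⟨e1, e2⟩ := Prod.ext_iff.mp e
      obtain ⟨b1, b2, -, b4⟩ := hdet ω ω' e2
      obtain ⟨⟨c1, c2, c3⟩, g0, g1, g2⟩ := (Vd.sbx_ext).1 e1
      have g0' := Box.near_of_floor g0
      have g1' := Box.near_of_floor g1
      have g2' := Box.near_of_floor g2
      rw [← hco ω ω' c1 c2 c3] at g0' g1' g2'
      have m0 : Vd.co F ς a s t 0 ω = F.x ω (ς 0) := Box.mco_tfr0 _ _ _ _ _
      have m1 : Vd.co F ς a s t 1 ω = F.x ω (ς 1) - a ω * F.x ω (ς 0) := Box.mco_tfr1 _ _ _ _ _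
      have m2 : Vd.co F ς a s t 2 ω = F.x ω (ς 2) - s ω * F.x ω (ς 1) - t ω * F.x ω (ς 0) :=
        Box.mco_tfr2 _ _ _ _ _
      rw [m0, Box.mco_tfr0] at g0'
      rw [m1, Box.mco_tfr1] at g1'
      rw [m2, Box.mco_tfr2] at g2'
      beta_reduce
      rw [← b2]
      have sc : ∀ (n : ℕ) (u v N : ℝ), |u - v| ≤ N / 2 ^ n →
          |(2 : ℝ) ^ n * u - 2 ^ n * v| ≤ N := by
        intro n u v N h
        have hp : (0 : ℝ) < 2 ^ n := by positivity
        rw [← mul_sub, abs_mul, abs_of_pos hp]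
        rw [le_div_iff₀ hp] at h
        linarith
      fin_cases k
      · exact (floor_diff (M := 1) (sc _ _ _ _ g0')).trans (by linarith)
      · refine (floor_diff (M := M + 2) (sc _ _ _ _ ?_)).trans (by linarith)
        have e3 : fu (ς 0) (ς 1) (y ω).e (F.x ω) - fu (ς 0) (ς 1) (y ω).e (F.x ω') =
            (F.x ω (ς 1) - a ω * F.x ω (ς 0) - (F.x ω' (ς 1) - a ω * F.x ω' (ς 0))) +
            (a ω - (y ω).e) * (F.x ω (ς 0) - F.x ω' (ς 0)) := by unfold fu; ring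
        rw [e3]
        refine (abs_add_le _ _).trans ?_
        rw [abs_mul]
        have f1 := mul_le_mul (hae ω hω) g0' (abs_nonneg _) (by positivity)
        have e4 : (M + 2) / (2 : ℝ) ^ (y₀ + l) = 1 / 2 ^ (y₀ + l) +
            (M + 1) / 2 ^ l * (1 / 2 ^ y₀) := by
          rw [pow_add]
          field_simp
          ring
        rw [e4]
        exact add_le_add g1' f1
      · refine (floor_diff (M := 1) (sc _ _ _ _ ?_)).trans (by linarith)
        have hc : t ω = -(y ω).c := by rw [ht, (hf ω hω).1]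
        have hs' : s ω = -(y ω).s := by rw [hs, (hf ω hω).2]
        have e3 : fn (ς 0) (ς 1) (ς 2) (y ω).c (y ω).s (F.x ω) -
            fn (ς 0) (ς 1) (ς 2) (y ω).c (y ω).s (F.x ω') =
            F.x ω (ς 2) - s ω * F.x ω (ς 1) - t ω * F.x ω (ς 0) -
            (F.x ω' (ς 2) - s ω * F.x ω' (ς 1) - t ω * F.x ω' (ς 0)) := by
          rw [hc, hs']; unfold fn; ring
        rw [e3]
        exact g2')
    refine h2.trans ?_
    rw [Ex_const hp.sum_one]
    have h3 : Real.log (2 * (M + 3) + 1) ≤ Real.log (8 * M + 19) :=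
      Real.log_le_log (by linarith) (by linarith)
    push_cast
    linarith
  -- the chain
  have k1 := CH_le_add h0 z (F.sbx ς y₀ (y₀ + l) P a s t) T'
  have k2 := CH_le_add h0 (F.sbx ς y₀ (y₀ + l) P a s t)
    (fun ω => (F.sbx ς x (x + l) P a s t ω, Uni.dg l al ω)) T'
  have k3 := CH_chain h0 (F.sbx ς x (x + l) P a s t) (Uni.dg l al) T'
  have k7 : CH p (F.sbx ς y₀ (y₀ + l) P a s t)
      (fun ω => ((F.sbx ς x (x + l) P a s t ω, Uni.dg l al ω), T' ω)) ≤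
      CH p (F.sbx ς y₀ (y₀ + l) P a s t)
        (fun ω => (F.sbx ς x (x + l) P a s t ω, (Uni.dg l al ω, (κ ω, F.W ω)))) := by
    refine CH_mono_cond h0 ?_
    intro ω ω' _ _ e
    obtain ⟨e1, e2⟩ := Prod.ext_iff.mp e
    obtain ⟨e3, e4⟩ := Prod.ext_iff.mp e1
    obtain ⟨b1, -, b3, -⟩ := hdet ω ω' e2
    exact Prod.ext e3 (Prod.ext e4 (Prod.ext b1 b3))
  linarith

end Pool.S6C
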