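import Pool.Agent.H75.S6C.XF
import Pool.Agent.H2.UST.Fr

/-!
# The frames of the U-step from the class
-/

set_option autoImplicit false

namespace Pool.S6C

open Finset Real
open Pool.Agent.H49.Ent Pool.Agent.H32.Dense Pool.STK Pool.KA Pool.KSAT Pool.K2S Pool.PB Pool.KS6
  Pool.UST

/-- Fewer windows. -/
theorem ufr_win {J : ℕ} {F : Fam 3 J} {A : F.Ω → Prop} {σ : Fin 3 → Fin 3} {wl wa wb wa' wb' : ℕ}
    {vp : ℕ → ℕ} {kap Hu HN : ℕ} {al nu k b : (Fin 3 → ℤ) × (ℕ × F.ζ) → ℝ} {a : ℕ → F.Ω → ℝ}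
    {s t : F.Ω → ℝ} {B C : ℝ} (h : UFr F A σ wl wa wb vp kap Hu HN al nu k b a s t B C)
    (ha : wa ≤ wa') (hb : wb' ≤ wb) : UFr F A σ wl wa' wb' vp kap Hu HN al nu k b a s t B C :=
  ⟨h.bij, h.B1, h.C1, h.lw.trans ha, hb.trans h.wJ,
    fun w w' h1 h2 h3 => h.mono w w' (ha.trans h1) h2 (h3.trans hb), h.on1, h.on2, h.bal, h.bd,
    fun w h1 h2 => h.near w (ha.trans h1) (h2.trans hb),
    fun w h1 h2 => h.int w (ha.trans h1) (h2.trans hb), h.kle,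
    fun w h1 h2 => h.slm w (ha.trans h1) (h2.trans hb), h.slp, h.pts⟩

/-- The index of the mesh window below `w`. -/
noncomputable def mix (u : ℕ → ℚ) (N J w : ℕ) : ℕ :=
  Nat.findGreatest (fun i => ⌊(u i : ℝ) * J⌋₊ ≤ w) N

theorem mix_le (u : ℕ → ℚ) (N J w : ℕ) : mix u N J w ≤ N := Nat.findGreatest_le N

theorem mix_spec (u : ℕ → ℚ) (N J w : ℕ) (h : ⌊(u 0 : ℝ) * J⌋₊ ≤ w) :
    ⌊(u (mix u N J w) : ℝ) * J⌋₊ ≤ w :=
  Nat.findGreatest_spec (P := fun i => ⌊(u i : ℝ) * J⌋₊ ≤ w) (Nat.zero_le N) h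

theorem mix_max (u : ℕ → ℚ) (N J w j : ℕ) (hj : j ≤ N) (h : ⌊(u j : ℝ) * J⌋₊ ≤ w) :
    j ≤ mix u N J w := Nat.le_findGreatest hj h

theorem mix_mono (u : ℕ → ℚ) (N J : ℕ) {w w' : ℕ} (h : w ≤ w') :
    mix u N J w ≤ mix u N J w' :=
  Nat.findGreatest_mono_left (fun _ h1 => le_trans h1 h) N

theorem mono_chain {u : ℕ → ℚ} {N : ℕ} (hu : ∀ i < N, u i ≤ u (i + 1)) {i j : ℕ} (hij : i ≤ j)
    (hj : j ≤ N) : u i ≤ u j := by
  induction j with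
  | zero =>
    have : i = 0 := by omega
    rw [this]
  | succ j ih =>
    rcases Nat.lt_or_ge i (j + 1) with h | h
    · exact (ih (by omega) (by omega)).trans (hu j (by omega))
    · have : i = j + 1 := by omega
      rw [this]

/-- **The frames of the U-step.** -/
theorem ufr_clp {S : PCl 3} {a₁ R h₁ : ℝ} {i₀ : Fin 3} {c s₂ : ℝ} {r : ℝ → ℝ} {D : Set ℝ}
    {σ : ℝ → Row} (hC : Cs S a₁ R h₁ i₀ c s₂ r D σ) (v₁ : ℚ) (hv1 : v₁ ≤ 1)
    (turn : (σ 1).rot v₁ < (σ 1).pi) {wl v t : ℚ} (hw0 : 0 ≤ wl) (hw : wl ≤ v₁) (hv0 : 0 ≤ v)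
    (hv : v ≤ v₁) (ht0 : 0 ≤ t) (ht1 : t ≤ 1) {T g' C pe κ e : ℝ} (hg0 : 0 ≤ g')
    (h1 : g' < (σ 1).sN v t) (h2 : g' < t - v + ((σ 1).pi - (σ 1).rot v₁))
    (h3 : g' < T - wl + ((σ 1).pi - (σ 1).rot v₁)) (hC1 : 1 ≤ C) (hpe : pe < (σ 1).pi)
    (hκ0 : 0 ≤ κ) (hκ1 : κ < T - wl) (hκ2 : κ < g') (he : 0 < e) (N : ℕ) (u : ℕ → ℚ)
    (hu0 : wl ≤ u 0) (hu : ∀ i < N, u i ≤ u (i + 1)) (hu1 : u N ≤ 1) :
    Clp S (fun J F A => ∀ G : F.Ω → Prop, Sub G A → Pe F.p A ≤ C * Pe F.p G →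
      ∀ sg : Fin 3 → Fin 3, Function.Bijective sg → sg 0 = i₀ → ∀ (lam : ℕ) (y : F.Ω → Pln),
      (∀ ω, G ω → Inc i₀ (sg 1) (sg 2) ⌊(wl : ℝ) * J⌋₊ lam ⌊T * J⌋₊ 2 (y ω) (F.t ω) (F.x ω)
        (F.d ω)) →
      (∃ φ : (Fin 3 → ℤ) × (ℕ × F.ζ) → Pln, ∀ ω, G ω → y ω = φ (ptq F J ω)) →
      (∃ ψ : ((Fin 3 → ℝ) × (Fin 3 → ℝ)) × F.ζ × ℕ → Pln, ∀ ω, G ω →
        y ω = ψ (slam F ⌊(wl : ℝ) * J⌋₊ ω)) →
      ∃ B : F.Ω → Prop, Sub B G ∧ Pe F.p G ≤ 8 * Pe F.p B ∧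
        ∃ (vp : ℕ → ℕ) (al nu k b : (Fin 3 → ℤ) × (ℕ × F.ζ) → ℝ) (a : ℕ → F.Ω → ℝ)
          (s t : F.Ω → ℝ), (∀ ω, B ω → s ω = -(y ω).s ∧ t ω = -(y ω).c) ∧
          UFr F B sg ⌊(wl : ℝ) * J⌋₊ ⌊(u 0 : ℝ) * J⌋₊ ⌊(u N : ℝ) * J⌋₊ vp ⌊κ * J⌋₊ ⌊pe * J⌋₊
            ⌊g' * J⌋₊ al nu k b a s t 4 1 ∧
          ∀ w, vp w = ⌊((σ 1).rot (u (mix u N J w)) - e) * J⌋₊) := by
  classical
  have hR1 := hC.row 1 one_pos le_rfl hC.D1
  have hv10 : (0 : ℚ) ≤ v₁ := hw0.trans hw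
  have hpi : 0 < (σ 1).pi := (num_nonneg hC.ne (hR1.rot v₁ hv10 hv1)).trans_lt turn
  have hui0 : ∀ i ≤ N, 0 ≤ u i := fun i hi =>
    (hw0.trans hu0).trans (mono_chain hu (Nat.zero_le i) hi)
  have hui1 : ∀ i ≤ N, u i ≤ 1 := fun i hi => (mono_chain hu hi le_rfl).trans hu1
  have hrp : ∀ i ≤ N, (σ 1).rot (u i) ≤ (σ 1).pi := fun i hi => by
    refine num_mono hC.ne (hR1.rot (u i) (hui0 i hi) (hui1 i hi)) hR1.pi ?_
    rintro s J F A (h | ⟨h, e', n', ζ, h4, -⟩)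
    · exact Or.inl h
    · exact Or.inr ⟨h, e', n', h4⟩
  obtain ⟨η, hη⟩ : ∃ η, η = min (min (min (σ 1).pi ((σ 1).pi - pe)) e)
    (min (T - wl - κ) (g' - κ)) := ⟨_, rfl⟩
  have hη0 : 0 < η := by
    rw [hη]
    exact lt_min (lt_min (lt_min hpi (by linarith)) he) (lt_min (by linarith) (by linarith))
  have η1 : η ≤ (σ 1).pi := by
    rw [hη]; exact ((min_le_left _ _).trans (min_le_left _ _)).trans (min_le_left _ _)
  have η2 : η ≤ (σ 1).pi - pe := by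
    rw [hη]; exact ((min_le_left _ _).trans (min_le_left _ _)).trans (min_le_right _ _)
  have η3 : η ≤ e := by
    rw [hη]; exact (min_le_left _ _).trans (min_le_right _ _)
  have η5 : η ≤ T - wl - κ := by rw [hη]; exact (min_le_right _ _).trans (min_le_left _ _)
  have η6 : η ≤ g' - κ := by rw [hη]; exact (min_le_right _ _).trans (min_le_right _ _)
  obtain ⟨x, hx⟩ : ∃ x, x = min (η / 8) (min h₁ 1 / 4) := ⟨_, rfl⟩
  have hx0 : 0 < x := by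
    rw [hx]
    have := lt_min hC.h₁0 one_pos
    exact lt_min (by linarith only [hη0]) (by linarith)
  have hxη : x ≤ η / 8 := by rw [hx]; exact min_le_left _ _
  have hx1 : x ≤ h₁ / 4 := by
    rw [hx]
    refine (min_le_right _ _).trans ?_
    have := min_le_left h₁ 1
    linarith only [this]
  have hx2 : x ≤ 1 / 4 := by
    rw [hx]
    refine (min_le_right _ _).trans ?_
    have := min_le_right h₁ 1
    linarith only [this]
  obtain ⟨τ, hτ, J₁, hsp⟩ := spread_part hC.a1 hC.R0 hC.ub hC.st hC.lb hx0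
  obtain ⟨J₃, hJ₃⟩ := exists_nat_gt (64 / η + 64 / h₁ + 16)
  have c1 := nst hC v₁ hv1 turn hw0 hw hv0 hv ht0 ht1 hg0 h1 h2 h3 hC1
  have c2 := sub_base (S := S) hτ (by linarith only [hC1, hx0, hx2] : (1 : ℝ) ≤ 4 * C)
  have c3 := hR1.pi.1 (η / 8) (by linarith only [hx0, hxη])
  have c4 : Clp S (fun J F A => ∀ i < N + 1, capS 1 (qRot i₀ 1 (u i)) ((σ 1).rot (u i) - η / 8)
      J F A) :=
    Clp.all (N + 1) fun i hi => (hR1.rot (u i) (hui0 i (by omega)) (hui1 i (by omega))).1 (η / 8)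
      (by linarith only [hx0, hxη])
  refine Clp.mono (J₂ := max J₁ J₃) (((c1.and c2).and c3).and c4) ?_
  rintro J hJ F A ⟨⟨⟨d1, d2⟩, d3⟩, d4⟩ G hG hPG sg hsg hsg0 lam y hI ⟨φ, hφ⟩ ⟨ψ, hψ⟩
  have hi : ∀ j : Fin 3, j = i₀ ∨ j = sg 1 ∨ j = sg 2 := by
    intro j
    obtain ⟨k, hk⟩ := hsg.2 j
    rw [← hk, ← hsg0]
    fin_cases k
    · exact Or.inl rfl
    · exact Or.inr (Or.inl rfl)
    · exact Or.inr (Or.inr rfl)
  have hJ1 : J₁ ≤ J := (le_max_left _ _).trans hJ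
  have hJr : 64 / η + 64 / h₁ + 16 < J :=
    hJ₃.trans_le (by exact_mod_cast (le_max_right _ _).trans hJ)
  have q1 : 0 < 64 / η := by positivity
  have q2 : 0 < 64 / h₁ := div_pos (by norm_num) hC.h₁0
  have hJη : 64 < J * η := by
    have : 64 / η < J := by linarith only [hx0, hx2, hJr, q2]
    rwa [div_lt_iff₀ hη0] at this
  have hJh₁ : 64 < J * h₁ := by
    have : 64 / h₁ < J := by linarith only [hx0, hx2, hJr, q1]
    rwa [div_lt_iff₀ hC.h₁0] at this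
  have hJ0 : (0 : ℝ) ≤ J := Nat.cast_nonneg J
  have hJ16 : (16 : ℝ) < J := by linarith only [hJr, q1, q2]
  rcases d3 with d3 | ⟨-, ef, n, hL⟩
  · linarith only [η1, hx0, hxη, d3]
  rw [ptq_one F] at hL
  obtain ⟨B₀, hB₀, hPB₀, b, k, hb⟩ := d1 G hG hPG (sg 1) (sg 2) hi y
    (fun ω hω => inc_triv (by norm_num) (hI ω hω)) ⟨φ, hφ⟩ ⟨ψ, hψ⟩
  have hSB : S.St τ J F B₀ := d2 B₀ (hB₀.trans hG) (by
    have := mul_le_mul_of_nonneg_left hPB₀ (by linarith only [hC1, hx0, hx2] : (0 : ℝ) ≤ C)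
    linarith only [hPG, this])
  obtain ⟨q, hq⟩ : ∃ q, q = ⌈x * J⌉₊ := ⟨_, rfl⟩
  have hq1 : x * J ≤ q := by rw [hq]; exact Nat.le_ceil _
  have hq2 : (q : ℝ) < x * J + 1 := by rw [hq]; exact Nat.ceil_lt_add_one (by positivity)
  have hxJ : x * J ≤ η / 8 * J := mul_le_mul_of_nonneg_right hxη hJ0
  have hqJ : q ≤ J := by
    have e1 : x * J ≤ 1 / 4 * J := mul_le_mul_of_nonneg_right hx2 hJ0
    have : (q : ℝ) ≤ J := by linarith only [hx0, hx2, hJr, q1, q2, hq2, e1]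
    exact_mod_cast this
  have hqh : q + 4 ≤ ⌊h₁ * J⌋₊ := by
    refine Nat.le_floor ?_
    push_cast
    have e1 : x * J ≤ h₁ / 4 * J := mul_le_mul_of_nonneg_right hx1 hJ0
    linarith only [hx0, hx2, hJh₁, hq2, e1]
  obtain ⟨B, hB, hPB, hpr⟩ := hsp J hJ1 F B₀ hSB q hqJ hq1 (by omega)
  have e2 : Real.exp (-Real.log 2) = 1 / 2 := by
    rw [Real.exp_neg, Real.exp_log (by norm_num)]
    norm_num
  rw [e2] at hPB
  obtain ⟨eb, nb, hfr⟩ := hC.lb _ _ _ _ hSB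
  obtain ⟨lp, hlp⟩ : ∃ lp, lp = ⌊((σ 1).pi - η / 8) * J⌋₊ := ⟨_, rfl⟩
  obtain ⟨w₀, hw₀⟩ : ∃ w₀, w₀ = ⌊(wl : ℝ) * J⌋₊ := ⟨_, rfl⟩
  obtain ⟨P, hP⟩ : ∃ P, P = ⌊T * J⌋₊ := ⟨_, rfl⟩
  obtain ⟨γ, hγ⟩ : ∃ γ, γ = ⌊g' * J⌋₊ := ⟨_, rfl⟩
  obtain ⟨K, hK⟩ : ∃ K, K = ⌊κ * J⌋₊ := ⟨_, rfl⟩
  rw [← hlp] at hL
  rw [← hw₀, ← hP] at hI
  rw [← hγ] at hb
  have hw0r : (0 : ℝ) ≤ wl := by exact_mod_cast hw0
  have f2 : ((σ 1).pi - η / 8) * J < lp + 1 := by rw [hlp]; exact Nat.lt_floor_add_one _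
  have f3 : (w₀ : ℝ) ≤ wl * J := by rw [hw₀]; exact Nat.floor_le (by positivity)
  have f5 : T * J < P + 1 := by rw [hP]; exact Nat.lt_floor_add_one _
  have f7 : g' * J < γ + 1 := by rw [hγ]; exact Nat.lt_floor_add_one _
  have f8 : (K : ℝ) ≤ κ * J := by rw [hK]; exact Nat.floor_le (by positivity)
  have m1 : η * J ≤ (σ 1).pi * J := mul_le_mul_of_nonneg_right η1 hJ0
  have m3 : η * J ≤ e * J := mul_le_mul_of_nonneg_right η3 hJ0
  have m5 : η * J ≤ (T - wl - κ) * J := mul_le_mul_of_nonneg_right η5 hJ0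
  have m6 : η * J ≤ (g' - κ) * J := mul_le_mul_of_nonneg_right η6 hJ0
  have n1 : q + 4 ≤ lp := by
    have : ((q + 4 : ℕ) : ℝ) < ((lp + 1 : ℕ) : ℝ) := by
      push_cast
      nlinarith only [hx0, hx2, hJη, hq2, hxJ, f2, m1]
    have : q + 4 < lp + 1 := by exact_mod_cast this
    omega
  have n5 : K + q + w₀ + 5 ≤ P := by
    have : ((K + q + w₀ + 5 : ℕ) : ℝ) < ((P + 1 : ℕ) : ℝ) := by
      push_cast
      nlinarith only [hx0, hx2, hJη, hq2, hxJ, f3, f5, f8, m5]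
    have : K + q + w₀ + 5 < P + 1 := by exact_mod_cast this
    omega
  have n6 : K + q + 5 ≤ γ := by
    have : ((K + q + 5 : ℕ) : ℝ) < ((γ + 1 : ℕ) : ℝ) := by
      push_cast
      nlinarith only [hx0, hx2, hJη, hq2, hxJ, f7, f8, m6]
    have : K + q + 5 < γ + 1 := by exact_mod_cast this
    omega
  have hlpe : ⌊pe * J⌋₊ ≤ lp := by
    rw [hlp]
    exact Nat.floor_le_floor (mul_le_mul_of_nonneg_right (by linarith only [η2, hx0, hxη]) hJ0)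
  -- the slopes
  have hal : ∀ ω, B ω → |ef (Fam.pt F ω) (sg 1)| ≤ 2 := by
    intro ω hω
    obtain ⟨ω', ω'', b1, b2, b3, b4, b5⟩ := hpr ω hω
    have a1 := hfr.line ω' (hB _ b1) (sg 1)
    have a2 := hfr.line ω'' (hB _ b2) (sg 1)
    have a3 := hL _ (hG _ (hB₀ _ (hB _ b1))) (sg 1)
    have a4 := hL _ (hG _ (hB₀ _ (hB _ b2))) (sg 1)
    rw [b3] at a1 a3
    rw [b4] at a2 a4
    have hcl := frame_close (U := ℕ) (d := F.d) a1 a2 a3 a4 (by positivity) b5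
    have hbb := hfr.bound ω (hB _ hω) (sg 1)
    have k1 : (1 : ℝ) / 2 ^ lp ≤ 1 / 2 ^ (q + 4) := inv_mono n1
    have k2 : (1 : ℝ) / 2 ^ ⌊h₁ * J⌋₊ ≤ 1 / 2 ^ (q + 4) := inv_mono hqh
    have t1 : (2 * (1 / 2 ^ ⌊h₁ * J⌋₊) + 2 * (1 / 2 ^ lp)) / (1 / 2 ^ (q + 1)) ≤ (1 : ℝ) := by
      rw [div_le_iff₀ (by positivity)]
      have : (1 : ℝ) / 2 ^ (q + 4) = 1 / 2 ^ (q + 1) / 8 := by
        rw [show q + 4 = q + 1 + 3 by ring, pow_add 2 (q + 1) 3]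
        field_simp
        norm_num
      have h0 : (0 : ℝ) < 1 / 2 ^ (q + 1) := by positivity
      rw [this] at k1 k2
      linarith only [k1, k2, h0]
    have := abs_sub_abs_le_abs_sub (ef (Fam.pt F ω) (sg 1)) (eb (Fam.pt F ω) (sg 1))
    linarith only [hcl, hbb, t1, this]
  -- the slopes on the windows of the mesh
  exact by
   obtain ⟨lv, hlv⟩ : ∃ lv : ℕ → ℕ, lv = fun i => ⌊((σ 1).rot (u i) - e) * J⌋₊ := ⟨_, rfl⟩
   have key : ∀ i, i ≤ N → ∃ ζ : ((Fin 3 → ℝ) × (Fin 3 → ℝ)) × F.ζ × ℕ → ℝ, ∀ ω, B ω →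
       |ef (Fam.pt F ω) (sg 1) - ζ (slam F ⌊(u i : ℝ) * J⌋₊ ω)| ≤ 2 / 2 ^ lv i := by
     intro i hiN
     by_cases hneg : (σ 1).rot (u i) - e ≤ 0
     · refine ⟨fun _ => 0, fun ω hω => ?_⟩
       have hl0 : lv i = 0 := by
         rw [hlv]
         exact Nat.floor_of_nonpos (mul_nonpos_of_nonpos_of_nonneg hneg hJ0)
       rw [hl0, sub_zero, pow_zero, div_one]
       exact hal ω hω
     push Not at hneg
     rcases d4 i (by omega) with d | ⟨-, e', n', ζ, hL', hz⟩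
     · exfalso
       linarith only [η3, hx0, hxη, hneg, d]
     refine ⟨fun s => ζ s (sg 1), fun ω hω => ?_⟩
     rw [ptq_one F] at hL' hz
     obtain ⟨li, hli⟩ : ∃ li, li = ⌊((σ 1).rot (u i) - η / 8) * J⌋₊ := ⟨_, rfl⟩
     rw [← hli] at hL' hz
     obtain ⟨ω', ω'', b1, b2, b3, b4, b5⟩ := hpr ω hω
     have a1 := hL _ (hG _ (hB₀ _ (hB _ b1))) (sg 1)
     have a2 := hL _ (hG _ (hB₀ _ (hB _ b2))) (sg 1)
     have a3 := hL' _ (hG _ (hB₀ _ (hB _ b1))) (sg 1)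
     have a4 := hL' _ (hG _ (hB₀ _ (hB _ b2))) (sg 1)
     rw [b3] at a1 a3
     rw [b4] at a2 a4
     have hcl := frame_close (U := ℕ) (d := F.d) a1 a2 a3 a4 (by positivity) b5
     have hzz := hz ω (hG _ (hB₀ _ (hB _ hω))) (sg 1)
     beta_reduce
     have f9 : (lv i : ℝ) ≤ ((σ 1).rot (u i) - e) * J := by
       rw [hlv]
       exact Nat.floor_le (mul_nonneg hneg.le hJ0)
     have f10 : ((σ 1).rot (u i) - η / 8) * J < li + 1 := by
       rw [hli]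
       exact Nat.lt_floor_add_one _
     have m7 : (σ 1).rot (u i) * J ≤ (σ 1).pi * J := mul_le_mul_of_nonneg_right (hrp i hiN) hJ0
     have n7 : lv i + q + 5 ≤ li := by
       have : ((lv i + q + 5 : ℕ) : ℝ) < ((li + 1 : ℕ) : ℝ) := by
         push_cast
         nlinarith only [hx0, hx2, hJη, hq2, hxJ, m3, f9, f10]
       have : lv i + q + 5 < li + 1 := by exact_mod_cast this
       omega
     exact by
      have n8 : lv i + q + 5 ≤ lp := by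
        have : ((lv i + q + 5 : ℕ) : ℝ) < ((lp + 1 : ℕ) : ℝ) := by
          push_cast
          nlinarith only [hx0, hx2, hJη, hq2, hxJ, f2, m3, f9, m7]
        have : lv i + q + 5 < lp + 1 := by exact_mod_cast this
        omega
      exact by
       have i1 : (1 : ℝ) / 2 ^ li ≤ 1 / 2 ^ (lv i + q + 5) := inv_mono n7
       have i2 : (1 : ℝ) / 2 ^ lp ≤ 1 / 2 ^ (lv i + q + 5) := inv_mono n8
       obtain ⟨z, hz'⟩ : ∃ z : ℝ, z = 1 / 2 ^ (lv i + q + 5) := ⟨_, rfl⟩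
       rw [← hz'] at i1 i2
       have hz0 : 0 < z := by rw [hz']; positivity
       have hzl : z * 2 ^ q * 32 = 1 / 2 ^ lv i := by
         rw [hz', pow_add, pow_add]
         field_simp
         norm_num
       have hp1 : (1 : ℝ) ≤ 2 ^ q := one_le_pow₀ (by norm_num)
       have hzq : z ≤ z * 2 ^ q := le_mul_of_one_le_right hz0.le hp1
       have t1 : (2 * (1 / 2 ^ lp) + 2 * (1 / 2 ^ li)) / (1 / 2 ^ (q + 1)) ≤ 8 * (z * 2 ^ q) := by
         rw [div_le_iff₀ (by positivity)]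
         have e3 : 8 * (z * 2 ^ q) * (1 / 2 ^ (q + 1)) = 4 * z := by
           rw [pow_succ]
           field_simp
           norm_num
         rw [e3]
         linarith only [i2, i1]
       exact by
        have t2 : |ef (Fam.pt F ω) (sg 1) - ζ (slam F ⌊(u i : ℝ) * J⌋₊ ω) (sg 1)| ≤
            8 * (z * 2 ^ q) + z := by
          have := abs_sub_le (ef (Fam.pt F ω) (sg 1)) (e' (Fam.pt F ω) (sg 1))
            (ζ (slam F ⌊(u i : ℝ) * J⌋₊ ω) (sg 1))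
          rw [abs_sub_comm] at hcl
          linarith only [hcl, hzz, i1, t1, this]
        have e4 : (2 : ℝ) / 2 ^ lv i = 2 * (1 / 2 ^ lv i) := by ring
        rw [e4, ← hzl]
        linarith only [hz0, hzq, t2]
   exact by
    choose! ζ hζ using key
    obtain ⟨vp, hvp⟩ : ∃ vp : ℕ → ℕ, vp = fun w => lv (mix u N J w) := ⟨_, rfl⟩
    obtain ⟨av, hav⟩ : ∃ av : ℕ → F.Ω → ℝ, av = fun w ω =>
      (⌊(2 : ℝ) ^ vp w * ζ (mix u N J w) (slam F ⌊(u (mix u N J w) : ℝ) * J⌋₊ ω)⌋ : ℝ) /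
        2 ^ vp w := ⟨_, rfl⟩
    have huJ : ∀ i ≤ N, ⌊(u i : ℝ) * J⌋₊ ≤ J := fun i hiN =>
      floor_row_one (by exact_mod_cast hui1 i hiN) J
    have huw : ∀ i j, i ≤ j → j ≤ N → ⌊(u i : ℝ) * J⌋₊ ≤ ⌊(u j : ℝ) * J⌋₊ := fun i j hij hj =>
      Nat.floor_le_floor (mul_le_mul_of_nonneg_right (by exact_mod_cast mono_chain hu hij hj) hJ0)
    refine ⟨B, hB.trans hB₀, by linarith only [hPB₀, hPB], vp, fun v => ef v (sg 1), fun v => n v (sg 1), k, b, av,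
      fun ω => -(ψ (slam F ⌊(wl : ℝ) * J⌋₊ ω)).s, fun ω => -(ψ (slam F ⌊(wl : ℝ) * J⌋₊ ω)).c,
      fun ω hω => ?_, ?_, fun w => ?_⟩
    · rw [hψ ω (hB₀ _ (hB _ hω))]
      exact ⟨rfl, rfl⟩
    · refine ⟨hsg, by norm_num, le_rfl, ?_, huJ N le_rfl, ?_, ?_, ?_, ?_, ?_, ?_, ?_, ?_, ?_, ?_,
        ?_⟩
      · exact Nat.floor_le_floor (mul_le_mul_of_nonneg_right (by exact_mod_cast hu0) hJ0)
      · intro w w' h4 h5 h6
        rw [hvp, hlv]
        refine Nat.floor_le_floor (mul_le_mul_of_nonneg_right ?_ hJ0)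
        have := rot_window hC.ne hR1 (hui0 _ (mix_le u N J w)) (mono_chain hu
          (mix_mono u N J h5) (mix_le u N J w')) (hui1 _ (mix_le u N J w'))
        linarith only [this]
      · intro ω hω
        have := hL _ (hG _ (hB₀ _ (hB _ hω))) (sg 1)
        rw [hsg0]
        refine this.trans ((inv_mono hlpe).trans ?_)
        exact div_le_div_of_nonneg_right (by norm_num) (by positivity)
      · intro ω hω
        have h4 := hb ω (hB _ hω)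
        rw [← hψ ω (hB₀ _ (hB _ hω)), hsg0]
        have e1 : F.d ω (sg 2) - -(y ω).s * F.d ω (sg 1) - -(y ω).c * F.d ω i₀ -
            b (Fam.pt F ω) - k (Fam.pt F ω) * F.d ω i₀ =
            fn i₀ (sg 1) (sg 2) (y ω).c (y ω).s (F.d ω) - b (ptq F J ω) -
              k (ptq F J ω) * F.d ω i₀ := by
          have e0 : Fam.pt F ω = ptq F J ω := rfl
          rw [e0]
          unfold fn
          ring
        rw [e1, ← hγ]
        refine h4.trans ?_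
        exact div_le_div_of_nonneg_right (by norm_num) (by positivity)
      · exact fun ω hω => (hal ω hω).trans (by norm_num)
      · intro ω hω
        rw [← hψ ω (hB₀ _ (hB _ hω)), abs_neg, abs_neg]
        have := hI ω (hB₀ _ (hB _ hω))
        exact ⟨this.s_le, this.c_le⟩
      · intro w h4 h5 ω hω
        have h6 := hζ (mix u N J w) (mix_le u N J w) ω hω
        have h7 := floor_near (vp w) (ζ (mix u N J w) (slam F ⌊(u (mix u N J w) : ℝ) * J⌋₊ ω))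
        have h8 : vp w = lv (mix u N J w) := by rw [hvp]
        rw [← h8] at h6
        have h9 := abs_sub_le (ef (Fam.pt F ω) (sg 1))
          (ζ (mix u N J w) (slam F ⌊(u (mix u N J w) : ℝ) * J⌋₊ ω)) (av w ω)
        have e1 : (3 : ℝ) / 2 ^ vp w = 2 / 2 ^ vp w + 1 / 2 ^ vp w := by ring
        rw [e1]
        rw [hav] at h9 ⊢
        exact h9.trans (add_le_add h6 h7)
      · intro w h4 h5 ω
        exact ⟨⌊(2 : ℝ) ^ vp w * ζ (mix u N J w) (slam F ⌊(u (mix u N J w) : ℝ) * J⌋₊ ω)⌋,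
          by rw [hav]⟩
      · intro ω hω
        obtain ⟨ω', ω'', b1, b2, b3, b4, b5⟩ := hpr ω hω
        have I1 := hI _ (hB₀ _ (hB _ b1))
        have I2 := hI _ (hB₀ _ (hB _ b2))
        have k1 := hb _ (hB _ b1)
        have k2 := hb _ (hB _ b2)
        have p3 : ptq F J ω' = ptq F J ω := b3
        have p4 : ptq F J ω'' = ptq F J ω := b4
        have y1 : y ω' = y ω := by
          rw [hφ _ (hB₀ _ (hB _ b1)), hφ _ (hB₀ _ (hB _ hω)), p3]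
        have y2 : y ω'' = y ω := by
          rw [hφ _ (hB₀ _ (hB _ b2)), hφ _ (hB₀ _ (hB _ hω)), p4]
        rw [y1] at I1 k1
        rw [y2] at I2 k2
        rw [p3] at k1
        rw [p4] at k2
        have hk := pair_k I1 I2 k1 k2 b5
        have e0 : Fam.pt F ω = ptq F J ω := rfl
        rw [e0]
        refine hk.trans ?_
        rw [← hK]
        have t1 := pow_q8 (q := q) (K := K) (lam := γ) n6
        have t2 : (8 : ℝ) * 2 ^ q * (2 ^ w₀ / 2 ^ P) ≤ 1 / 4 * (1 / 2 ^ K) := by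
          obtain ⟨m, hm⟩ := Nat.exists_eq_add_of_le (by omega : w₀ ≤ P)
          have e3 : (2 : ℝ) ^ w₀ / 2 ^ P = 1 / 2 ^ m := by
            rw [hm, pow_add]
            field_simp
          rw [e3]
          exact pow_q8 (by omega)
        have t3 : (0 : ℝ) < 1 / 2 ^ K := by positivity
        have t4 : (0 : ℝ) < 2 ^ q * (1 / 2 ^ γ) := by positivity
        have e4 : (4 : ℝ) * 2 ^ q * (2 * (2 ^ w₀ / 2 ^ P) + 1 / 2 ^ γ) =
            8 * 2 ^ q * (2 ^ w₀ / 2 ^ P) + 4 * (2 ^ q * (1 / 2 ^ γ)) := by ring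
        rw [e4]
        linarith only [t1, t2, t4]
      · intro w h4 h5 ω ω' p1 p2 hs
        have h6 : ⌊(u (mix u N J w) : ℝ) * J⌋₊ ≤ w := mix_spec u N J w h4
        have h7 : slam F ⌊(u (mix u N J w) : ℝ) * J⌋₊ ω = slam F ⌊(u (mix u N J w) : ℝ) * J⌋₊ ω' :=
          Pool.S6K.slam_mono h6 (h5.trans (huJ N le_rfl)) hs
        rw [hav]
        beta_reduce
        rw [h7]
      · intro ω ω' p1 p2 hs
        beta_reduce
        rw [hs]
      · refine ⟨fun v => (-(φ v).s, -(φ v).c), fun ω hω => ?_⟩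
        have e0 : Fam.pt F ω = ptq F J ω := rfl
        rw [← hψ ω (hB₀ _ (hB _ hω)), hφ ω (hB₀ _ (hB _ hω)), e0]
    · rw [hvp, hlv]

end Pool.S6C
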