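import Pool.Agent.H75.S6C.Uvb3

/-!
# Regime beta: `UVLBStmt`
-/

set_option autoImplicit false

namespace Pool.S6C

open Finset Real
open Pool.Agent.H49.Ent Pool.Agent.H32.Dense Pool.STK Pool.KA Pool.KSAT Pool.K2S Pool.PB Pool.KS6
  Pool.S6U Pool.S6V

/-- **(UVLB)** -/
theorem uvlb_thm : UVLBStmt := by
  classical
  intro S a R h₁ i₀ c s₂ r D σ hC T p v q H hPV x₀ x₁ hvx₁ hx₁ hrot₁ hx₀ η hη
  have hl2 : 0 < Real.log 2 := Real.log_pos one_lt_two
  have hR1 := hC.row 1 one_pos le_rfl hC.D1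
  obtain ⟨μ, hμ⟩ : ∃ μ, μ = (p - x₀ - (σ 1).pi - q) / 4 := ⟨_, rfl⟩
  have hμ0 : 0 < μ := by rw [hμ]; linarith
  have hv0 : (0 : ℝ) < v := by exact_mod_cast hPV.v0
  have hvx₁r : (v : ℝ) < x₁ := by exact_mod_cast hvx₁
  have hp1 := hPV.p1
  have hq0 := hPV.q0
  have hpT := hPV.pT
  have hT0 := hPV.T0
  have hrot1b : (x₁ : ℝ) ≤ 1 := by
    have hpi0 := num_nonneg hC.ne hR1.pi
    linarith
  have hpi : 0 < (σ 1).pi := by
    have hv1 : v ≤ 1 := by
      have : (v : ℝ) ≤ 1 := by linarith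
      exact_mod_cast this
    exact (num_nonneg hC.ne (hR1.rot v hPV.v0.le hv1)).trans_lt hPV.tn
  refine ⟨min (x₀ - x₁) (2 * μ), lt_min (by linarith) (by linarith), ?_⟩
  intro x y hx hxx₀ hyx₀ hy hxy
  have hx' : (x₁ : ℝ) < x := by
    have := min_le_left (x₀ - x₁) (2 * μ)
    linarith
  have hx'q : x₁ < x := by exact_mod_cast hx'
  have hy' : (y : ℝ) + (σ 1).pi + q + 2 * μ < p := by
    have := min_le_right (x₀ - x₁) (2 * μ)
    have e1 : p = x₀ + (σ 1).pi + q + 4 * μ := by rw [hμ]; ring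
    linarith
  have hxyr : (x : ℝ) < y := by exact_mod_cast hxy
  have hy1 : (y : ℝ) ≤ 1 := by linarith
  have hy1q : y ≤ 1 := by exact_mod_cast hy1
  have hx0q : (0 : ℚ) ≤ x₁ := hPV.v0.le.trans hvx₁.le
  have hrt : ∀ w : ℚ, x₁ ≤ w → w ≤ 1 → (σ 1).rot w = (σ 1).pi := by
    intro w h1 h2
    refine le_antisymm ?_ ?_
    · refine num_mono hC.ne (hR1.rot w (hx0q.trans h1) h2) hR1.pi ?_
      rintro s J F A (h | ⟨h, e', n', ζ, h4, -⟩)
      · exact Or.inl h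
      · exact Or.inr ⟨h, e', n', h4⟩
    · rw [← hrot₁]
      exact rot_window hC.ne hR1 hx0q h1 h2
  have hrx := hrt x hx'q.le (hxy.le.trans hy1q)
  have hry := hrt y (hx'q.le.trans hxy.le) hy1q
  obtain ⟨η', hη'⟩ : ∃ η', η' = η * (y - x) * Real.log 2 / 2 := ⟨_, rfl⟩
  have hη0 : 0 < η' := by
    rw [hη']
    have := mul_pos (mul_pos hη (sub_pos.2 hxyr)) hl2
    linarith
  obtain ⟨k₀, hk₀, hch⟩ := uvb_ch hC hpi (X := x) (hx0q.trans hx'q.le) (hxy.le.trans hy1q) hrx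
    hμ0 hη0
  refine ⟨min k₀ (σ 1).pi, lt_min hk₀ hpi, fun k hk hkk => ?_⟩
  intro C hC1
  have hlaw : Clp S (fun _ F A => 0 < Pe F.p A) := Clp.of one_pos 0 fun J _ F A hA =>
    lt_of_lt_of_le (Real.exp_pos _) (hC.st _ _ _ _ hA).2.2.2
  have hvx : (0 : ℝ) < x - v := by linarith
  obtain ⟨J₁, hJ₁⟩ := exists_nat_gt (4 / (x - v : ℝ) + 4 / μ + Vd.K1 (C + 4) / η' + 1)
  refine Clp.mono (J₂ := J₁) ((hch k hk (hkk.trans (min_le_left _ _)) C hC1).and hlaw) ?_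
  rintro J hJ F A ⟨d1, hA⟩ ς hς hς0 Λ κ pl al hL - hO
  have hK1 : 0 ≤ Vd.K1 (C + 4) := by
    unfold Vd.K1
    have : 0 ≤ Real.log (6 * (C + 4) + 3) := Real.log_nonneg (by linarith)
    positivity
  have hJr : 4 / (x - v : ℝ) + 4 / μ + Vd.K1 (C + 4) / η' + 1 < J :=
    hJ₁.trans_le (by exact_mod_cast hJ)
  have q1 : 0 < 4 / (x - v : ℝ) := by positivity
  have q2 : 0 < 4 / μ := by positivity
  have q3 : 0 ≤ Vd.K1 (C + 4) / η' := by positivity
  have hJv : 4 < J * (x - v : ℝ) := by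
    have : 4 / (x - v : ℝ) < J := by linarith
    rwa [div_lt_iff₀ hvx] at this
  have hJμ : 4 < J * μ := by
    have : 4 / μ < J := by linarith
    rwa [div_lt_iff₀ hμ0] at this
  have hJη : Vd.K1 (C + 4) < J * η' := by
    have : Vd.K1 (C + 4) / η' < J := by linarith
    rwa [div_lt_iff₀ hη0] at this
  have hJ0 : (0 : ℝ) ≤ J := Nat.cast_nonneg J
  obtain ⟨l, hl⟩ : ∃ l, l = ⌊((σ 1).pi - k) * J⌋₊ := ⟨_, rfl⟩
  obtain ⟨P, hP⟩ : ∃ P, P = ⌊p * J⌋₊ := ⟨_, rfl⟩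
  obtain ⟨nx, hnx⟩ : ∃ n, n = ⌊(x : ℝ) * J⌋₊ := ⟨_, rfl⟩
  obtain ⟨ny, hny⟩ : ∃ n, n = ⌊(y : ℝ) * J⌋₊ := ⟨_, rfl⟩
  obtain ⟨nq, hnq⟩ : ∃ n, n = ⌊q * J⌋₊ := ⟨_, rfl⟩
  obtain ⟨nv, hnv⟩ : ∃ n, n = ⌊(v : ℝ) * J⌋₊ := ⟨_, rfl⟩
  obtain ⟨nT, hnT⟩ : ∃ n, n = ⌊T * J⌋₊ := ⟨_, rfl⟩
  have hx0r : (0 : ℝ) ≤ x := by linarith
  have hy0r : (0 : ℝ) ≤ y := by linarith
  have f1 : (l : ℝ) ≤ ((σ 1).pi - k) * J := by
    rw [hl]
    exact Nat.floor_le (mul_nonneg (by linarith [hkk.trans (min_le_right k₀ (σ 1).pi)]) hJ0)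
  have f2 : (nx : ℝ) ≤ x * J := by rw [hnx]; exact Nat.floor_le (mul_nonneg hx0r hJ0)
  have f2' : x * J < (nx : ℝ) + 1 := by rw [hnx]; exact Nat.lt_floor_add_one _
  have f3 : (ny : ℝ) ≤ y * J := by rw [hny]; exact Nat.floor_le (mul_nonneg hy0r hJ0)
  have f4 : (nq : ℝ) ≤ q * J := by rw [hnq]; exact Nat.floor_le (mul_nonneg hq0 hJ0)
  have f4' : q * J < (nq : ℝ) + 1 := by rw [hnq]; exact Nat.lt_floor_add_one _
  have f5 : (nv : ℝ) ≤ v * J := by rw [hnv]; exact Nat.floor_le (mul_nonneg hv0.le hJ0)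
  have f6 : T * J < (nT : ℝ) + 1 := by rw [hnT]; exact Nat.lt_floor_add_one _
  have f7 : p * J < (P : ℝ) + 1 := by rw [hP]; exact Nat.lt_floor_add_one _
  have f7' : (P : ℝ) ≤ p * J := by rw [hP]; exact Nat.floor_le (mul_nonneg hPV.p0.le hJ0)
  have hxy' : nx ≤ ny := by
    rw [hnx, hny]
    exact Nat.floor_le_floor (mul_le_mul_of_nonneg_right hxyr.le hJ0)
  have hvx' : nv ≤ nx := by
    rw [hnv, hnx]
    exact Nat.floor_le_floor (mul_le_mul_of_nonneg_right (by linarith) hJ0)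
  have hkJ : 0 ≤ k * J := mul_nonneg hk.le hJ0
  have hyP : ((ny + nq : ℕ) : ℝ) + ((σ 1).pi + μ) * J ≤ P := by
    push_cast
    have h1 : ((y : ℝ) + (σ 1).pi + q + 2 * μ) * J ≤ p * J :=
      mul_le_mul_of_nonneg_right hy'.le hJ0
    linarith
  have hlP : ny + nq + l ≤ P := by
    have : ((ny + nq + l : ℕ) : ℝ) ≤ (P : ℝ) := by
      push_cast at hyP ⊢
      linarith
    exact_mod_cast this
  have hPJ : P ≤ J := by rw [hP]; exact floor_row_one hp1.le J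
  have hvT : nv + P ≤ nx + nq + nT := by
    have : ((nv + P : ℕ) : ℝ) < ((nx + nq + nT + 1 : ℕ) : ℝ) := by
      push_cast
      have h1 : p * J ≤ (T + q) * J := mul_le_mul_of_nonneg_right hpT hJ0
      linarith
    have : nv + P < nx + nq + nT + 1 := by exact_mod_cast this
    omega
  -- the levels
  have e1 : lr p q x J = nx + nq := by
    unfold lr
    rw [← hnx, ← hnq, ← hP]
    exact min_eq_left (by omega)
  have e2 : lr p q y J = ny + nq := by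
    unfold lr
    rw [← hny, ← hnq, ← hP]
    exact min_eq_left (by omega)
  have e3 : lu (σ 1) p q k x J = nx + nq + l := by
    unfold lu
    rw [hrx, ← hnx, ← hnq, ← hP, ← hl, min_eq_left (by omega)]
    ring
  have e4 : lu (σ 1) p q k y J = ny + nq + l := by
    unfold lu
    rw [hry, ← hny, ← hnq, ← hP, ← hl, min_eq_left (by omega)]
    ring
  have e5 : ld (σ 1) p q k x J = l := by
    unfold ld
    rw [e1, e3]
    omega
  have e6 : ld (σ 1) p q k y J = l := by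
    unfold ld
    rw [e2, e4]
    omega
  have hmain := d1 ς hς hς0 Λ κ pl al nv ⌊((σ 1).rot v - k) * J⌋₊ nT (nx + nq) (ny + nq) P
    (by omega) (by omega) (by rw [← hnx]; omega) (by omega) hyP hPJ
    (by rw [hnv, hnT]; exact hL) hO
  rw [← hl] at hmain
  unfold Vd
  rw [e1, e2, e3, e4, e5, e6, ← hP]
  have hq := isLaw_cond F.isLaw hA
  have hpos : ∀ ω, 0 < Pool.Agent.H49.Ent.cond F.p A True ω → A ω := fun ω hω => by
    have := ((cond_pos_iff F.isLaw.nonneg A True ω).1 hω).2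
    simpa using this
  have hpath := Vd.vdf_path (F := F) (p := Pool.Agent.H49.Ent.cond F.p A True) (σ := ς)
    (a := ald l al) (s := fun ω => -(pl (κ ω)).s) (t := fun ω => -(pl (κ ω)).c) hq
    (r := nx + nq) (U := nx + nq + l) (N := P) (r' := ny + nq) (U' := ny + nq + l) (B := C + 4)
    (by linarith) (by omega) (by omega) (by omega) (by omega) (by
      intro ω hω
      have g1 := hL.inc ω (hpos ω hω)
      have g2 := hO.bd ω (hpos ω hω)
      refine ⟨?_, ?_, ?_⟩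
      · have g3 := floor_near l (al ω)
        have g4 : ald l al ω = (⌊(2 : ℝ) ^ l * al ω⌋ : ℝ) / 2 ^ l := rfl
        rw [← g4] at g3
        have g5 : (1 : ℝ) / 2 ^ l ≤ 1 := by
          rw [div_le_one (by positivity)]
          exact one_le_pow₀ (by norm_num)
        have g6 := abs_sub_abs_le_abs_sub (ald l al ω) (al ω)
        rw [abs_sub_comm] at g6
        linarith
      · rw [abs_neg]
        exact g1.s_le.trans (by linarith)
      · rw [abs_neg]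
        exact g1.c_le.trans (by linarith)) (fun ω => (Uni.dg l al ω, (κ ω, F.W ω)))
  push_cast at hpath hmain
  have g7 : η * (y - x) * J * Real.log 2 = 2 * (η' * J) := by rw [hη']; ring
  have g8 : (((ny : ℝ) + nq - (nx + nq)) + ((ny : ℝ) + nq + l - (nx + nq + l))) * Real.log 2 =
      2 * (((ny : ℝ) + nq - (nx + nq)) * Real.log 2) := by ring
  rw [g8] at hpath
  linarith

end Pool.S6C
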