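import Pool.Agent.H75.S6C.SNB
import Pool.Agent.H80.S6C.Asm

/-!
# The statement SN
-/

set_option autoImplicit false

namespace Pool.S6C

/-- **(SN)** -/
theorem sn_stmt : SNStmt := fun _ _ _ _ _ _ _ _ _ _ hC _ _ _ _ _ hA _ hw0 hw =>
  th_le_sN hC hA hw0 hw

end Pool.S6C
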