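import Pool.Agent.H75.S6C.Mon
import Pool.Agent.H77.S6.LAB4

/-!
# The natural label of a window with the own slopes of the fans
-/

set_option autoImplicit false

namespace Pool.S6C

open Finset Real
open Pool.Agent.H49.Ent Pool.Agent.H32.Dense Pool.STK Pool.KA Pool.KSAT Pool.K2S Pool.PB Pool.KS6

variable {J : ℕ}

/-- The frame with the slope `E` and the normal form of `y`. -/
noncomputable def rfr (E : ℝ) (y : Pln) : Pln := ⟨E, y.c, y.s, 0, 0⟩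

/-- The cells of the position. -/
noncomputable def psc (F : Fam 3 J) (i₀ iu iN : Fin 3) (y l P : ℕ) (r : Pln) (ω : F.Ω) :
    Fin 3 → ℤ :=
  ![⌊(2 : ℝ) ^ y * F.x ω i₀⌋, ⌊(2 : ℝ) ^ (y + l) * fu i₀ iu r.e (F.x ω)⌋,
    ⌊(2 : ℝ) ^ P * fn i₀ iu iN r.c r.s (F.x ω)⌋]

/-- The plank with new cells of the position. -/
noncomputable def zpl (i₀ iu : Fin 3) (y l P : ℕ) (p : Pln) (k : Fin 3 → ℤ) (t : ℝ) : Pln where
  e := p.e
  c := p.c
  s := p.s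
  xb := fun i => bp i₀ iu p.e p.c p.s ((k 0 : ℝ) / 2 ^ y) ((k 1 : ℝ) / 2 ^ (y + l))
    ((k 2 : ℝ) / 2 ^ P) i - t * p.db i
  db := p.db

/-- The plank with the cells of the position at the time of the sample. -/
theorem zpl_Inc {F : Fam 3 J} {i₀ iu iN : Fin 3} (hi : ∀ j : Fin 3, j = i₀ ∨ j = iu ∨ j = iN)
    {x y l P : ℕ} (hxy : x ≤ y) {p : Pln} {ω : F.Ω}
    (h : Inc i₀ iu iN x l P 2 p (F.t ω) (F.x ω) (F.d ω)) :
    Inc i₀ iu iN y l P 2 (zpl i₀ iu y l P p (psc F i₀ iu iN y l P p ω) (F.t ω)) (F.t ω) (F.x ω)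
      (F.d ω) := by
  obtain ⟨n1, n2, n3⟩ := three hi
  have hb : (fun i => (zpl i₀ iu y l P p (psc F i₀ iu iN y l P p ω) (F.t ω)).xb i +
      F.t ω * (zpl i₀ iu y l P p (psc F i₀ iu iN y l P p ω) (F.t ω)).db i) =
      bp i₀ iu p.e p.c p.s ((⌊(2 : ℝ) ^ y * F.x ω i₀⌋ : ℝ) / 2 ^ y)
        ((⌊(2 : ℝ) ^ (y + l) * fu i₀ iu p.e (F.x ω)⌋ : ℝ) / 2 ^ (y + l))
        ((⌊(2 : ℝ) ^ P * fn i₀ iu iN p.c p.s (F.x ω)⌋ : ℝ) / 2 ^ P) := by
    funext i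
    change bp i₀ iu p.e p.c p.s _ _ _ i - F.t ω * p.db i + F.t ω * p.db i = _
    rw [sub_add_cancel]
    rfl
  have a0 := floor_near y (F.x ω i₀)
  have a1 := floor_near (y + l) (fu i₀ iu p.e (F.x ω))
  have a2 := floor_near P (fn i₀ iu iN p.c p.s (F.x ω))
  have g : ∀ n : ℕ, (1 : ℝ) / 2 ^ n ≤ 2 / 2 ^ n := fun n =>
    div_le_div_of_nonneg_right (by norm_num) (by positivity)
  refine ⟨h.e_le, h.c_le, h.s_le, ?_, ?_, ?_, h.ve, h.vu, ?_⟩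
  · have hb0 := congrFun hb i₀
    rw [bp_i0] at hb0
    rw [hb0]
    exact a0.trans (g _)
  · rw [hb, show (zpl i₀ iu y l P p (psc F i₀ iu iN y l P p ω) (F.t ω)).e = p.e from rfl, bp_fu n1]
    exact a1.trans (g _)
  · rw [hb, show (zpl i₀ iu y l P p (psc F i₀ iu iN y l P p ω) (F.t ω)).c = p.c from rfl,
      show (zpl i₀ iu y l P p (psc F i₀ iu iN y l P p ω) (F.t ω)).s = p.s from rfl,
      bp_fn n1 n2 n3]
    exact a2.trans (g _)
  · refine h.vn.trans ?_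
    refine div_le_div_of_nonneg_right ?_ (by positivity)
    exact mul_le_mul_of_nonneg_left (pow_le_pow_right₀ (by norm_num) hxy) (by norm_num)

/-- The cells of the natural label. -/
noncomputable def nzc (F : Fam 3 J) (i₀ iu iN : Fin 3) (x y l P : ℕ) (ez : F.Ω → ℤ)
    (q : F.Ω → Pln) (ω : F.Ω) : Fin 10 → ℤ :=
  Fin.cons (ez ω) (Fin.append (kmc F i₀ iu iN x l P (rfr ((ez ω : ℝ) / 2 ^ l) (q ω)) ω)
    (psc F i₀ iu iN y l P (rfr ((ez ω : ℝ) / 2 ^ l) (q ω)) ω))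

theorem nzc_ext {F : Fam 3 J} {i₀ iu iN : Fin 3} {x y l P : ℕ} {ez : F.Ω → ℤ} {q : F.Ω → Pln}
    {ω ω' : F.Ω} (h : nzc F i₀ iu iN x y l P ez q ω = nzc F i₀ iu iN x y l P ez q ω') :
    ez ω = ez ω' ∧ kmc F i₀ iu iN x l P (rfr ((ez ω : ℝ) / 2 ^ l) (q ω)) ω =
      kmc F i₀ iu iN x l P (rfr ((ez ω' : ℝ) / 2 ^ l) (q ω')) ω' ∧
      psc F i₀ iu iN y l P (rfr ((ez ω : ℝ) / 2 ^ l) (q ω)) ω =
      psc F i₀ iu iN y l P (rfr ((ez ω' : ℝ) / 2 ^ l) (q ω')) ω' := by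
  have h0 : ez ω = ez ω' := congrFun h 0
  refine ⟨h0, ?_, ?_⟩
  · funext k
    have := congrFun h (Fin.succ (Fin.castAdd 3 k))
    unfold nzc at this
    rw [Fin.cons_succ, Fin.cons_succ, Fin.append_left, Fin.append_left] at this
    exact this
  · funext k
    have := congrFun h (Fin.succ (Fin.natAdd 6 k))
    unfold nzc at this
    rw [Fin.cons_succ, Fin.cons_succ, Fin.append_right, Fin.append_right] at this
    exact this

end Pool.S6C
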