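import Pool.Agent.H75.S6C.Nat1

/-!
# The natural label on a part of the event
-/

set_option autoImplicit false

namespace Pool.S6C

open Finset Real
open Pool.Agent.H49.Ent Pool.Agent.H32.Dense Pool.STK Pool.KA Pool.KSAT Pool.K2S Pool.PB Pool.KS6

variable {J : ℕ}

/-- The visible plank with the own slope. -/
noncomputable def vpl (J : ℕ) (i₀ iu : Fin 3) (E n : ℝ) (y : Pln) (dn : ℝ) (X : Fin 3 → ℤ)
    (t : ℝ) : Pln where
  e := E
  c := y.c
  s := y.s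
  xb := fun i => (X i : ℝ) / 2 ^ J - t * bp i₀ iu E y.c y.s 0 n dn i
  db := bp i₀ iu E y.c y.s 0 n dn

theorem vpl_Inc {F : Fam 3 J} {i₀ iu iN : Fin 3} (hi : ∀ j : Fin 3, j = i₀ ∨ j = iu ∨ j = iN)
    {v lamv x l P T : ℕ} {C E n : ℝ} (hC : 0 ≤ C) {y : Pln} {ω : F.Ω}
    (h : Inc i₀ iu iN v lamv T C y (F.t ω) (F.x ω) (F.d ω)) (hE : |E| ≤ 2)
    (hu : |fu i₀ iu E (F.d ω) - n| ≤ 3 / 2 ^ l) (hv : v + P ≤ x + T) (hl : x + l ≤ J)
    (hP : P ≤ J) :
    Inc i₀ iu iN x l P (C + 9) (vpl J i₀ iu E n y (fn i₀ iu iN y.c y.s y.db) (F.X J ω) (F.t ω))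
      (F.t ω) (F.x ω) (F.d ω) := by
  obtain ⟨n1, n2, n3⟩ := three hi
  have hx : ∀ i, |F.x ω i - (F.X J ω i : ℝ) / 2 ^ J| ≤ 1 / 2 ^ J := fun i =>
    floor_near J (F.x ω i)
  have hb : (fun i => (vpl J i₀ iu E n y (fn i₀ iu iN y.c y.s y.db) (F.X J ω) (F.t ω)).xb i +
      F.t ω * (vpl J i₀ iu E n y (fn i₀ iu iN y.c y.s y.db) (F.X J ω) (F.t ω)).db i) =
      fun i => (F.X J ω i : ℝ) / 2 ^ J := by
    funext i
    exact sub_add_cancel _ _
  have pm : ∀ (a : ℝ) (m : ℕ), 0 ≤ a → m ≤ J → a / (2 : ℝ) ^ J ≤ a / 2 ^ m := fun a m ha hm =>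
    div_le_div_of_nonneg_left ha (by positivity) (pow_le_pow_right₀ (by norm_num) hm)
  have gm : ∀ (a : ℝ) (m : ℕ), a ≤ C + 9 → a / (2 : ℝ) ^ m ≤ (C + 9) / 2 ^ m := fun a m ha =>
    div_le_div_of_nonneg_right ha (by positivity)
  refine ⟨hE, h.c_le, h.s_le, ?_, ?_, ?_, ?_, ?_, ?_⟩
  · have hb0 := congrFun hb i₀
    beta_reduce at hb0
    rw [hb0]
    exact (hx i₀).trans ((pm 1 x (by norm_num) (by omega)).trans (gm 1 x (by linarith)))
  · rw [hb]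
    change |fu i₀ iu E (F.x ω) - fu i₀ iu E (fun i => (F.X J ω i : ℝ) / 2 ^ J)| ≤ _
    have e1 : fu i₀ iu E (F.x ω) - fu i₀ iu E (fun i => (F.X J ω i : ℝ) / 2 ^ J) =
        (F.x ω iu - (F.X J ω iu : ℝ) / 2 ^ J) - E * (F.x ω i₀ - (F.X J ω i₀ : ℝ) / 2 ^ J) := by
      unfold fu; ring
    rw [e1]
    refine (abs_sub _ _).trans ?_
    rw [abs_mul]
    have e2 := mul_le_mul hE (hx i₀) (abs_nonneg _) (by norm_num)
    have e3 := hx iu
    have e4 : (3 : ℝ) / 2 ^ J = 1 / 2 ^ J + 2 * (1 / 2 ^ J) := by ring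
    have e5 := (pm 3 (x + l) (by norm_num) hl).trans (gm 3 (x + l) (by linarith))
    linarith
  · rw [hb]
    change |fn i₀ iu iN y.c y.s (F.x ω) - fn i₀ iu iN y.c y.s
      (fun i => (F.X J ω i : ℝ) / 2 ^ J)| ≤ _
    have e1 : fn i₀ iu iN y.c y.s (F.x ω) - fn i₀ iu iN y.c y.s
        (fun i => (F.X J ω i : ℝ) / 2 ^ J) =
        y.c * (F.x ω i₀ - (F.X J ω i₀ : ℝ) / 2 ^ J) +
        y.s * (F.x ω iu - (F.X J ω iu : ℝ) / 2 ^ J) + (F.x ω iN - (F.X J ω iN : ℝ) / 2 ^ J) := by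
      unfold fn; ring
    rw [e1]
    refine (abs_add_three _ _ _).trans ?_
    rw [abs_mul, abs_mul]
    have e2 := mul_le_mul h.c_le (hx i₀) (abs_nonneg _) (by norm_num)
    have e2' := mul_le_mul h.s_le (hx iu) (abs_nonneg _) (by norm_num)
    have e3 := hx iN
    have e4 : (9 : ℝ) / 2 ^ J = 4 * (1 / 2 ^ J) + 4 * (1 / 2 ^ J) + 1 / 2 ^ J := by ring
    have e5 := (pm 9 P (by norm_num) hP).trans (gm 9 P (by linarith))
    linarith
  · change |F.d ω i₀ - bp i₀ iu E y.c y.s 0 n _ i₀| ≤ _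
    rw [bp_i0, sub_zero]
    exact (F.dir ω i₀).trans (by linarith)
  · change |fu i₀ iu E (F.d ω) - fu i₀ iu E (bp i₀ iu E y.c y.s 0 n _)| ≤ _
    rw [bp_fu n1]
    exact hu.trans (gm 3 l (by linarith))
  · change |fn i₀ iu iN y.c y.s (F.d ω) - fn i₀ iu iN y.c y.s (bp i₀ iu E y.c y.s 0 n _)| ≤ _
    rw [bp_fn n1 n2 n3]
    refine h.vn.trans ?_
    rw [div_le_div_iff₀ (by positivity) (by positivity), mul_assoc, mul_assoc, ← pow_add,
      ← pow_add]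
    exact mul_le_mul (by linarith) (pow_le_pow_right₀ (by norm_num) hv) (by positivity)
      (by linarith)

/-- The number of values of the cells of the natural label at an exact point. -/
theorem nzc_vis {F : Fam 3 J} {i₀ iu iN : Fin 3} (hi : ∀ j : Fin 3, j = i₀ ∨ j = iu ∨ j = iN)
    {v lamv x y l P T : ℕ} {C n : ℝ} (hC : 0 ≤ C) (hv : v + P ≤ x + T) (hy : y + l ≤ P)
    (hxy : x ≤ y)
    (hP : P ≤ J) {ez : F.Ω → ℤ} {q : F.Ω → Pln} {ω ω' : F.Ω} (hq : q ω = q ω')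
    (hz : ez ω = ez ω') (hpt : Fam.pt F ω = Fam.pt F ω')
    (h : Inc i₀ iu iN v lamv T C (q ω) (F.t ω) (F.x ω) (F.d ω))
    (h' : Inc i₀ iu iN v lamv T C (q ω') (F.t ω') (F.x ω') (F.d ω'))
    (hE : |(ez ω : ℝ) / 2 ^ l| ≤ 2)
    (hu : |fu i₀ iu ((ez ω : ℝ) / 2 ^ l) (F.d ω) - n| ≤ 3 / 2 ^ l)
    (hu' : |fu i₀ iu ((ez ω' : ℝ) / 2 ^ l) (F.d ω') - n| ≤ 3 / 2 ^ l) (k : Fin 10) :
    |((nzc F i₀ iu iN x y l P ez q ω k - nzc F i₀ iu iN x y l P ez q ω' k : ℤ) : ℝ)| ≤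
      8 * (C + 9) + 10 := by
  have hX : F.X J ω = F.X J ω' := (Prod.ext_iff.mp hpt).1
  have hT : F.T ω = F.T ω' := (Prod.ext_iff.mp (Prod.ext_iff.mp hpt).2).1
  have ht : F.t ω' = F.t ω := by unfold Fam.t; rw [hT]
  obtain ⟨r, hr⟩ : ∃ r, r = rfr ((ez ω : ℝ) / 2 ^ l) (q ω) := ⟨_, rfl⟩
  have hr' : rfr ((ez ω' : ℝ) / 2 ^ l) (q ω') = r := by rw [hr, hz, hq]
  have hre : r.e = (ez ω : ℝ) / 2 ^ l := by rw [hr]; rfl
  have hrc : r.c = (q ω).c := by rw [hr]; rfl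
  have hrs : r.s = (q ω).s := by rw [hr]; rfl
  have b0 : |(r.e : ℝ)| ≤ 2 := by rw [hre]; exact hE
  have b1 : |r.c| ≤ 4 := by rw [hrc]; exact h.c_le
  have b2 : |r.s| ≤ 4 := by rw [hrs]; exact h.s_le
  have I1 := vpl_Inc (x := x) (l := l) hi hC h hE hu hv (by omega) hP
  have I2 := vpl_Inc (x := x) (l := l) hi hC h' (by rw [← hz]; exact hE) hu' hv (by omega) hP
  rw [← hz, ← hq, ← hX, ht] at I2
  have key1 : ∀ k : Fin 6, |((kmc F i₀ iu iN x l P r ω k - kmc F i₀ iu iN x l P r ω' k : ℤ) : ℝ)| ≤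
      8 * (C + 9) + 10 := by
    intro k
    refine kmc_vis F (le_refl J) (C := C + 9) (by linarith) (y := vpl J i₀ iu ((ez ω : ℝ) / 2 ^ l) n
      (q ω) (fn i₀ iu iN (q ω).c (q ω).s (q ω).db) (F.X J ω) (F.t ω)) hX hT I1
      (by rw [ht]; exact I2) (sg := P) (ag := P - x) ?_ ?_ ?_ b0 b1 b2 le_rfl (by omega)
      (by omega) (by omega) (by omega) hP k
    · rw [hre]
      change |(ez ω : ℝ) / 2 ^ l - (ez ω : ℝ) / 2 ^ l| ≤ _
      rw [sub_self, abs_zero]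
      positivity
    · rw [hrs]
      change |(q ω).s - (q ω).s| ≤ _
      rw [sub_self, abs_zero]
      positivity
    · rw [hrs, hrc]
      change |((q ω).c - (q ω).c) + ((q ω).s - (q ω).s) * _| ≤ _
      rw [sub_self, sub_self, zero_mul, add_zero, abs_zero]
      positivity
  have hxx : ∀ i, |F.x ω i - F.x ω' i| ≤ 1 / 2 ^ J := by
    intro i
    have h : ⌊(2 : ℝ) ^ J * F.x ω i⌋ = ⌊(2 : ℝ) ^ J * F.x ω' i⌋ := congrFun hX i
    exact floor_close h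
  have sc : ∀ (m : ℕ) (a b M : ℝ), 0 ≤ M → m ≤ J → |a - b| ≤ M * (1 / 2 ^ J) →
      |(2 : ℝ) ^ m * a - 2 ^ m * b| ≤ M := by
    intro m a b M hM hm hab
    rw [← mul_sub, abs_mul, abs_of_pos (by positivity)]
    calc (2 : ℝ) ^ m * |a - b| ≤ 2 ^ J * (M * (1 / 2 ^ J)) :=
          mul_le_mul (pow_le_pow_right₀ (by norm_num) hm) hab (abs_nonneg _) (by positivity)
      _ = M := by field_simp
  have key2 : ∀ k : Fin 3, |((psc F i₀ iu iN y l P r ω k - psc F i₀ iu iN y l P r ω' k : ℤ) : ℝ)| ≤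
      8 * (C + 9) + 10 := by
    intro k
    fin_cases k
    · refine (floor_diff (M := 1) (sc y _ _ 1 (by norm_num) (by omega) ?_)).trans (by linarith)
      have := hxx i₀
      linarith
    · refine (floor_diff (M := 3) (sc (y + l) _ _ 3 (by norm_num) (by omega) ?_)).trans
        (by linarith)
      have e3 : fu i₀ iu r.e (F.x ω) - fu i₀ iu r.e (F.x ω') =
          (F.x ω iu - F.x ω' iu) - r.e * (F.x ω i₀ - F.x ω' i₀) := by unfold fu; ring
      rw [e3]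
      refine (abs_sub _ _).trans ?_
      rw [abs_mul]
      have e4 := mul_le_mul b0 (hxx i₀) (abs_nonneg _) (by norm_num)
      have e5 := hxx iu
      linarith
    · refine (floor_diff (M := 9) (sc P _ _ 9 (by norm_num) hP ?_)).trans (by linarith)
      have e3 : fn i₀ iu iN r.c r.s (F.x ω) - fn i₀ iu iN r.c r.s (F.x ω') =
          r.c * (F.x ω i₀ - F.x ω' i₀) + r.s * (F.x ω iu - F.x ω' iu) +
          (F.x ω iN - F.x ω' iN) := by unfold fn; ring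
      rw [e3]
      refine (abs_add_three _ _ _).trans ?_
      rw [abs_mul, abs_mul]
      have e4 := mul_le_mul b1 (hxx i₀) (abs_nonneg _) (by norm_num)
      have e4' := mul_le_mul b2 (hxx iu) (abs_nonneg _) (by norm_num)
      have e5 := hxx iN
      linarith
  unfold nzc
  rw [← hr, hr']
  refine Fin.cases ?_ (fun k => ?_) k
  · rw [Fin.cons_zero, Fin.cons_zero, hz, sub_self, Int.cast_zero, abs_zero]
    linarith
  · rw [Fin.cons_succ, Fin.cons_succ]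
    refine Fin.addCases (motive := fun k : Fin (6 + 3) => |((Fin.append
      (kmc F i₀ iu iN x l P r ω) (psc F i₀ iu iN y l P r ω) k -
      Fin.append (kmc F i₀ iu iN x l P r ω') (psc F i₀ iu iN y l P r ω') k : ℤ) : ℝ)| ≤
        8 * (C + 9) + 10) (fun k => ?_) (fun k => ?_) k
    · rw [Fin.append_left, Fin.append_left]
      exact key1 k
    · rw [Fin.append_right, Fin.append_right]
      exact key2 k

end Pool.S6C
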