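import Pool.Agent.H75.S6C.Nat2

/-!
# The natural label on a part of the event: existence
-/

set_option autoImplicit false

namespace Pool.S6C

open Finset Real
open Pool.Agent.H49.Ent Pool.Agent.H32.Dense Pool.STK Pool.KA Pool.KSAT Pool.K2S Pool.PB Pool.KS6

variable {J : ℕ}

/-- The proportion of the part. -/
noncomputable def cNat (C : ℝ) : ℝ :=
  Real.exp (-(2 * (10 * Real.log (2 * (8 * (C + 9) + 10) + 1)))) / 2

theorem cNat_pos (C : ℝ) : 0 < cNat C := by unfold cNat; positivity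

/-- The cells of the line at the beginning of the window are functions of the line. -/
theorem kmc_slam {F : Fam 3 J} {i₀ iu iN : Fin 3} {v l P : ℕ} {r r' : Pln} {ω ω' : F.Ω}
    (hr : r = r') (h : slam F v ω = slam F v ω') :
    kmc F i₀ iu iN v l P r ω = kmc F i₀ iu iN v l P r' ω' := by
  subst hr
  simp only [slam, Prod.mk.injEq, Fam.l] at h
  obtain ⟨⟨b1, b2⟩, -, b3⟩ := h
  have b4 : F.x1 v ω = F.x1 v ω' := by
    funext i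
    unfold Fam.x1
    rw [b1, b2, b3]
  unfold kmc
  rw [b4, b2]

/-- **The natural label** of a window `x` with `l` digits of the own slope, on a part of the event:
a plank `y` with the normal form of the side label, and the same plank `z` with the position cells
of the window `y₀`. -/
theorem nat_lab (F : Fam 3 J) {i₀ iu iN : Fin 3} (hi : ∀ j : Fin 3, j = i₀ ∨ j = iu ∨ j = iN)
    {v lamv x y₀ l P T : ℕ} {C : ℝ} (hC : 0 ≤ C) {A : F.Ω → Prop} (hA : 0 < Pe F.p A)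
    (hv : v ≤ x) (hvT : v + P ≤ x + T) (hxy : x ≤ y₀) (hy : y₀ + l ≤ P) (hP : P ≤ J) (hl : 2 ≤ l) {Λ : Type}
    {κ : F.Ω → Λ} {pl : Λ → Pln}
    (hI : ∀ ω, A ω → Inc i₀ iu iN v lamv T C (pl (κ ω)) (F.t ω) (F.x ω) (F.d ω))
    (hκp : ∃ φ : (Fin 3 → ℤ) × (ℕ × F.ζ) → Λ, ∀ ω, A ω → κ ω = φ (Fam.pt F ω))
    (hκs : ∃ ψ : ((Fin 3 → ℝ) × (Fin 3 → ℝ)) × F.ζ × ℕ → Λ, ∀ ω, A ω → κ ω = ψ (slam F v ω))
    {e n : (Fin 3 → ℤ) × (ℕ × F.ζ) → ℝ} (he : ∀ ω, A ω → |e (Fam.pt F ω)| ≤ 3 / 2)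
    (hL : ∀ ω, A ω → |F.d ω iu - e (Fam.pt F ω) * F.d ω i₀ - n (Fam.pt F ω)| ≤ 1 / 2 ^ l)
    {ζ : ((Fin 3 → ℝ) × (Fin 3 → ℝ)) × F.ζ × ℕ → ℝ}
    (hz : ∀ ω, A ω → |e (Fam.pt F ω) - ζ (slam F x ω)| ≤ 1 / 2 ^ l) :
    ∃ B : F.Ω → Prop, Sub B A ∧ cNat C * Pe F.p A ≤ Pe F.p B ∧ ∃ y z : F.Ω → Pln,
      (∀ ω, (y ω).c = (pl (κ ω)).c ∧ (y ω).s = (pl (κ ω)).s) ∧
      (∀ ω, A ω → |(y ω).e - e (Fam.pt F ω)| ≤ 2 / 2 ^ l) ∧
      (∀ ω, A ω → Inc i₀ iu iN x l P 2 (y ω) (F.t ω) (F.x ω) (F.d ω)) ∧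
      (∀ ω, A ω → Inc i₀ iu iN y₀ l P 2 (z ω) (F.t ω) (F.x ω) (F.d ω)) ∧
      (∀ ω ω', A ω → A ω' → slam F x ω = slam F x ω' → y ω = y ω') ∧
      (∀ ω ω', B ω → B ω' → Fam.pt F ω = Fam.pt F ω' → y ω = y ω' ∧ z ω = z ω') ∧
      ∀ ω, z ω = zpl i₀ iu y₀ l P (y ω) (psc F i₀ iu iN y₀ l P (y ω) ω) (F.t ω) := by
  classical
  obtain ⟨φ, hφ⟩ := hκp
  obtain ⟨ψ, hψ⟩ := hκs
  obtain ⟨q, hq⟩ : ∃ q, q = Pool.Agent.H49.Ent.cond F.p A True := ⟨_, rfl⟩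
  have hql : IsLaw q := by rw [hq]; exact isLaw_cond F.isLaw hA
  have hqA : ∀ ω, 0 < q ω → A ω := fun ω hω => by
    rw [hq] at hω
    have := ((cond_pos_iff F.isLaw.nonneg A True ω).1 hω).2
    simpa using this
  have hxJ : x ≤ J := by omega
  have hl0 : (0 : ℝ) < 2 ^ l := by positivity
  have hl4 : (1 : ℝ) / 2 ^ l ≤ 1 / 4 := by
    have := inv_mono hl
    norm_num at this
    norm_num
    exact this
  obtain ⟨ez, hez⟩ : ∃ ez : F.Ω → ℤ, ez = fun ω => ⌊(2 : ℝ) ^ l * ζ (slam F x ω)⌋ := ⟨_, rfl⟩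
  have hnear : ∀ ω, A ω → |(ez ω : ℝ) / 2 ^ l - e (Fam.pt F ω)| ≤ 2 / 2 ^ l := by
    intro ω hω
    have h1 := floor_near l (ζ (slam F x ω))
    have h2 := hz ω hω
    have h3 : (2 : ℝ) / 2 ^ l = 1 / 2 ^ l + 1 / 2 ^ l := by ring
    have h4 : (ez ω : ℝ) = ⌊(2 : ℝ) ^ l * ζ (slam F x ω)⌋ := by rw [hez]
    rw [h4, h3]
    rw [abs_le] at h1 h2 ⊢
    constructor <;> linarith [h1.1, h1.2, h2.1, h2.2]
  have hE : ∀ ω, A ω → |(ez ω : ℝ) / 2 ^ l| ≤ 2 := by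
    intro ω hω
    have h1 := hnear ω hω
    have h2 := he ω hω
    have h3 := abs_sub_abs_le_abs_sub ((ez ω : ℝ) / 2 ^ l) (e (Fam.pt F ω))
    have h4 : (2 : ℝ) / 2 ^ l = 1 / 2 ^ l + 1 / 2 ^ l := by ring
    linarith
  have hU : ∀ ω, A ω → |fu i₀ iu ((ez ω : ℝ) / 2 ^ l) (F.d ω) - n (Fam.pt F ω)| ≤ 3 / 2 ^ l := by
    intro ω hω
    have h1 := hnear ω hω
    have h2 := hL ω hω
    have e1 : fu i₀ iu ((ez ω : ℝ) / 2 ^ l) (F.d ω) - n (Fam.pt F ω) =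
        (F.d ω iu - e (Fam.pt F ω) * F.d ω i₀ - n (Fam.pt F ω)) -
          ((ez ω : ℝ) / 2 ^ l - e (Fam.pt F ω)) * F.d ω i₀ := by unfold fu; ring
    rw [e1]
    refine (abs_sub _ _).trans ?_
    rw [abs_mul]
    have h3 := mul_le_mul h1 (F.dir ω i₀) (abs_nonneg _) (by positivity)
    have h4 : (3 : ℝ) / 2 ^ l = 1 / 2 ^ l + 2 / 2 ^ l * 1 := by ring
    linarith
  -- the cells
  obtain ⟨Z, hZ⟩ : ∃ Z : F.Ω → Fin 10 → ℤ, Z = nzc F i₀ iu iN x y₀ l P ez (fun ω => pl (κ ω)) :=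
    ⟨_, rfl⟩
  obtain ⟨M, hM⟩ : ∃ M, M = 8 * (C + 9) + 10 := ⟨_, rfl⟩
  obtain ⟨δ, hδ⟩ : ∃ δ, δ = 10 * Real.log (2 * M + 1) := ⟨_, rfl⟩
  have hδ0 : 0 < δ := by
    rw [hδ]
    have : 0 < Real.log (2 * M + 1) := Real.log_pos (by rw [hM]; linarith)
    positivity
  have hCH : CH q Z (Fam.pt F) ≤ δ := by
    have h := CH_le_seq hql (Fam.pt F) Z (fun _ _ => M) (by
      intro i ω ω' hω hω' hs hj
      have Aω := hqA ω hω
      have Aω' := hqA ω' hω'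
      have hk : κ ω = κ ω' := by rw [hφ ω Aω, hφ ω' Aω', hs]
      rcases eq_or_ne i 0 with hi0 | hi0
      · rw [hi0, hZ]
        change |((ez ω - ez ω' : ℤ) : ℝ)| ≤ M
        have h1 := hnear ω Aω
        have h2 := hnear ω' Aω'
        rw [← hs] at h2
        have h3 : |(ez ω : ℝ) / 2 ^ l - (ez ω' : ℝ) / 2 ^ l| ≤ 4 / 2 ^ l := by
          have h4 : (4 : ℝ) / 2 ^ l = 2 / 2 ^ l + 2 / 2 ^ l := by ring
          rw [h4]
          rw [abs_le] at h1 h2 ⊢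
          constructor <;> linarith [h1.1, h1.2, h2.1, h2.2]
        rw [← sub_div, abs_div, abs_of_pos hl0, div_le_div_iff_of_pos_right hl0] at h3
        push_cast
        rw [hM]
        linarith
      · have h0 : ez ω = ez ω' := by
          have := hj 0 (Fin.pos_of_ne_zero hi0)
          rw [hZ] at this
          exact this
        rw [hZ, hM]
        refine nzc_vis hi hC hvT hy hxy hP (n := n (Fam.pt F ω)) (by rw [hk]) h0 hs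
          (hI ω Aω) (hI ω' Aω') (hE ω Aω) (hU ω Aω) ?_ i
        rw [hs]
        exact hU ω' Aω')
    refine h.trans (le_of_eq ?_)
    simp only [Ex_const hql.sum_one]
    rw [hδ]
    norm_num
  obtain ⟨ζ', hζ'⟩ := exists_fns_of_CH (n := 1) (S := fun _ => Fin 10 → ℤ)
    (T := fun _ => (Fin 3 → ℤ) × (ℕ × F.ζ)) hql (fun _ => Z) (fun _ => Fam.pt F) hδ0
    (fun _ => hCH)
  rw [hq, Pe_cond, le_div_iff₀ hA] at hζ'
  obtain ⟨y, hy'⟩ : ∃ y : F.Ω → Pln, y = fun ω => plg i₀ iu x l P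
    (fun _ => rfr ((ez ω : ℝ) / 2 ^ l) (pl (κ ω)))
    (kmc F i₀ iu iN x l P (rfr ((ez ω : ℝ) / 2 ^ l) (pl (κ ω))) ω, 0) (F.T1 x ω) := ⟨_, rfl⟩
  have hyI : ∀ ω, A ω → Inc i₀ iu iN x l P 2 (y ω) (F.t ω) (F.x ω) (F.d ω) := by
    intro ω hω
    have h1 := hI ω hω
    have := plg_Inc F hi (l2 := l) (P2 := P) hxJ
      (R := fun _ => rfr ((ez ω : ℝ) / 2 ^ l) (pl (κ ω))) (k := 0) (hE ω hω) h1.c_le h1.s_le ω
    rw [hy']
    exact this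
  have hps : ∀ ω, psc F i₀ iu iN y₀ l P (y ω) ω =
      psc F i₀ iu iN y₀ l P (rfr ((ez ω : ℝ) / 2 ^ l) (pl (κ ω))) ω := fun ω => by
    rw [hy']; rfl
  refine ⟨fun ω => A ω ∧ ∀ i : Fin 1, Z ω = ζ' i (Fam.pt F ω), fun ω hω => hω.1, ?_, y,
    fun ω => zpl i₀ iu y₀ l P (y ω) (psc F i₀ iu iN y₀ l P (y ω) ω) (F.t ω), fun ω => ?_,
    fun ω hω => ?_, hyI, fun ω hω => zpl_Inc hi hxy (hyI ω hω), ?_, ?_, fun ω => rfl⟩
  · refine le_trans (le_of_eq ?_) hζ'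
    rw [hδ, hM]
    unfold cNat
    norm_num
  · rw [hy']
    exact ⟨rfl, rfl⟩
  · rw [hy']
    exact hnear ω hω
  · intro ω ω' hω hω' hs
    have h1 : slam F v ω = slam F v ω' := Pool.S6K.slam_mono hv hxJ hs
    have hk : κ ω = κ ω' := by rw [hψ ω hω, hψ ω' hω', h1]
    have h2 : ez ω = ez ω' := by rw [hez]; beta_reduce; rw [hs]
    have h3 := kmc_slam (i₀ := i₀) (iu := iu) (iN := iN) (l := l) (P := P)
      (r := rfr ((ez ω : ℝ) / 2 ^ l) (pl (κ ω))) rfl hs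
    have h4 : F.T1 x ω = F.T1 x ω' := (Prod.ext_iff.mp (Prod.ext_iff.mp hs).2).2
    rw [hy']
    beta_reduce
    rw [h3, h4, h2, hk]
  · intro ω ω' hω hω' hs
    have h1 : Z ω = Z ω' := by
      rw [hω.2 0, hω'.2 0, hs]
    have hk : κ ω = κ ω' := by rw [hφ ω hω.1, hφ ω' hω'.1, hs]
    rw [hZ] at h1
    obtain ⟨c1, c2, c3⟩ := nzc_ext h1
    have hT : F.T ω = F.T ω' := (Prod.ext_iff.mp (Prod.ext_iff.mp hs).2).1
    have ht : F.t ω = F.t ω' := by unfold Fam.t; rw [hT]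
    have hT1 : F.T1 x ω = F.T1 x ω' := by unfold Fam.T1; rw [hT]
    have hyy : y ω = y ω' := by
      rw [hy']
      beta_reduce
      rw [c2, hT1, c1, hk]
    refine ⟨hyy, ?_⟩
    change zpl i₀ iu y₀ l P (y ω) (psc F i₀ iu iN y₀ l P (y ω) ω) (F.t ω) =
      zpl i₀ iu y₀ l P (y ω') (psc F i₀ iu iN y₀ l P (y ω') ω') (F.t ω')
    rw [hps ω, hps ω', c3, hyy, ht]

end Pool.S6C
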