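import Pool.Agent.H75.S6C.SNA

/-!
# The straightness in the direction of the normals of the planks does not depend on the planks
-/

set_option autoImplicit false

namespace Pool.S6C

open Finset Real
open Pool.Agent.H49.Ent Pool.Agent.H32.Dense Pool.STK Pool.KA Pool.KSAT Pool.K2S Pool.PB Pool.KS6

theorem qSN_hered (i₀ : Fin 3) (v t s : ℝ) (J : ℕ) (F : Fam 3 J) :
    Hered (qSN i₀ v t s J F) := by
  rintro A B hB ⟨iu, iN, hi, y, h1, ⟨φ, h2⟩, ⟨ψ, h3⟩, b, k, h4⟩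
  exact ⟨iu, iN, hi, y, fun ω hω => h1 ω (hB _ hω), ⟨φ, fun ω hω => h2 ω (hB _ hω)⟩,
    ⟨ψ, fun ω hω => h3 ω (hB _ hω)⟩, b, k, fun ω hω => h4 ω (hB _ hω)⟩

/-- Large parts of events of small defect have small defect. -/
theorem sub_base {m : ℕ} {S : PCl m} {c C : ℝ} (hc : 0 < c) (hC : 1 ≤ C) :
    Clp S (fun J F A => ∀ G : F.Ω → Prop, Sub G A → Pe F.p A ≤ C * Pe F.p G → S.St c J F G) := by
  obtain ⟨J₁, hJ₁⟩ := Pool.S6K.exp_small (κ := c / 2) (C := C) (by linarith) hC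
  refine Clp.base (c / 2) (by linarith) J₁ fun J hJ F A hS G hG hP => ?_
  have h1 := S.res (τ' := c / 2) (by linarith) hS hG (by
    have hC0 : 0 < C := by linarith
    calc Real.exp (-(c / 2 * J)) * Pe F.p A ≤ 1 / C * Pe F.p A :=
          mul_le_mul_of_nonneg_right (hJ₁ J hJ) (Pe_nonneg F.isLaw A)
      _ ≤ 1 / C * (C * Pe F.p G) := mul_le_mul_of_nonneg_left hP (by positivity)
      _ = Pe F.p G := by field_simp)
  rwa [add_halves] at h1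

theorem pow_err {q l w P lp G : ℕ} (h : G + q + l + w + 13 ≤ P + lp) :
    (1600 : ℝ) * 2 ^ q * 2 ^ l * (2 ^ w / 2 ^ P) * (1 / 2 ^ lp) ≤ 1 / 4 * (1 / 2 ^ G) := by
  obtain ⟨m, hm⟩ := Nat.exists_eq_add_of_le h
  have e1 : (2 : ℝ) ^ P * 2 ^ lp = 2 ^ G * (2 ^ q * 2 ^ l * 2 ^ w) * (8192 * 2 ^ m) := by
    rw [← pow_add, hm]
    have : (8192 : ℝ) = 2 ^ 13 := by norm_num
    rw [this]
    ring
  have e2 : (1600 : ℝ) * 2 ^ q * 2 ^ l * (2 ^ w / 2 ^ P) * (1 / 2 ^ lp) =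
      1600 * (2 ^ q * 2 ^ l * 2 ^ w) / (2 ^ P * 2 ^ lp) := by
    field_simp
  have e3 : (1 : ℝ) / 4 * (1 / 2 ^ G) = 1 / (4 * 2 ^ G) := by
    field_simp
  rw [e2, e3, div_le_div_iff₀ (by positivity) (by positivity), e1]
  have a1 : (0 : ℝ) < 2 ^ G * (2 ^ q * 2 ^ l * 2 ^ w) := by positivity
  have a2 : (1 : ℝ) ≤ 2 ^ m := one_le_pow₀ (by norm_num)
  linarith [mul_le_mul_of_nonneg_left a2 a1.le]

theorem pow_err4 {g G : ℕ} (h : G + 4 ≤ g) :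
    (4 : ℝ) * (1 / 2 ^ g) ≤ 1 / 4 * (1 / 2 ^ G) := by
  have h1 : (1 : ℝ) / 2 ^ g ≤ 1 / 2 ^ (G + 4) := inv_mono h
  have h2 : (1 : ℝ) / 2 ^ (G + 4) = 1 / 2 ^ G / 16 := by
    rw [pow_add]
    field_simp
    norm_num
  rw [h2] at h1
  linarith

/-- **Independence of the planks.** If the velocities are straight to precision `g` in the direction
of the normals of the planks `y`, then they are straight in the direction of the normals of the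
planks `y'`. -/
theorem ind_clp {S : PCl 3} {a R h₁ : ℝ} {i₀ : Fin 3} {c s₂ : ℝ} {r : ℝ → ℝ} {D : Set ℝ}
    {σ : ℝ → Row} (hC : Cs S a R h₁ i₀ c s₂ r D σ) (v₁ : ℚ) (hv0 : 0 ≤ v₁) (hv1 : v₁ ≤ 1)
    (turn : (σ 1).rot v₁ < (σ 1).pi) {w w' : ℚ} (hw0 : 0 ≤ w) (hw : w ≤ v₁) (hw0' : 0 ≤ w')
    (hw' : w' ≤ v₁) {s s' g g' C : ℝ} (hg0 : 0 ≤ g') (h1 : g' < g)
    (h2 : g' < s - w + ((σ 1).pi - (σ 1).rot v₁)) (h3 : g' < s' - w' + ((σ 1).pi - (σ 1).rot v₁))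
    (hC1 : 1 ≤ C) :
    Clp S (fun J F A => ∀ G : F.Ω → Prop, Sub G A → Pe F.p A ≤ C * Pe F.p G →
      ∀ iu iN iu' iN' : Fin 3, (∀ j : Fin 3, j = i₀ ∨ j = iu ∨ j = iN) →
      (∀ j : Fin 3, j = i₀ ∨ j = iu' ∨ j = iN') → ∀ y y' : F.Ω → Pln,
      (∀ ω, G ω → Inc i₀ iu iN ⌊(w : ℝ) * J⌋₊ 0 ⌊s * J⌋₊ 2 (y ω) (F.t ω) (F.x ω) (F.d ω)) →
      (∀ ω, G ω →
        Inc i₀ iu' iN' ⌊(w' : ℝ) * J⌋₊ 0 ⌊s' * J⌋₊ 2 (y' ω) (F.t ω) (F.x ω) (F.d ω)) →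
      (∃ φ : (Fin 3 → ℤ) × (ℕ × F.ζ) → Pln, ∀ ω, G ω → y ω = φ (ptq F J ω)) →
      (∃ φ : (Fin 3 → ℤ) × (ℕ × F.ζ) → Pln, ∀ ω, G ω → y' ω = φ (ptq F J ω)) →
      (∃ ψ : ((Fin 3 → ℝ) × (Fin 3 → ℝ)) × F.ζ × ℕ → Pln, ∀ ω, G ω →
        y ω = ψ (slam F ⌊(w : ℝ) * J⌋₊ ω)) →
      (∃ ψ : ((Fin 3 → ℝ) × (Fin 3 → ℝ)) × F.ζ × ℕ → Pln, ∀ ω, G ω →
        y' ω = ψ (slam F ⌊(w' : ℝ) * J⌋₊ ω)) →
      ∀ b k : (Fin 3 → ℤ) × (ℕ × F.ζ) → ℝ, (∀ ω, G ω →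
        |fn i₀ iu iN (y ω).c (y ω).s (F.d ω) - b (ptq F J ω) - k (ptq F J ω) * F.d ω i₀| ≤
          1 / 2 ^ ⌊g * J⌋₊) →
      ∃ B : F.Ω → Prop, Sub B G ∧ Pe F.p G ≤ 4 * Pe F.p B ∧
        ∃ b' k' : (Fin 3 → ℤ) × (ℕ × F.ζ) → ℝ, ∀ ω, B ω →
        |fn i₀ iu' iN' (y' ω).c (y' ω).s (F.d ω) - b' (ptq F J ω) -
          k' (ptq F J ω) * F.d ω i₀| ≤ 1 / 2 ^ ⌊g' * J⌋₊) := by
  classical
  have hR1 := hC.row 1 one_pos le_rfl hC.D1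
  have hpi1 : (σ 1).pi ≤ 1 := num_le_cap hC.ne zero_le_one hR1.pi
  have hrot0 : 0 ≤ (σ 1).rot v₁ := num_nonneg hC.ne (hR1.rot v₁ hv0 hv1)
  obtain ⟨β, hβ⟩ : ∃ β, β = (σ 1).pi - (σ 1).rot v₁ := ⟨_, rfl⟩
  have hβ0 : 0 < β := by rw [hβ]; linarith
  rw [← hβ] at h2 h3
  obtain ⟨η, hη⟩ : ∃ η, η = min (min β (g - g')) (min (s - w + β - g') (s' - w' + β - g')) :=
    ⟨_, rfl⟩
  have hη0 : 0 < η := by
    rw [hη]
    exact lt_min (lt_min hβ0 (by linarith)) (lt_min (by linarith) (by linarith))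
  have η1 : η ≤ β := by rw [hη]; exact (min_le_left _ _).trans (min_le_left _ _)
  have η2 : η ≤ g - g' := by rw [hη]; exact (min_le_left _ _).trans (min_le_right _ _)
  have η3 : η ≤ s - w + β - g' := by rw [hη]; exact (min_le_right _ _).trans (min_le_left _ _)
  have η4 : η ≤ s' - w' + β - g' := by rw [hη]; exact (min_le_right _ _).trans (min_le_right _ _)
  obtain ⟨x, hx⟩ : ∃ x, x = min (η / 8) (min h₁ 1 / 4) := ⟨_, rfl⟩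
  have hx0 : 0 < x := by
    rw [hx]
    have := lt_min hC.h₁0 one_pos
    exact lt_min (by linarith) (by linarith)
  have hxη : x ≤ η / 8 := by rw [hx]; exact min_le_left _ _
  have hx1 : x ≤ h₁ / 4 := by
    rw [hx]
    refine (min_le_right _ _).trans ?_
    have := min_le_left h₁ 1
    linarith
  have hx2 : x ≤ 1 / 4 := by
    rw [hx]
    refine (min_le_right _ _).trans ?_
    have := min_le_right h₁ 1
    linarith
  obtain ⟨τ, hτ, J₁, hbase⟩ := ind_base hC v₁ hv0 hv1 (h := η / 8) (x := x) (by linarith)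
    (by linarith) hx0
  obtain ⟨J₃, hJ₃⟩ := exists_nat_gt (64 / η + 32 / h₁ + 16)
  refine Clp.mono (J₂ := max J₁ J₃) ((sub_base (S := S) hτ hC1).and
    (hR1.pi.1 (η / 8) (by linarith))) ?_
  rintro J hJ F A ⟨d1, d2⟩ G hG hPG iu iN iu' iN' hi hi' y y' hI hI' hφ hφ' hψ hψ' b k hb
  have hJ1 : J₁ ≤ J := (le_max_left _ _).trans hJ
  have hJr : 64 / η + 32 / h₁ + 16 < J :=
    hJ₃.trans_le (by exact_mod_cast (le_max_right _ _).trans hJ)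
  have q1 : 0 < 64 / η := by positivity
  have q2 : 0 < 32 / h₁ := div_pos (by norm_num) hC.h₁0
  have hJη : 64 < J * η := by
    have : 64 / η < J := by linarith
    rwa [div_lt_iff₀ hη0] at this
  have hJh₁ : 32 < J * h₁ := by
    have : 32 / h₁ < J := by linarith
    rwa [div_lt_iff₀ hC.h₁0] at this
  have hJ0 : (0 : ℝ) ≤ J := Nat.cast_nonneg J
  have hJ16 : (16 : ℝ) < J := by linarith
  rcases d2 with d2 | ⟨-, e, n, hL⟩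
  · linarith
  rw [ptq_one F] at hL
  obtain ⟨q, hq⟩ : ∃ q, q = ⌈x * J⌉₊ := ⟨_, rfl⟩
  have hq1 : x * J ≤ q := by rw [hq]; exact Nat.le_ceil _
  have hq2 : (q : ℝ) < x * J + 1 := by rw [hq]; exact Nat.ceil_lt_add_one (by positivity)
  have hxJ : x * J ≤ η / 8 * J := mul_le_mul_of_nonneg_right hxη hJ0
  have hqJ : q ≤ J := by
    have e1 : x * J ≤ 1 / 4 * J := mul_le_mul_of_nonneg_right hx2 hJ0
    have : (q : ℝ) ≤ J := by linarith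
    exact_mod_cast this
  have hqh : q + 2 ≤ ⌊h₁ * J⌋₊ := by
    refine Nat.le_floor ?_
    push_cast
    have e1 : x * J ≤ h₁ / 4 * J := mul_le_mul_of_nonneg_right hx1 hJ0
    linarith
  obtain ⟨l, hl⟩ : ∃ l, l = ⌊((σ 1).rot v₁ + η / 8) * J⌋₊ := ⟨_, rfl⟩
  obtain ⟨lp, hlp⟩ : ∃ lp, lp = ⌊((σ 1).pi - η / 8) * J⌋₊ := ⟨_, rfl⟩
  obtain ⟨w₀, hw₀⟩ : ∃ w₀, w₀ = ⌊(w : ℝ) * J⌋₊ := ⟨_, rfl⟩
  obtain ⟨w₁, hw₁⟩ : ∃ w₁, w₁ = ⌊(w' : ℝ) * J⌋₊ := ⟨_, rfl⟩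
  obtain ⟨P, hP⟩ : ∃ P, P = ⌊s * J⌋₊ := ⟨_, rfl⟩
  obtain ⟨P', hP'⟩ : ∃ P', P' = ⌊s' * J⌋₊ := ⟨_, rfl⟩
  obtain ⟨γ, hγ⟩ : ∃ γ, γ = ⌊g * J⌋₊ := ⟨_, rfl⟩
  obtain ⟨γ', hγ'⟩ : ∃ γ', γ' = ⌊g' * J⌋₊ := ⟨_, rfl⟩
  have hw0r : (0 : ℝ) ≤ w := by exact_mod_cast hw0
  have hw0r' : (0 : ℝ) ≤ w' := by exact_mod_cast hw0'
  have f1 : (l : ℝ) ≤ ((σ 1).rot v₁ + η / 8) * J := by
    rw [hl]; exact Nat.floor_le (by positivity)
  have f2 : ((σ 1).pi - η / 8) * J < lp + 1 := by rw [hlp]; exact Nat.lt_floor_add_one _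
  have f3 : (w₀ : ℝ) ≤ w * J := by rw [hw₀]; exact Nat.floor_le (by positivity)
  have f4 : (w₁ : ℝ) ≤ w' * J := by rw [hw₁]; exact Nat.floor_le (by positivity)
  have f5 : s * J < P + 1 := by rw [hP]; exact Nat.lt_floor_add_one _
  have f6 : s' * J < P' + 1 := by rw [hP']; exact Nat.lt_floor_add_one _
  have f7 : g * J < γ + 1 := by rw [hγ]; exact Nat.lt_floor_add_one _
  have f8 : (γ' : ℝ) ≤ g' * J := by rw [hγ']; exact Nat.floor_le (by positivity)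
  have m1 : η * J ≤ ((σ 1).pi - (σ 1).rot v₁) * J := by
    rw [← hβ]; exact mul_le_mul_of_nonneg_right η1 hJ0
  have m2 : η * J ≤ (g - g') * J := mul_le_mul_of_nonneg_right η2 hJ0
  have m3 : η * J ≤ (s - w + β - g') * J := mul_le_mul_of_nonneg_right η3 hJ0
  have m4 : η * J ≤ (s' - w' + β - g') * J := mul_le_mul_of_nonneg_right η4 hJ0
  rw [hβ] at m3 m4
  have n1 : l + q + 5 ≤ lp := by
    have : ((l + q + 5 : ℕ) : ℝ) < ((lp + 1 : ℕ) : ℝ) := by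
      push_cast
      linarith
    have : l + q + 5 < lp + 1 := by exact_mod_cast this
    omega
  have n2 : γ' + 4 ≤ γ := by
    have : ((γ' + 4 : ℕ) : ℝ) < ((γ + 1 : ℕ) : ℝ) := by
      push_cast
      linarith
    have : γ' + 4 < γ + 1 := by exact_mod_cast this
    omega
  have n3 : γ' + q + l + w₀ + 13 ≤ P + lp := by
    have : ((γ' + q + l + w₀ + 13 : ℕ) : ℝ) < ((P + lp + 1 : ℕ) : ℝ) := by
      push_cast
      linarith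
    have : γ' + q + l + w₀ + 13 < P + lp + 1 := by exact_mod_cast this
    omega
  have n4 : γ' + q + l + w₁ + 13 ≤ P' + lp := by
    have : ((γ' + q + l + w₁ + 13 : ℕ) : ℝ) < ((P' + lp + 1 : ℕ) : ℝ) := by
      push_cast
      linarith
    have : γ' + q + l + w₁ + 13 < P' + lp + 1 := by exact_mod_cast this
    omega
  have hwv : w₀ ≤ ⌊(v₁ : ℝ) * J⌋₊ := by
    rw [hw₀]
    exact Nat.floor_le_floor (mul_le_mul_of_nonneg_right (by exact_mod_cast hw) hJ0)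
  have hwv' : w₁ ≤ ⌊(v₁ : ℝ) * J⌋₊ := by
    rw [hw₁]
    exact Nat.floor_le_floor (mul_le_mul_of_nonneg_right (by exact_mod_cast hw') hJ0)
  rw [← hlp] at hL
  rw [← hw₀, ← hP] at hI
  rw [← hw₁, ← hP'] at hI'
  rw [← hw₀] at hψ
  rw [← hw₁] at hψ'
  rw [← hγ] at hb
  rw [← hγ']
  obtain ⟨B, hB, hPB, b', k', hb'⟩ := hbase J hJ1 F G (d1 G hG hPG) q lp hqJ hq1 hqh
    (by rw [← hl]; exact n1) e n (hL.sub hG) iu iN iu' iN' hi hi' w₀ w₁ P P' hwv hwv' y y'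
    hI hI' hφ hφ' hψ hψ' γ b k hb
  refine ⟨B, hB, hPB, b', k', fun ω hω => (hb' ω hω).trans ?_⟩
  rw [← hl]
  have k1 := pow_err4 n2
  have k2 := pow_err n3
  have k3 := pow_err n4
  have k4 : (1600 : ℝ) * 2 ^ q * 2 ^ l * (2 ^ w₀ / 2 ^ P + 2 ^ w₁ / 2 ^ P') * (1 / 2 ^ lp) =
      1600 * 2 ^ q * 2 ^ l * (2 ^ w₀ / 2 ^ P) * (1 / 2 ^ lp) +
      1600 * 2 ^ q * 2 ^ l * (2 ^ w₁ / 2 ^ P') * (1 / 2 ^ lp) := by ring
  rw [k4]
  have k5 : (0 : ℝ) < 1 / 2 ^ γ' := by positivity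
  linarith

/-- Labels below the thickness. -/
theorem lab_clp {S : PCl 3} {a R h₁ : ℝ} {i₀ : Fin 3} {c s₂ : ℝ} {r : ℝ → ℝ} {D : Set ℝ}
    {σ : ℝ → Row} (hC : Cs S a R h₁ i₀ c s₂ r D σ) {v : ℚ} (hv0 : 0 ≤ v) (hv1 : v ≤ 1) {t : ℝ}
    (ht0 : 0 ≤ t) (ht : t < (σ 1).th v) :
    Clp S (fun J F A => ∃ iu iN : Fin 3, (∀ j : Fin 3, j = i₀ ∨ j = iu ∨ j = iN) ∧
      LABq F J i₀ iu iN ⌊(v : ℝ) * J⌋₊ 0 ⌊t * J⌋₊ 2 A) := by
  have hR1 := hC.row 1 one_pos le_rfl hC.D1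
  refine Clp.mono (J₂ := 0) ((hR1.th v hv0 hv1).1 (((σ 1).th v - t) / 2) (by linarith)) ?_
  rintro J - F A (h | ⟨-, iu, iN, hi, hL⟩)
  · linarith
  · refine ⟨iu, iN, hi, ?_⟩
    have hJ : ⌊(1 : ℝ) * J⌋₊ = J := by rw [one_mul, Nat.floor_natCast]
    rw [hJ] at hL
    refine lab_thin (by norm_num) hL ?_
    exact Nat.floor_le_floor (mul_le_mul_of_nonneg_right (by linarith) (Nat.cast_nonneg J))

/-- **The numbers `sN`** for two planks on windows below a window on which the directions turn. -/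
theorem sn_min {S : PCl 3} {a R h₁ : ℝ} {i₀ : Fin 3} {c s₂ : ℝ} {r : ℝ → ℝ} {D : Set ℝ}
    {σ : ℝ → Row} (hC : Cs S a R h₁ i₀ c s₂ r D σ) (v₁ : ℚ) (hv0 : 0 ≤ v₁) (hv1 : v₁ ≤ 1)
    (turn : (σ 1).rot v₁ < (σ 1).pi) {w w' s s' : ℚ} (hw0 : 0 ≤ w) (hw : w ≤ v₁) (hw0' : 0 ≤ w')
    (hw' : w' ≤ v₁) (hs0 : 0 ≤ s) (hs1 : s ≤ 1) (hs0' : 0 ≤ s') (hs1' : s' ≤ 1)
    (hs' : (s' : ℝ) < (σ 1).th w') :
    min ((σ 1).sN w s) (min ((s : ℝ) - w) ((s' : ℝ) - w') + ((σ 1).pi - (σ 1).rot v₁)) ≤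
      (σ 1).sN w' s' := by
  obtain ⟨m, hm⟩ : ∃ m, m = min ((σ 1).sN w s)
    (min ((s : ℝ) - w) ((s' : ℝ) - w') + ((σ 1).pi - (σ 1).rot v₁)) := ⟨_, rfl⟩
  have m1 : m ≤ (σ 1).sN w s := by rw [hm]; exact min_le_left _ _
  have m2 : m ≤ (s : ℝ) - w + ((σ 1).pi - (σ 1).rot v₁) := by
    rw [hm]
    refine (min_le_right _ _).trans ?_
    have := min_le_left ((s : ℝ) - w) ((s' : ℝ) - w')
    linarith
  have m3 : m ≤ (s' : ℝ) - w' + ((σ 1).pi - (σ 1).rot v₁) := by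
    rw [hm]
    refine (min_le_right _ _).trans ?_
    have := min_le_right ((s : ℝ) - w) ((s' : ℝ) - w')
    linarith
  rw [← hm]
  have hN := hC.sN w s hw0 (hw.trans hv1) hs0 hs1
  have hN' := hC.sN w' s' hw0' (hw'.trans hv1) hs0' hs1'
  have m4 : m ≤ 1 := m1.trans (num_le_cap hC.ne zero_le_one hN)
  refine le_of_forall_pos_le_add fun e he => ?_
  have key : m - e ≤ (σ 1).sN w' s' := by
    refine PNum.att hC.ne (fun g J F => capS_hered (fun g J F => qSN_hered _ _ _ _ _ _) g J F) hN'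
      fun δ hδ => ?_
    by_cases hg : m - e ≤ 0
    · refine Clp.of one_pos 0 fun J _ F A _ => ⟨A, fun _ h => h, ?_, Or.inl hg⟩
      have : Real.exp (-(δ * J)) ≤ 1 := by
        rw [Real.exp_le_one_iff]
        have : 0 ≤ δ * J := by positivity
        linarith
      calc _ ≤ 1 * Pe F.p A := mul_le_mul_of_nonneg_right this (Pe_nonneg F.isLaw A)
        _ = _ := one_mul _
    push Not at hg
    obtain ⟨J₂, hJ₂⟩ := Pool.S6K.exp_small (κ := δ) (C := 4) hδ (by norm_num)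
    have c1 := hN.1 (e / 2) (by linarith)
    have c2 := lab_clp hC hw0' (hw'.trans hv1) (t := s') (by exact_mod_cast hs0') hs'
    have c3 := ind_clp hC v₁ hv0 hv1 turn hw0 hw hw0' hw' (s := s) (s' := s')
      (g := (σ 1).sN w s - e / 2) (g' := m - e) (C := 1) hg.le (by linarith) (by linarith)
      (by linarith) le_rfl
    refine Clp.mono (J₂ := J₂) ((c1.and c2).and c3) ?_
    rintro J hJ F A ⟨⟨d1, iu', iN', hi', y', hI', hφ', hψ'⟩, d3⟩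
    rcases d1 with d1 | ⟨-, iu, iN, hi, y, hI, hφ, hψ, b, k, hb⟩
    · linarith
    obtain ⟨B, hB, hPB, b', k', hb'⟩ := d3 A (fun _ h => h) (by linarith) iu iN iu' iN' hi hi' y y'
      hI hI' hφ hφ' hψ hψ' b k hb
    refine ⟨B, hB, ?_, Or.inr ⟨by linarith, iu', iN', hi', y', fun ω hω => hI' ω (hB _ hω),
      ?_, ?_, b', k', hb'⟩⟩
    · calc Real.exp (-(δ * J)) * Pe F.p A ≤ 1 / 4 * Pe F.p A :=
            mul_le_mul_of_nonneg_right (hJ₂ J hJ) (Pe_nonneg F.isLaw A)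
        _ ≤ Pe F.p B := by linarith
    · obtain ⟨φ', h⟩ := hφ'
      exact ⟨φ', fun ω hω => h ω (hB _ hω)⟩
    · obtain ⟨ψ', h⟩ := hψ'
      exact ⟨ψ', fun ω hω => h ω (hB _ hω)⟩
  linarith

/-- The planks bound the number `sN` of their own window. -/
theorem vel_le_sn {S : PCl 3} {a R h₁ : ℝ} {i₀ : Fin 3} {c s₂ : ℝ} {r : ℝ → ℝ} {D : Set ℝ}
    {σ : ℝ → Row} (hC : Cs S a R h₁ i₀ c s₂ r D σ) {w s : ℚ} (hw0 : 0 ≤ w) (hw1 : w ≤ 1)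
    (hs0 : 0 ≤ s) (hs1 : s ≤ 1) (hs : (s : ℝ) < (σ 1).th w) : (s : ℝ) - w ≤ (σ 1).sN w s := by
  have hN := hC.sN w s hw0 hw1 hs0 hs1
  have hw0r : (0 : ℝ) ≤ w := by exact_mod_cast hw0
  have hs1r : (s : ℝ) ≤ 1 := by exact_mod_cast hs1
  refine le_of_forall_pos_le_add fun e he => ?_
  have key : (s : ℝ) - w - e ≤ (σ 1).sN w s := by
    refine num_ge hC.ne hN ?_
    by_cases hg : (s : ℝ) - w - e ≤ 0
    · exact Clp.of one_pos 0 fun _ _ _ _ _ => Or.inl hg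
    push Not at hg
    obtain ⟨J₂, hJ₂⟩ := exists_nat_gt (8 / e)
    refine Clp.mono (J₂ := J₂) (lab_clp hC hw0 hw1 (t := s) (by exact_mod_cast hs0) hs) ?_
    rintro J hJ F A ⟨iu, iN, hi, y, hI, ⟨φ, hφ⟩, hψ⟩
    have hJ1 : 8 / e < J := hJ₂.trans_le (by exact_mod_cast hJ)
    have hJ8 : 8 < J * e := by rwa [div_lt_iff₀ he] at hJ1
    have hJ0 : (0 : ℝ) ≤ J := Nat.cast_nonneg J
    refine Or.inr ⟨by linarith, iu, iN, hi, y, hI, ⟨φ, hφ⟩, hψ,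
      fun u => fn i₀ iu iN (φ u).c (φ u).s (φ u).db, fun _ => 0, fun ω hω => ?_⟩
    beta_reduce
    rw [← hφ ω hω, zero_mul, sub_zero]
    refine (hI ω hω).vn.trans ?_
    obtain ⟨g, hg'⟩ : ∃ g, g = ⌊((s : ℝ) - w - e) * J⌋₊ := ⟨_, rfl⟩
    obtain ⟨P, hP⟩ : ∃ P, P = ⌊(s : ℝ) * J⌋₊ := ⟨_, rfl⟩
    obtain ⟨v, hv⟩ : ∃ v, v = ⌊(w : ℝ) * J⌋₊ := ⟨_, rfl⟩
    rw [← hg', ← hP, ← hv]
    have e1 : (g : ℝ) ≤ ((s : ℝ) - w - e) * J := by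
      rw [hg']
      exact Nat.floor_le (by positivity)
    have e2 : (v : ℝ) ≤ w * J := by
      rw [hv]
      exact Nat.floor_le (by positivity)
    have e3 : (s : ℝ) * J < P + 1 := by
      rw [hP]
      exact Nat.lt_floor_add_one _
    have e4 : g + v + 1 ≤ P := by
      have : (g : ℝ) + v + 1 < P + 1 := by linarith
      have : g + v + 1 < P + 1 := by exact_mod_cast this
      omega
    obtain ⟨k, rfl⟩ := Nat.exists_eq_add_of_le e4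
    rw [pow_add, pow_add, pow_add]
    have a1 : (0 : ℝ) < 2 ^ g := by positivity
    have a2 : (0 : ℝ) < 2 ^ v := by positivity
    have a3 : (1 : ℝ) ≤ 2 ^ k := one_le_pow₀ (by norm_num)
    rw [div_le_div_iff₀ (by positivity) a1]
    linarith [mul_le_mul_of_nonneg_left a3 (mul_pos a1 a2).le]
  linarith

/-- **(TS)** The planks at the windows `w` bound the straightness in the direction of the normals of
the planks at the window `v`. -/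
theorem th_le_sn {S : PCl 3} {a R h₁ : ℝ} {i₀ : Fin 3} {c s₂ : ℝ} {r : ℝ → ℝ} {D : Set ℝ}
    {σ : ℝ → Row} (hC : Cs S a R h₁ i₀ c s₂ r D σ) (v₁ : ℚ) (hv1 : v₁ ≤ 1)
    (turn : (σ 1).rot v₁ < (σ 1).pi) {w v t : ℚ} (hw0 : 0 ≤ w) (hw : w ≤ v₁) (hv0 : 0 ≤ v)
    (hv : v ≤ v₁) (ht0 : 0 ≤ t) (ht1 : t ≤ 1) (ht : (t : ℝ) < (σ 1).th v)
    (hwt : (σ 1).th w - w ≤ t - v + ((σ 1).pi - (σ 1).rot v₁)) :
    (σ 1).th w - w ≤ (σ 1).sN v t := by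
  have hR1 := hC.row 1 one_pos le_rfl hC.D1
  have hw0r : (0 : ℝ) ≤ w := by exact_mod_cast hw0
  have hsn0 : 0 ≤ (σ 1).sN v t := num_nonneg hC.ne (hC.sN v t hv0 (hv.trans hv1) ht0 ht1)
  have hth1 : (σ 1).th w ≤ 1 := num_le_cap hC.ne zero_le_one (hR1.th w hw0 (hw.trans hv1))
  refine le_of_forall_pos_le_add fun e he => ?_
  by_cases h0 : (σ 1).th w ≤ 0
  · linarith
  push Not at h0
  obtain ⟨s, hs1, hs2⟩ := exists_rat_btwn (max_lt h0 (by linarith : (σ 1).th w - e < (σ 1).th w))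
  have k0 : (0 : ℝ) < s := (le_max_left _ _).trans_lt hs1
  have k1 : (σ 1).th w - e < s := (le_max_right _ _).trans_lt hs1
  have s0 : (0 : ℚ) ≤ s := by exact_mod_cast k0.le
  have s1 : s ≤ 1 := by
    have : (s : ℝ) ≤ 1 := (hs2.trans_le hth1).le
    exact_mod_cast this
  have h1 := vel_le_sn hC hw0 (hw.trans hv1) s0 s1 hs2
  have h2 := sn_min hC v₁ (hw0.trans hw) hv1 turn hw0 hw hv0 hv s0 s1 ht0 ht1 ht
  have h3 : (s : ℝ) - w ≤ min ((σ 1).sN w s) (min ((s : ℝ) - w) ((t : ℝ) - v) +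
      ((σ 1).pi - (σ 1).rot v₁)) := by
    refine le_min h1 ?_
    rcases min_choice ((s : ℝ) - w) ((t : ℝ) - v) with h | h
    · rw [h]
      linarith
    · rw [h]
      linarith
  have h4 := h3.trans h2
  linarith

/-- **(IND)** for given planks: the velocities are straight to precision `g'` in the direction of the
normals of the planks `y`, on a part of the event. -/
theorem nst {S : PCl 3} {a R h₁ : ℝ} {i₀ : Fin 3} {c s₂ : ℝ} {r : ℝ → ℝ} {D : Set ℝ}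
    {σ : ℝ → Row} (hC : Cs S a R h₁ i₀ c s₂ r D σ) (v₁ : ℚ) (hv1 : v₁ ≤ 1)
    (turn : (σ 1).rot v₁ < (σ 1).pi) {w v t : ℚ} (hw0 : 0 ≤ w) (hw : w ≤ v₁) (hv0 : 0 ≤ v)
    (hv : v ≤ v₁) (ht0 : 0 ≤ t) (ht1 : t ≤ 1) {s g' C : ℝ} (hg0 : 0 ≤ g')
    (h1 : g' < (σ 1).sN v t) (h2 : g' < t - v + ((σ 1).pi - (σ 1).rot v₁))
    (h3 : g' < s - w + ((σ 1).pi - (σ 1).rot v₁)) (hC1 : 1 ≤ C) :
    Clp S (fun J F A => ∀ G : F.Ω → Prop, Sub G A → Pe F.p A ≤ C * Pe F.p G →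
      ∀ iu iN : Fin 3, (∀ j : Fin 3, j = i₀ ∨ j = iu ∨ j = iN) → ∀ y : F.Ω → Pln,
      (∀ ω, G ω → Inc i₀ iu iN ⌊(w : ℝ) * J⌋₊ 0 ⌊s * J⌋₊ 2 (y ω) (F.t ω) (F.x ω) (F.d ω)) →
      (∃ φ : (Fin 3 → ℤ) × (ℕ × F.ζ) → Pln, ∀ ω, G ω → y ω = φ (ptq F J ω)) →
      (∃ ψ : ((Fin 3 → ℝ) × (Fin 3 → ℝ)) × F.ζ × ℕ → Pln, ∀ ω, G ω →
        y ω = ψ (slam F ⌊(w : ℝ) * J⌋₊ ω)) →
      ∃ B : F.Ω → Prop, Sub B G ∧ Pe F.p G ≤ 4 * Pe F.p B ∧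
        ∃ b k : (Fin 3 → ℤ) × (ℕ × F.ζ) → ℝ, ∀ ω, B ω →
        |fn i₀ iu iN (y ω).c (y ω).s (F.d ω) - b (ptq F J ω) - k (ptq F J ω) * F.d ω i₀| ≤
          1 / 2 ^ ⌊g' * J⌋₊) := by
  have hN := hC.sN v t hv0 (hv.trans hv1) ht0 ht1
  have c1 := hN.1 (((σ 1).sN v t - g') / 2) (by linarith)
  have c3 := ind_clp hC v₁ (hw0.trans hw) hv1 turn hv0 hv hw0 hw (s := t) (s' := s)
    (g := (σ 1).sN v t - ((σ 1).sN v t - g') / 2) (g' := g') (C := C) hg0 (by linarith)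
    (by linarith) (by linarith) hC1
  refine Clp.mono (J₂ := 0) (c1.and c3) ?_
  rintro J - F A ⟨d1, d3⟩ G hG hPG iu' iN' hi' y' hI' hφ' hψ'
  rcases d1 with d1 | ⟨-, iu, iN, hi, y, hI, ⟨φ, hφ⟩, ⟨ψ, hψ⟩, b, k, hb⟩
  · linarith
  exact d3 G hG hPG iu iN iu' iN' hi hi' y y' (fun ω hω => hI ω (hG _ hω)) hI'
    ⟨φ, fun ω hω => hφ ω (hG _ hω)⟩ hφ' ⟨ψ, fun ω hω => hψ ω (hG _ hω)⟩ hψ' b k
    fun ω hω => hb ω (hG _ hω)

/-- **(IND)**, exclusion: the velocities are not straight to a precision above `sN`, in the direction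
of the normals of any planks. -/
theorem not_nst {S : PCl 3} {a R h₁ : ℝ} {i₀ : Fin 3} {c s₂ : ℝ} {r : ℝ → ℝ} {D : Set ℝ}
    {σ : ℝ → Row} (hC : Cs S a R h₁ i₀ c s₂ r D σ) (v₁ : ℚ) (hv1 : v₁ ≤ 1)
    (turn : (σ 1).rot v₁ < (σ 1).pi) {w v t : ℚ} (hw0 : 0 ≤ w) (hw : w ≤ v₁) (hv0 : 0 ≤ v)
    (hv : v ≤ v₁) (ht0 : 0 ≤ t) (ht1 : t ≤ 1) (ht : (t : ℝ) < (σ 1).th v) {s g : ℝ}
    (h0 : (σ 1).sN v t < 1) (h1 : (σ 1).sN v t < g)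
    (h2 : (σ 1).sN v t < t - v + ((σ 1).pi - (σ 1).rot v₁))
    (h3 : (σ 1).sN v t < s - w + ((σ 1).pi - (σ 1).rot v₁)) :
    Clp S (fun J F A => ¬ qSN i₀ w s g J F A) := by
  have hN := hC.sN v t hv0 (hv.trans hv1) ht0 ht1
  have hsn0 : 0 ≤ (σ 1).sN v t := num_nonneg hC.ne hN
  obtain ⟨g', hg1, hg2⟩ := exists_between (lt_min (lt_min h0 h1) (lt_min h2 h3))
  have g1 : g' < 1 := hg2.trans_le ((min_le_left _ _).trans (min_le_left _ _))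
  have g2 : g' < g := hg2.trans_le ((min_le_left _ _).trans (min_le_right _ _))
  have g3 := hg2.trans_le ((min_le_right _ _).trans (min_le_left _ _))
  have g4 := hg2.trans_le ((min_le_right _ _).trans (min_le_right _ _))
  have hn := hN.2 (g' - (σ 1).sN v t) (by linarith)
  have e1 : (σ 1).sN v t + (g' - (σ 1).sN v t) = g' := by ring
  rw [e1] at hn
  obtain ⟨c', hc', J₁, hnb⟩ := Clp.neg_base
    (fun J F => capS_hered (fun g J F => qSN_hered _ _ _ _ _ _) g' J F) hn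
  have c1 := sub_base (S := S) hc' (by norm_num : (1 : ℝ) ≤ 4)
  have c2 := lab_clp hC hv0 (hv.trans hv1) (t := t) (by exact_mod_cast ht0) ht
  have c3 := ind_clp hC v₁ (hw0.trans hw) hv1 turn hw0 hw hv0 hv (s := s) (s' := t)
    (g := g) (g' := g') (C := 1) (by linarith) g2 g4 g3 le_rfl
  refine Clp.mono (J₂ := J₁) ((c1.and c2).and c3) ?_
  rintro J hJ F A ⟨⟨d1, iu', iN', hi', y', hI', ⟨φ', hφ'⟩, ψ', hψ'⟩, d3⟩
    ⟨iu, iN, hi, y, hI, hφ, hψ, b, k, hb⟩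
  obtain ⟨B, hB, hPB, b', k', hb'⟩ := d3 A (fun _ h => h) (by linarith) iu iN iu' iN' hi hi' y y'
    hI hI' hφ ⟨φ', hφ'⟩ hψ ⟨ψ', hψ'⟩ b k hb
  refine hnb J hJ F B (d1 B hB hPB) (Or.inr ⟨g1.le, iu', iN', hi', y',
    fun ω hω => hI' ω (hB _ hω), ⟨φ', fun ω hω => hφ' ω (hB _ hω)⟩,
    ⟨ψ', fun ω hω => hψ' ω (hB _ hω)⟩, b', k', hb'⟩)

end Pool.S6C
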