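import Pool.Agent.H75.S6C.SNB

/-!
# Regime beta: the velocities in the plank do not lie near lines
-/

set_option autoImplicit false

namespace Pool.S6C

open Finset Real
open Pool.Agent.H49.Ent Pool.Agent.H32.Dense Pool.STK Pool.KA Pool.KSAT Pool.K2S Pool.PB Pool.KS6

theorem qPi_hered (i₀ : Fin 3) (Q s : ℝ) (J : ℕ) (F : Fam 3 J) : Hered (qPi i₀ Q s J F) := by
  rintro A B hB ⟨e, n, h⟩
  exact ⟨e, n, fun ω hω => h ω (hB _ hω)⟩

/-- The straightness of the fans, one family: if the velocities of the plank lie near a line with a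
coefficient which is not small in the direction across the fan, then the fans are straight to a
higher precision. -/
theorem line_of_tube {J : ℕ} (F : Fam 3 J) {i₀ iu iN : Fin 3}
    (hi : ∀ j : Fin 3, j = i₀ ∨ j = iu ∨ j = iN) {w lam P L m g : ℕ} {B : F.Ω → Prop}
    {y : F.Ω → Pln} (hI : ∀ ω, B ω → Inc i₀ iu iN w lam P 2 (y ω) (F.t ω) (F.x ω) (F.d ω))
    (hφ : ∃ φ : (Fin 3 → ℤ) × (ℕ × F.ζ) → Pln, ∀ ω, B ω → y ω = φ (ptq F J ω))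
    {aa bb cc : (Fin 3 → ℤ) × (ℕ × F.ζ) → ℝ}
    (hb : ∀ ω, B ω → 1 / 2 ^ m ≤ |bb (ptq F J ω)|)
    (ht : ∀ ω, B ω → |aa (ptq F J ω) * F.d ω i₀ + bb (ptq F J ω) * (2 ^ lam *
      fu i₀ iu (y ω).e (F.d ω)) - cc (ptq F J ω)| ≤ 1 / 2 ^ L)
    (h1 : g + m + 3 ≤ L + lam) (h2 : g + w + 3 ≤ P) :
    LineU i₀ (1 / 2 ^ g) (Fam.pt F) F.d B := by
  obtain ⟨φ, hφ⟩ := hφ
  obtain ⟨n1, n2, n3⟩ := three hi
  refine ⟨fun u j => if j = i₀ then 1 else if j = iu then (φ u).e - aa u / (bb u * 2 ^ lam) else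
      -(φ u).c - (φ u).s * ((φ u).e - aa u / (bb u * 2 ^ lam)),
    fun u j => if j = i₀ then 0 else if j = iu then cc u / (bb u * 2 ^ lam) else
      fn i₀ iu iN (φ u).c (φ u).s (φ u).db - (φ u).s * (cc u / (bb u * 2 ^ lam)),
    fun ω hω j => ?_⟩
  obtain ⟨u, hu⟩ : ∃ u, u = ptq F J ω := ⟨_, rfl⟩
  have hpt : Fam.pt F ω = u := by rw [hu]; rfl
  have hy : y ω = φ u := by rw [hu]; exact hφ ω hω
  have b0 := hb ω hω
  have t0 := ht ω hω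
  have I0 := hI ω hω
  rw [← hu] at b0 t0
  rw [hy] at t0 I0
  rw [hpt]
  beta_reduce
  have g0 : (0 : ℝ) < 1 / 2 ^ g := by positivity
  have m0 : (0 : ℝ) < 1 / 2 ^ m := by positivity
  have hbp : 0 < |bb u| := lt_of_lt_of_le m0 b0
  have hb0 : bb u ≠ 0 := abs_pos.mp hbp
  have hl0 : (0 : ℝ) < 2 ^ lam := by positivity
  -- the coordinate `iu`
  have eu : |F.d ω iu - ((φ u).e - aa u / (bb u * 2 ^ lam)) * F.d ω i₀ -
      cc u / (bb u * 2 ^ lam)| ≤ 1 / 8 * (1 / 2 ^ g) := by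
    have e1 : F.d ω iu - ((φ u).e - aa u / (bb u * 2 ^ lam)) * F.d ω i₀ -
        cc u / (bb u * 2 ^ lam) =
        (aa u * F.d ω i₀ + bb u * (2 ^ lam * fu i₀ iu (φ u).e (F.d ω)) - cc u) /
          (bb u * 2 ^ lam) := by
      unfold fu
      field_simp
      ring
    rw [e1, abs_div, abs_mul, abs_of_pos hl0, div_le_iff₀ (by positivity)]
    refine t0.trans ?_
    have k1 : (1 : ℝ) / 8 * (1 / 2 ^ g) * (1 / 2 ^ m * 2 ^ lam) ≤
        1 / 8 * (1 / 2 ^ g) * (|bb u| * 2 ^ lam) :=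
      mul_le_mul_of_nonneg_left (mul_le_mul_of_nonneg_right b0 hl0.le) (by positivity)
    refine le_trans ?_ k1
    obtain ⟨k, hk⟩ := Nat.exists_eq_add_of_le h1
    have e2 : (2 : ℝ) ^ L * 2 ^ lam = 2 ^ g * 2 ^ m * 8 * 2 ^ k := by
      rw [← pow_add, hk]
      have : (8 : ℝ) = 2 ^ 3 := by norm_num
      rw [this]
      ring
    have e3 : (1 : ℝ) / 8 * (1 / 2 ^ g) * (1 / 2 ^ m * 2 ^ lam) =
        2 ^ lam / (2 ^ g * 2 ^ m * 8) := by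
      field_simp
    rw [e3, div_le_div_iff₀ (by positivity) (by positivity)]
    have a1 : (0 : ℝ) < 2 ^ g * 2 ^ m * 8 := by positivity
    have a2 : (1 : ℝ) ≤ 2 ^ k := one_le_pow₀ (by norm_num)
    have e4 : (2 : ℝ) ^ lam * 2 ^ L = 2 ^ g * 2 ^ m * 8 * 2 ^ k := by rw [mul_comm]; exact e2
    rw [e4]
    have := mul_le_mul_of_nonneg_left a2 a1.le
    linarith
  have eN : |fn i₀ iu iN (φ u).c (φ u).s (F.d ω) - fn i₀ iu iN (φ u).c (φ u).s (φ u).db| ≤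
      1 / 4 * (1 / 2 ^ g) := by
    refine I0.vn.trans ?_
    obtain ⟨k, hk⟩ := Nat.exists_eq_add_of_le h2
    have e2 : (2 : ℝ) * 2 ^ w / 2 ^ P = 1 / 4 * (1 / 2 ^ g) * (1 / 2 ^ k) := by
      rw [hk, pow_add, pow_add, pow_add]
      field_simp
      norm_num
    rw [e2]
    have a2 : (1 : ℝ) / 2 ^ k ≤ 1 := by
      rw [div_le_one (by positivity)]
      exact one_le_pow₀ (by norm_num)
    calc (1 : ℝ) / 4 * (1 / 2 ^ g) * (1 / 2 ^ k) ≤ 1 / 4 * (1 / 2 ^ g) * 1 :=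
          mul_le_mul_of_nonneg_left a2 (by positivity)
      _ = _ := mul_one _
  rcases hi j with h | h | h
  · rw [if_pos h, if_pos h, h]
    have : F.d ω i₀ - 1 * F.d ω i₀ - 0 = 0 := by ring
    rw [this, abs_zero]
    exact g0.le
  · have hj : j ≠ i₀ := by rw [h]; exact n1
    rw [if_neg hj, if_neg hj, if_pos h, if_pos h, h]
    linarith
  · have hj : j ≠ i₀ := by rw [h]; exact n2
    have hj' : j ≠ iu := by rw [h]; exact n3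
    rw [if_neg hj, if_neg hj, if_neg hj', if_neg hj', h]
    have e1 : F.d ω iN - (-(φ u).c - (φ u).s * ((φ u).e - aa u / (bb u * 2 ^ lam))) *
        F.d ω i₀ - (fn i₀ iu iN (φ u).c (φ u).s (φ u).db -
          (φ u).s * (cc u / (bb u * 2 ^ lam))) =
        (fn i₀ iu iN (φ u).c (φ u).s (F.d ω) - fn i₀ iu iN (φ u).c (φ u).s (φ u).db) -
        (φ u).s * (F.d ω iu - ((φ u).e - aa u / (bb u * 2 ^ lam)) * F.d ω i₀ -
          cc u / (bb u * 2 ^ lam)) := by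
      unfold fn
      ring
    rw [e1]
    refine (abs_sub _ _).trans ?_
    rw [abs_mul]
    have k1 := mul_le_mul I0.s_le eu (abs_nonneg _) (by norm_num)
    linarith

/-- **No tubes.** In regime beta no event of small defect has its velocities, in the units of the
plank, near a line which is a function of the point. -/
theorem tube_gen {S : PCl 3} {a R h₁ : ℝ} {i₀ : Fin 3} {c s₂ : ℝ} {r : ℝ → ℝ} {D : Set ℝ}
    {σ : ℝ → Row} (hC : Cs S a R h₁ i₀ c s₂ r D σ) {h k μ : ℝ} (hh : 0 < h) (hk0 : 0 ≤ k)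
    (hk : k ≤ h / 8) (hμ : 0 < μ) :
    ∃ τ > 0, ∃ J₁ : ℕ, ∀ J ≥ J₁, ∀ (F : Fam 3 J) (B : F.Ω → Prop), S.St τ J F B →
      ∀ iu iN : Fin 3, (∀ j : Fin 3, j = i₀ ∨ j = iu ∨ j = iN) → ∀ w P : ℕ,
      (w : ℝ) + ((σ 1).pi + μ) * J ≤ P → P ≤ J → ∀ y : F.Ω → Pln,
      (∀ ω, B ω → Inc i₀ iu iN w ⌊((σ 1).pi - k) * J⌋₊ P 2 (y ω) (F.t ω)
        (F.x ω) (F.d ω)) →
      (∃ φ : (Fin 3 → ℤ) × (ℕ × F.ζ) → Pln, ∀ ω, B ω → y ω = φ (ptq F J ω)) →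
      ∀ aa bb cc : (Fin 3 → ℤ) × (ℕ × F.ζ) → ℝ,
      (∀ ω, B ω → 1 / 2 ≤ |aa (ptq F J ω)| ∨ 1 / 2 ≤ |bb (ptq F J ω)|) →
      (∀ ω, B ω → |aa (ptq F J ω) * F.d ω i₀ + bb (ptq F J ω) *
        (2 ^ ⌊((σ 1).pi - k) * J⌋₊ * fu i₀ iu (y ω).e (F.d ω)) - cc (ptq F J ω)| ≤
          1 / 2 ^ ⌊h * J⌋₊) → False := by
  classical
  have hR1 := hC.row 1 one_pos le_rfl hC.D1
  have hpi0 : 0 ≤ (σ 1).pi := num_nonneg hC.ne hR1.pi
  obtain ⟨δ, hδ⟩ : ∃ δ, δ = min (h / 8) (μ / 2) := ⟨_, rfl⟩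
  have hδ0 : 0 < δ := by rw [hδ]; exact lt_min (by linarith) (by linarith)
  have hδ1 : δ ≤ h / 8 := by rw [hδ]; exact min_le_left _ _
  have hδ2 : δ ≤ μ / 2 := by rw [hδ]; exact min_le_right _ _
  obtain ⟨τ₁, hτ₁, J₁, hn⟩ := Clp.neg_base
    (fun J F => capS_hered (fun s J F => qPi_hered i₀ 1 s J F) ((σ 1).pi + δ) J F)
    (hR1.pi.2 δ hδ0)
  obtain ⟨x₁, hx₁⟩ : ∃ x₁, x₁ = min (h / 8) (min h₁ 1 / 4) := ⟨_, rfl⟩
  have hx₁0 : 0 < x₁ := by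
    rw [hx₁]
    have := lt_min hC.h₁0 one_pos
    exact lt_min (by linarith) (by linarith)
  have hxh : x₁ ≤ h / 8 := by rw [hx₁]; exact min_le_left _ _
  have hx1 : x₁ ≤ h₁ / 4 := by
    rw [hx₁]
    refine (min_le_right _ _).trans ?_
    have := min_le_left h₁ 1
    linarith
  have hx2 : x₁ ≤ 1 / 4 := by
    rw [hx₁]
    refine (min_le_right _ _).trans ?_
    have := min_le_right h₁ 1
    linarith
  obtain ⟨τ₂, hτ₂, J₂, hsp⟩ := spread_part hC.a1 hC.R0 hC.ub hC.st hC.lb hx₁0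
  obtain ⟨τ, hτ⟩ : ∃ τ, τ = min τ₁ τ₂ / 2 := ⟨_, rfl⟩
  have hτm : 0 < min τ₁ τ₂ := lt_min hτ₁ hτ₂
  have hτ0 : 0 < τ := by rw [hτ]; linarith
  obtain ⟨J₃, hJ₃⟩ := Pool.S6K.exp_small (κ := τ) (C := 2) hτ0 (by norm_num)
  obtain ⟨J₄, hJ₄⟩ := exists_nat_gt (64 / h + 64 / h₁ + 16 + 16 / δ)
  refine ⟨τ, hτ0, max (max J₁ J₂) (max J₃ J₄), ?_⟩
  intro J hJ F B hS iu iN hi w P hwP hPJ y hI ⟨φ, hφ⟩ aa bb cc hab ht
  have hJ1 : J₁ ≤ J := ((le_max_left _ _).trans (le_max_left _ _)).trans hJ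
  have hJ2 : J₂ ≤ J := ((le_max_right _ _).trans (le_max_left _ _)).trans hJ
  have hJ3 : J₃ ≤ J := ((le_max_left _ _).trans (le_max_right _ _)).trans hJ
  have hJ4 : J₄ ≤ J := ((le_max_right _ _).trans (le_max_right _ _)).trans hJ
  have hJr : 64 / h + 64 / h₁ + 16 + 16 / δ < J := hJ₄.trans_le (by exact_mod_cast hJ4)
  have q1 : 0 < 64 / h := by positivity
  have q2 : 0 < 64 / h₁ := div_pos (by norm_num) hC.h₁0
  have q3 : 0 < 16 / δ := by positivity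
  have hJh : 64 < J * h := by
    have : 64 / h < J := by linarith
    rwa [div_lt_iff₀ hh] at this
  have hJh₁ : 64 < J * h₁ := by
    have : 64 / h₁ < J := by linarith
    rwa [div_lt_iff₀ hC.h₁0] at this
  have hJδ : 16 < J * δ := by
    have : 16 / δ < J := by linarith
    rwa [div_lt_iff₀ hδ0] at this
  have hJ0 : (0 : ℝ) ≤ J := Nat.cast_nonneg J
  have hJ16 : (16 : ℝ) < J := by linarith
  obtain ⟨lam, hlam⟩ : ∃ lam, lam = ⌊((σ 1).pi - k) * J⌋₊ := ⟨_, rfl⟩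
  obtain ⟨L, hL⟩ : ∃ L, L = ⌊h * J⌋₊ := ⟨_, rfl⟩
  obtain ⟨m, hm⟩ : ∃ m, m = ⌊h / 2 * J⌋₊ := ⟨_, rfl⟩
  obtain ⟨g, hg⟩ : ∃ g, g = ⌊((σ 1).pi + δ) * J⌋₊ := ⟨_, rfl⟩
  rw [← hlam] at hI
  rw [← hlam, ← hL] at ht
  have f1 : ((σ 1).pi - k) * J < lam + 1 := by rw [hlam]; exact Nat.lt_floor_add_one _
  have f2 : h * J < L + 1 := by rw [hL]; exact Nat.lt_floor_add_one _
  have f3 : (m : ℝ) ≤ h / 2 * J := by rw [hm]; exact Nat.floor_le (by positivity)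
  have f4 : (g : ℝ) ≤ ((σ 1).pi + δ) * J := by rw [hg]; exact Nat.floor_le (by positivity)
  have f7 : h / 2 * J < m + 1 := by rw [hm]; exact Nat.lt_floor_add_one _
  have m1 : δ * J ≤ h / 8 * J := mul_le_mul_of_nonneg_right hδ1 hJ0
  have m2 : k * J ≤ h / 8 * J := mul_le_mul_of_nonneg_right hk hJ0
  have m3 : δ * J ≤ μ / 2 * J := mul_le_mul_of_nonneg_right hδ2 hJ0
  have hpm : (σ 1).pi + μ ≤ 1 := by
    have h1 : ((σ 1).pi + μ) * J ≤ 1 * J := by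
      have h2 : (P : ℝ) ≤ J := by exact_mod_cast hPJ
      have h3 : (0 : ℝ) ≤ w := Nat.cast_nonneg w
      linarith
    exact le_of_mul_le_mul_right h1 (by linarith)
  have m4 : x₁ * J ≤ h / 8 * J := mul_le_mul_of_nonneg_right hxh hJ0
  have mono : ∀ B' : F.Ω → Prop, Sub B' B → Pe F.p B ≤ 2 * Pe F.p B' →
      S.St (min τ₁ τ₂) J F B' := by
    intro B' hB' hP'
    have h1 := S.res (τ' := τ) hτ0.le hS hB' (by
      calc Real.exp (-(τ * J)) * Pe F.p B ≤ 1 / 2 * Pe F.p B :=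
            mul_le_mul_of_nonneg_right (hJ₃ J hJ3) (Pe_nonneg F.isLaw B)
        _ ≤ Pe F.p B' := by linarith)
    have e1 : τ + τ = min τ₁ τ₂ := by rw [hτ]; ring
    rwa [e1] at h1
  by_cases hcase : Pe F.p (fun ω => B ω ∧ |bb (ptq F J ω)| < 1 / 2 ^ m) ≤ Pe F.p B / 2
  · -- the coefficient is not small: the fans are straight
    have hPB := Pe_diff hcase
    have e2 : Real.exp (-Real.log 2) = 1 / 2 := by
      rw [Real.exp_neg, Real.exp_log (by norm_num)]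
      norm_num
    rw [e2] at hPB
    obtain ⟨B', hB'⟩ : ∃ B' : F.Ω → Prop, B' = fun ω => B ω ∧ ¬ |bb (ptq F J ω)| < 1 / 2 ^ m :=
      ⟨_, rfl⟩
    rw [← hB'] at hPB
    have hsub : Sub B' B := by
      intro ω hω
      rw [hB'] at hω
      exact hω.1
    have hS' := mono B' hsub (by linarith)
    refine hn J hJ1 F B' (S.mono (min_le_left _ _) hS') (Or.inr ⟨by linarith, ?_⟩)
    unfold qPi
    rw [ptq_one F, ← hg]
    refine line_of_tube F hi (fun ω hω => hI ω (hsub ω hω)) ⟨φ, fun ω hω => hφ ω (hsub ω hω)⟩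
      (aa := aa) (bb := bb) (cc := cc) (m := m) (L := L) (fun ω hω => ?_)
      (fun ω hω => ht ω (hsub ω hω)) ?_ ?_
    · rw [hB'] at hω
      exact not_lt.mp hω.2
    · have : ((g + m + 3 : ℕ) : ℝ) < ((L + lam + 1 : ℕ) : ℝ) := by
        push_cast
        linarith
      have : g + m + 3 < L + lam + 1 := by exact_mod_cast this
      omega
    · have : ((g + w + 3 : ℕ) : ℝ) < ((P + 1 : ℕ) : ℝ) := by
        push_cast
        linarith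
      have : g + w + 3 < P + 1 := by exact_mod_cast this
      omega
  · -- the coefficient is small: balls
    push Not at hcase
    obtain ⟨B', hB'⟩ : ∃ B' : F.Ω → Prop, B' = fun ω => B ω ∧ |bb (ptq F J ω)| < 1 / 2 ^ m :=
      ⟨_, rfl⟩
    rw [← hB'] at hcase
    have hsub : Sub B' B := by
      intro ω hω
      rw [hB'] at hω
      exact hω.1
    have hS' := S.mono (min_le_right τ₁ τ₂) (mono B' hsub (by linarith))
    obtain ⟨q, hq⟩ : ∃ q, q = ⌈x₁ * J⌉₊ := ⟨_, rfl⟩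
    have hq1 : x₁ * J ≤ q := by rw [hq]; exact Nat.le_ceil _
    have hq2 : (q : ℝ) < x₁ * J + 1 := by rw [hq]; exact Nat.ceil_lt_add_one (by positivity)
    have hqJ : q ≤ J := by
      have e1 : x₁ * J ≤ 1 / 4 * J := mul_le_mul_of_nonneg_right hx2 hJ0
      have : (q : ℝ) ≤ J := by linarith
      exact_mod_cast this
    have hqh : q + 2 ≤ ⌊h₁ * J⌋₊ := by
      refine Nat.le_floor ?_
      push_cast
      have e1 : x₁ * J ≤ h₁ / 4 * J := mul_le_mul_of_nonneg_right hx1 hJ0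
      linarith
    obtain ⟨B₃, hB₃, hPB₃, hpr⟩ := hsp J hJ2 F B' hS' q hqJ hq1 hqh
    have hpos : 0 < Pe F.p B' := lt_of_lt_of_le (Real.exp_pos _) (hC.st _ _ _ _ hS').2.2.2
    have hpos3 : 0 < Pe F.p B₃ := lt_of_lt_of_le (mul_pos (Real.exp_pos _) hpos) hPB₃
    obtain ⟨ω, hω⟩ : ∃ ω, B₃ ω := by
      by_contra hcon
      push Not at hcon
      have : Pe F.p B₃ = 0 := by
        unfold Pe
        exact Finset.sum_eq_zero fun ω _ => if_neg fun h => hcon ω (of_eq_true h)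
      linarith
    obtain ⟨ω', ω'', b1, b2, b3, b4, b5⟩ := hpr ω hω
    have B1 := hsub _ (hB₃ _ b1)
    have B2 := hsub _ (hB₃ _ b2)
    have p3 : ptq F J ω' = ptq F J ω := b3
    have p4 : ptq F J ω'' = ptq F J ω := b4
    have y1 : y ω' = y ω := by
      rw [hφ _ B1, hφ _ (hsub _ (hB₃ _ hω)), p3]
    have y2 : y ω'' = y ω := by
      rw [hφ _ B2, hφ _ (hsub _ (hB₃ _ hω)), p4]
    have t1 := ht _ B1
    have t2 := ht _ B2
    have v1 := (hI _ B1).vu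
    have v2 := (hI _ B2).vu
    rw [p3, y1] at t1
    rw [p4, y2] at t2
    rw [y1] at v1
    rw [y2] at v2
    have hbs : |bb (ptq F J ω)| < 1 / 2 ^ m := by
      have := hB₃ _ hω
      rw [hB'] at this
      exact this.2
    have hm1 : 8 ≤ m := by
      have : ((8 : ℕ) : ℝ) < ((m + 1 : ℕ) : ℝ) := by
        push_cast
        linarith
      have : 8 < m + 1 := by exact_mod_cast this
      omega
    have hmh : (1 : ℝ) / 2 ^ m ≤ 1 / 2 := by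
      have := inv_mono (show 1 ≤ m by omega)
      rwa [pow_one] at this
    have haa : 1 / 2 ≤ |aa (ptq F J ω)| := by
      rcases hab _ (hsub _ (hB₃ _ hω)) with h | h
      · exact h
      · linarith
    have hLm : m ≤ L := by
      rw [hm, hL]
      exact Nat.floor_le_floor (mul_le_mul_of_nonneg_right (by linarith) hJ0)
    have i1 : (1 : ℝ) / 2 ^ L ≤ 1 / 2 ^ m := inv_mono hLm
    have l0 : (0 : ℝ) < 2 ^ lam := by positivity
    -- the difference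
    have e1 : aa (ptq F J ω) * (F.d ω' i₀ - F.d ω'' i₀) =
        ((aa (ptq F J ω) * F.d ω' i₀ + bb (ptq F J ω) * (2 ^ lam *
          fu i₀ iu (y ω).e (F.d ω')) - cc (ptq F J ω)) -
        (aa (ptq F J ω) * F.d ω'' i₀ + bb (ptq F J ω) * (2 ^ lam *
          fu i₀ iu (y ω).e (F.d ω'')) - cc (ptq F J ω))) -
        bb (ptq F J ω) * (2 ^ lam * ((fu i₀ iu (y ω).e (F.d ω') - fu i₀ iu (y ω).e (y ω).db) -
          (fu i₀ iu (y ω).e (F.d ω'') - fu i₀ iu (y ω).e (y ω).db))) := by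
      ring
    have k1 : |2 ^ lam * ((fu i₀ iu (y ω).e (F.d ω') - fu i₀ iu (y ω).e (y ω).db) -
          (fu i₀ iu (y ω).e (F.d ω'') - fu i₀ iu (y ω).e (y ω).db))| ≤ 4 := by
      rw [abs_mul, abs_of_pos l0]
      have k2 := abs_sub (fu i₀ iu (y ω).e (F.d ω') - fu i₀ iu (y ω).e (y ω).db)
        (fu i₀ iu (y ω).e (F.d ω'') - fu i₀ iu (y ω).e (y ω).db)
      have k3 : |(fu i₀ iu (y ω).e (F.d ω') - fu i₀ iu (y ω).e (y ω).db) -
          (fu i₀ iu (y ω).e (F.d ω'') - fu i₀ iu (y ω).e (y ω).db)| ≤ 4 / 2 ^ lam := by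
        refine k2.trans ((add_le_add v1 v2).trans (le_of_eq ?_))
        ring
      calc (2 : ℝ) ^ lam * _ ≤ 2 ^ lam * (4 / 2 ^ lam) := mul_le_mul_of_nonneg_left k3 l0.le
        _ = 4 := by field_simp
    have k4 : |aa (ptq F J ω)| * |F.d ω' i₀ - F.d ω'' i₀| ≤ 6 * (1 / 2 ^ m) := by
      rw [← abs_mul, e1]
      refine (abs_sub _ _).trans ?_
      rw [abs_mul (bb (ptq F J ω))]
      have k5 := mul_le_mul hbs.le k1 (abs_nonneg _) (by positivity)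
      have k6 := abs_sub (aa (ptq F J ω) * F.d ω' i₀ + bb (ptq F J ω) * (2 ^ lam *
          fu i₀ iu (y ω).e (F.d ω')) - cc (ptq F J ω))
        (aa (ptq F J ω) * F.d ω'' i₀ + bb (ptq F J ω) * (2 ^ lam *
          fu i₀ iu (y ω).e (F.d ω'')) - cc (ptq F J ω))
      linarith
    have k7 : 1 / 2 * (1 / 2 ^ (q + 1)) ≤ 6 * (1 / 2 ^ m : ℝ) :=
      (mul_le_mul haa b5 (by positivity) (abs_nonneg _)).trans k4
    have hqm : q + 6 ≤ m := by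
      have : ((q + 6 : ℕ) : ℝ) < ((m + 1 : ℕ) : ℝ) := by
        push_cast
        linarith
      have : q + 6 < m + 1 := by exact_mod_cast this
      omega
    have k8 : (1 : ℝ) / 2 ^ m ≤ 1 / 2 ^ (q + 6) := inv_mono hqm
    have k9 : (1 : ℝ) / 2 ^ (q + 6) = 1 / 2 ^ (q + 1) / 32 := by
      rw [show q + 6 = q + 1 + 5 by ring, pow_add 2 (q + 1) 5]
      field_simp
      norm_num
    have k10 : (0 : ℝ) < 1 / 2 ^ (q + 1) := by positivity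
    rw [k9] at k8
    linarith

/-- The same for one window. -/
theorem tube_base {S : PCl 3} {a R h₁ : ℝ} {i₀ : Fin 3} {c s₂ : ℝ} {r : ℝ → ℝ} {D : Set ℝ}
    {σ : ℝ → Row} (hC : Cs S a R h₁ i₀ c s₂ r D σ) {x : ℚ} (hx0 : 0 ≤ x) {p h k : ℝ}
    (hh : 0 < h) (hk0 : 0 ≤ k) (hk : k ≤ h / 8) (hp : (σ 1).pi < p - x) (hp1 : p ≤ 1) :
    ∃ τ > 0, ∃ J₁ : ℕ, ∀ J ≥ J₁, ∀ (F : Fam 3 J) (B : F.Ω → Prop), S.St τ J F B →
      ∀ iu iN : Fin 3, (∀ j : Fin 3, j = i₀ ∨ j = iu ∨ j = iN) → ∀ y : F.Ω → Pln,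
      (∀ ω, B ω → Inc i₀ iu iN ⌊(x : ℝ) * J⌋₊ ⌊((σ 1).pi - k) * J⌋₊ ⌊p * J⌋₊ 2 (y ω) (F.t ω)
        (F.x ω) (F.d ω)) →
      (∃ φ : (Fin 3 → ℤ) × (ℕ × F.ζ) → Pln, ∀ ω, B ω → y ω = φ (ptq F J ω)) →
      ∀ aa bb cc : (Fin 3 → ℤ) × (ℕ × F.ζ) → ℝ,
      (∀ ω, B ω → 1 / 2 ≤ |aa (ptq F J ω)| ∨ 1 / 2 ≤ |bb (ptq F J ω)|) →
      (∀ ω, B ω → |aa (ptq F J ω) * F.d ω i₀ + bb (ptq F J ω) *
        (2 ^ ⌊((σ 1).pi - k) * J⌋₊ * fu i₀ iu (y ω).e (F.d ω)) - cc (ptq F J ω)| ≤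
          1 / 2 ^ ⌊h * J⌋₊) → False := by
  obtain ⟨μ, hμ⟩ : ∃ μ, μ = (p - x - (σ 1).pi) / 2 := ⟨_, rfl⟩
  have hμ0 : 0 < μ := by rw [hμ]; linarith
  have hx0r : (0 : ℝ) ≤ x := by exact_mod_cast hx0
  obtain ⟨τ, hτ, J₁, hb⟩ := tube_gen hC hh hk0 hk hμ0
  obtain ⟨J₂, hJ₂⟩ := exists_nat_gt (1 / μ)
  refine ⟨τ, hτ, max J₁ J₂, fun J hJ F B hS iu iN hi y hI hφ aa bb cc hab ht => ?_⟩
  have hJr : 1 / μ < J := hJ₂.trans_le (by exact_mod_cast (le_max_right _ _).trans hJ)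
  rw [div_lt_iff₀ hμ0] at hJr
  have f5 : (⌊(x : ℝ) * J⌋₊ : ℝ) ≤ x * J := Nat.floor_le (by positivity)
  have f6 : p * J < ⌊p * J⌋₊ + 1 := Nat.lt_floor_add_one _
  have e1 : p = x + (σ 1).pi + 2 * μ := by rw [hμ]; ring
  refine hb J ((le_max_left _ _).trans hJ) F B hS iu iN hi ⌊(x : ℝ) * J⌋₊ ⌊p * J⌋₊ ?_
    (floor_row_one hp1 J) y hI hφ aa bb cc hab ht
  rw [e1] at f6 ⊢
  linarith

/-- **No tubes**, probabilities. -/
theorem tube_prob {S : PCl 3} {a R h₁ : ℝ} {i₀ : Fin 3} {c s₂ : ℝ} {r : ℝ → ℝ} {D : Set ℝ}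
    {σ : ℝ → Row} (hC : Cs S a R h₁ i₀ c s₂ r D σ) {x : ℚ} (hx0 : 0 ≤ x) {p h k : ℝ}
    (hh : 0 < h) (hk0 : 0 ≤ k) (hk : k ≤ h / 8) (hp : (σ 1).pi < p - x) (hp1 : p ≤ 1) :
    ∃ τ > 0, ∃ J₁ : ℕ, ∀ J ≥ J₁, ∀ (F : Fam 3 J) (A : F.Ω → Prop), S.St τ J F A →
      ∀ iu iN : Fin 3, (∀ j : Fin 3, j = i₀ ∨ j = iu ∨ j = iN) → ∀ y : F.Ω → Pln,
      (∀ ω, A ω → Inc i₀ iu iN ⌊(x : ℝ) * J⌋₊ ⌊((σ 1).pi - k) * J⌋₊ ⌊p * J⌋₊ 2 (y ω) (F.t ω)
        (F.x ω) (F.d ω)) →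
      (∃ φ : (Fin 3 → ℤ) × (ℕ × F.ζ) → Pln, ∀ ω, A ω → y ω = φ (ptq F J ω)) →
      ∀ aa bb cc : (Fin 3 → ℤ) × (ℕ × F.ζ) → ℝ,
      (∀ ω, A ω → 1 / 2 ≤ |aa (ptq F J ω)| ∨ 1 / 2 ≤ |bb (ptq F J ω)|) →
      Pe F.p (fun ω => A ω ∧ |aa (ptq F J ω) * F.d ω i₀ + bb (ptq F J ω) *
        (2 ^ ⌊((σ 1).pi - k) * J⌋₊ * fu i₀ iu (y ω).e (F.d ω)) - cc (ptq F J ω)| ≤
          1 / 2 ^ ⌊h * J⌋₊) ≤ Real.exp (-(τ * J)) * Pe F.p A := by
  obtain ⟨τ, hτ, J₁, hb⟩ := tube_base hC hx0 hh hk0 hk hp hp1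
  refine ⟨τ / 2, by linarith, J₁, fun J hJ F A hS iu iN hi y hI hφ aa bb cc hab => ?_⟩
  by_contra hcon
  push Not at hcon
  have hsub : Sub (fun ω => A ω ∧ |aa (ptq F J ω) * F.d ω i₀ + bb (ptq F J ω) *
        (2 ^ ⌊((σ 1).pi - k) * J⌋₊ * fu i₀ iu (y ω).e (F.d ω)) - cc (ptq F J ω)| ≤
          1 / 2 ^ ⌊h * J⌋₊) A := fun ω hω => hω.1
  have hS' := S.res (τ' := τ / 2) (by linarith) hS hsub hcon.le
  rw [add_halves] at hS'
  obtain ⟨φ, hφ⟩ := hφ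
  exact hb J hJ F _ hS' iu iN hi y (fun ω hω => hI ω hω.1) ⟨φ, fun ω hω => hφ ω hω.1⟩ aa bb cc
    (fun ω hω => hab ω hω.1) fun ω hω => hω.2

end Pool.S6C
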