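import Pool.Agent.H75.S6C.Nat4
import Pool.Agent.H75.S6C.Tub
import Pool.Agent.H75.S6C.Exh
import Pool.Agent.H32.S6U.Uvb
import Pool.Agent.H77.S6C.UV2

/-!
# Regime beta: the rows of a cell are full
-/

set_option autoImplicit false

namespace Pool.S6C

open Finset Real
open Pool.Agent.H49.Ent Pool.Agent.H32.Dense Pool.STK Pool.KA Pool.KSAT Pool.K2S Pool.PB Pool.KS6
  Pool.S6U Pool.S6V

/-- The own slope and the natural slope. -/
theorem slope_near {i₀ iu : Fin 3} {l q : ℕ} {C e al n nu : ℝ} (hC : 0 ≤ C) {d1 d2 : Fin 3 → ℝ}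
    (h1 : |d1 iu - e * d1 i₀ - n| ≤ 1 / 2 ^ l) (h2 : |d2 iu - e * d2 i₀ - n| ≤ 1 / 2 ^ l)
    (h3 : |d1 iu - al * d1 i₀ - nu| ≤ C / 2 ^ l) (h4 : |d2 iu - al * d2 i₀ - nu| ≤ C / 2 ^ l)
    (h5 : 1 / 2 ^ (q + 1) ≤ |d1 i₀ - d2 i₀|) :
    |al - e| ≤ (2 + 2 * C) * 2 ^ (q + 1) / 2 ^ l := by
  have h := frame_close (U := ℕ) (Ω := Bool) (i₀ := i₀) (j := iu)
    (d := fun b => if b then d1 else d2) (ω' := true) (ω'' := false) (e := e) (e' := al)
    (n := n) (n' := nu) (r := 1 / 2 ^ l) (r' := C / 2 ^ l) (δ := 1 / 2 ^ (q + 1))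
    (by simpa using h1) (by simpa using h2) (by simpa using h3) (by simpa using h4)
    (by positivity) (by simpa using h5)
  refine h.trans (le_of_eq ?_)
  field_simp

end Pool.S6C
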