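import Pool.Agent.H75.S6C.Uvb2

/-!
# Regime beta: the rows of a cell are full, entropy form
-/

set_option autoImplicit false

namespace Pool.S6C

open Finset Real
open Pool.Agent.H49.Ent Pool.Agent.H32.Dense Pool.STK Pool.KA Pool.KSAT Pool.K2S Pool.PB Pool.KS6
  Pool.S6U Pool.S6V

/-- **The rows of a cell in regime beta are full**, entropy form: the entropy of the box of the
window `y` given the box of the window `x`. -/
theorem uvb_ch {S : PCl 3} {a R h₁ : ℝ} {i₀ : Fin 3} {c s₂ : ℝ} {r : ℝ → ℝ} {D : Set ℝ}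
    {σ : ℝ → Row} (hC : Cs S a R h₁ i₀ c s₂ r D σ) (hpi : 0 < (σ 1).pi) {X : ℚ} (hX0 : 0 ≤ X)
    (hX1 : X ≤ 1) (hrot : (σ 1).rot X = (σ 1).pi) {μ η : ℝ} (hμ : 0 < μ) (hη : 0 < η) :
    ∃ k₀ : ℝ, 0 < k₀ ∧ ∀ k : ℝ, 0 < k → k ≤ k₀ → ∀ C : ℝ, 1 ≤ C → Clp S (fun J F A =>
      ∀ ς : Fin 3 → Fin 3, Function.Injective ς → ς 0 = i₀ →
      ∀ (Λ : Type) (κ : F.Ω → Λ) (pl : Λ → Pln) (al : F.Ω → ℝ) (v lamv T x y P : ℕ),
      v ≤ x → v + P ≤ x + T → ⌊(X : ℝ) * J⌋₊ ≤ x → x ≤ y →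
      (y : ℝ) + ((σ 1).pi + μ) * J ≤ P → P ≤ J →
      PkL F A ς v lamv T C κ pl → OwnS F A ς ⌊((σ 1).pi - k) * J⌋₊ C al →
      2 * (((y : ℝ) - x) * Real.log 2) - η * J ≤
        CH (Pool.Agent.H49.Ent.cond F.p A True)
          (F.sbx ς y (y + ⌊((σ 1).pi - k) * J⌋₊) P (ald ⌊((σ 1).pi - k) * J⌋₊ al)
            (fun ω => -(pl (κ ω)).s) (fun ω => -(pl (κ ω)).c))
          (fun ω => (F.sbx ς x (x + ⌊((σ 1).pi - k) * J⌋₊) P (ald ⌊((σ 1).pi - k) * J⌋₊ al)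
            (fun ω => -(pl (κ ω)).s) (fun ω => -(pl (κ ω)).c) ω,
            (Uni.dg ⌊((σ 1).pi - k) * J⌋₊ al ω, (κ ω, F.W ω))))) := by
  classical
  have hl2 : 0 < Real.log 2 := Real.log_pos one_lt_two
  have hl21 : Real.log 2 ≤ 1 := by
    have := Real.log_two_lt_d9
    linarith only [hl2, this]
  have hR1 := hC.row 1 one_pos le_rfl hC.D1
  obtain ⟨h₀, hh₀, hfam⟩ := uvb_thm (η / 4) (by linarith)
  refine ⟨min (h₀ / 8) ((σ 1).pi / 2), lt_min (by linarith) (by linarith), ?_⟩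
  intro k hk hkk C hC1
  have hk1 : k ≤ h₀ / 8 := hkk.trans (min_le_left _ _)
  have hk2 : k ≤ (σ 1).pi / 2 := hkk.trans (min_le_right _ _)
  obtain ⟨τ₁, hτ₁, J₁, htub⟩ := tube_gen hC hh₀ hk.le hk1 hμ
  obtain ⟨τ₂, hτ₂, J₂, hfam⟩ := hfam (τ₁ / 2) (by linarith only [hτ₁])
  obtain ⟨xs, hxs⟩ : ∃ xs, xs = min (min (η / 64) ((σ 1).pi / 8)) (min h₁ 1 / 4) := ⟨_, rfl⟩
  have hxs0 : 0 < xs := by
    rw [hxs]
    have := lt_min hC.h₁0 one_pos
    exact lt_min (lt_min (by linarith only [hη]) (by linarith only [hk, hk2])) (by linarith only [this])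
  have hxη : xs ≤ η / 64 := by rw [hxs]; exact (min_le_left _ _).trans (min_le_left _ _)
  have hxπ : xs ≤ (σ 1).pi / 8 := by rw [hxs]; exact (min_le_left _ _).trans (min_le_right _ _)
  have hx1 : xs ≤ h₁ / 4 := by
    rw [hxs]
    refine (min_le_right _ _).trans ?_
    have := min_le_left h₁ 1
    linarith only [this]
  have hx2 : xs ≤ 1 / 4 := by
    rw [hxs]
    refine (min_le_right _ _).trans ?_
    have := min_le_right h₁ 1
    linarith only [this]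
  obtain ⟨τ₃, hτ₃, J₃, hsp⟩ := spread_part hC.a1 hC.R0 hC.ub hC.st hC.lb hxs0
  obtain ⟨δ₀, hδ₀⟩ : ∃ δ₀, δ₀ = min (η / 8) 1 := ⟨_, rfl⟩
  have hδ00 : 0 < δ₀ := by rw [hδ₀]; exact lt_min (by linarith only [hxs0, hxη]) one_pos
  have hδ0η : δ₀ ≤ η / 8 := by rw [hδ₀]; exact min_le_left _ _
  have hδ01 : δ₀ ≤ 1 := by rw [hδ₀]; exact min_le_right _ _
  have hcN := cNat_pos C
  obtain ⟨C', hC'⟩ : ∃ C', C' = max 1 (2 / (δ₀ * cNat C)) := ⟨_, rfl⟩
  have hC'1 : 1 ≤ C' := by rw [hC']; exact le_max_left _ _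
  have hC'2 : 2 / (δ₀ * cNat C) ≤ C' := by rw [hC']; exact le_max_right _ _
  obtain ⟨K₀, hK₀⟩ : ∃ K₀, K₀ = 16 * (2 + 2 * C) + 35 := ⟨_, rfl⟩
  have hK₀1 : 1 ≤ K₀ := by rw [hK₀]; linarith only [hC1, hxs0, hx2]
  have hlK : 0 ≤ Real.log K₀ := Real.log_nonneg hK₀1
  obtain ⟨J₄, hJ₄⟩ := exists_nat_gt (64 / (σ 1).pi + 64 / h₁ + 16 + 56 * (Real.log K₀ + 1) / η +
    64 / k)
  have c1 := sub_base (S := S) hτ₃ (one_le_inv_iff₀.2 ⟨hδ00, hδ01⟩ : (1 : ℝ) ≤ δ₀⁻¹)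
  have c2 := sub_base (S := S) (lt_min (half_pos hτ₁) hτ₂) hC'1
  have c3 := (hR1.rot X hX0 hX1).1 (k / 2) (by linarith only [hk])
  refine Clp.mono (J₂ := max (max J₁ J₂) (max J₃ J₄)) ((c1.and c2).and c3) ?_
  rintro J hJ F A ⟨⟨d1, d2⟩, d3⟩ ς hς hς0 Λ κ pl al v lamv T x y P hvx hvT hXx hxy hyP hPJ
    ⟨hI, hκp, hκs⟩ ⟨⟨φa, hφa⟩, hab, nu, hnu⟩
  have hJ1 : J₁ ≤ J := ((le_max_left _ _).trans (le_max_left _ _)).trans hJ
  have hJ2 : J₂ ≤ J := ((le_max_right _ _).trans (le_max_left _ _)).trans hJ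
  have hJ3 : J₃ ≤ J := ((le_max_left _ _).trans (le_max_right _ _)).trans hJ
  have hJ4 : J₄ ≤ J := ((le_max_right _ _).trans (le_max_right _ _)).trans hJ
  have hJr : 64 / (σ 1).pi + 64 / h₁ + 16 + 56 * (Real.log K₀ + 1) / η + 64 / k < J :=
    hJ₄.trans_le (by exact_mod_cast hJ4)
  have q1 : 0 < 64 / (σ 1).pi := by positivity
  have q2 : 0 < 64 / h₁ := div_pos (by norm_num) hC.h₁0
  have q3 : 0 < 56 * (Real.log K₀ + 1) / η := by positivity
  have q4 : 0 < 64 / k := by positivity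
  have hJπ : 64 < J * (σ 1).pi := by
    have : 64 / (σ 1).pi < J := by linarith only [hxs0, hx2, hJr, q2, q3, q4]
    rwa [div_lt_iff₀ hpi] at this
  have hJh₁ : 64 < J * h₁ := by
    have : 64 / h₁ < J := by linarith only [hxs0, hx2, hJr, q1, q3, q4]
    rwa [div_lt_iff₀ hC.h₁0] at this
  have hJη : 56 * (Real.log K₀ + 1) < J * η := by
    have : 56 * (Real.log K₀ + 1) / η < J := by linarith only [hxs0, hx2, hJr, q1, q2, q4]
    rwa [div_lt_iff₀ hη] at this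
  have hJk : 64 < J * k := by
    have : 64 / k < J := by linarith only [hxs0, hx2, hJr, q1, q2, q3]
    rwa [div_lt_iff₀ hk] at this
  have hJ0 : (0 : ℝ) ≤ J := Nat.cast_nonneg J
  have hJ16 : (16 : ℝ) < J := by linarith only [hJr, q1, q2, q3, q4]
  have hi : ∀ j : Fin 3, j = i₀ ∨ j = ς 1 ∨ j = ς 2 := by
    intro j
    obtain ⟨k, hk⟩ := (Finite.injective_iff_surjective.1 hς) j
    rw [← hk, ← hς0]
    fin_cases k
    · exact Or.inl rfl
    · exact Or.inr (Or.inl rfl)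
    · exact Or.inr (Or.inr rfl)
  obtain ⟨l, hl⟩ : ∃ l, l = ⌊((σ 1).pi - k) * J⌋₊ := ⟨_, rfl⟩
  obtain ⟨li, hli⟩ : ∃ li, li = ⌊((σ 1).rot X - k / 2) * J⌋₊ := ⟨_, rfl⟩
  rw [← hl] at hnu ⊢
  have hlπ : (l : ℝ) ≤ ((σ 1).pi - k) * J := by
    rw [hl]
    exact Nat.floor_le (mul_nonneg (by linarith only [hk2, hxs0, hxπ]) hJ0)
  have hlπ' : ((σ 1).pi - k) * J < l + 1 := by rw [hl]; exact Nat.lt_floor_add_one _
  have hliπ : ((σ 1).pi - k / 2) * J < li + 1 := by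
    rw [hli, hrot]
    exact Nat.lt_floor_add_one _
  have hll : l ≤ li := by
    rw [hl, hli, hrot]
    exact Nat.floor_le_floor (mul_le_mul_of_nonneg_right (by linarith only [hk]) hJ0)
  have hkJ : k * J ≤ (σ 1).pi / 2 * J := mul_le_mul_of_nonneg_right hk2 hJ0
  have hl2' : 2 ≤ l := by
    have : ((2 : ℕ) : ℝ) < ((l + 1 : ℕ) : ℝ) := by
      push_cast
      nlinarith only [hxs0, hx2, hJk, hlπ', hkJ]
    have : 2 < l + 1 := by exact_mod_cast this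
    omega
  have hylP : y + l ≤ P := by
    have h1 : ((y + l : ℕ) : ℝ) ≤ (P : ℝ) := by
      push_cast
      nlinarith only [hxs0, hx2, hyP, hJk, hlπ, hμ, hJ0, mul_nonneg hμ.le hJ0, mul_nonneg hk.le hJ0]
    exact_mod_cast h1
  have hXJ : ⌊(X : ℝ) * J⌋₊ ≤ J := floor_row_one (by exact_mod_cast hX1) J
  have hxJ : x ≤ J := by omega
  -- the frames
  rcases d3 with d3 | ⟨-, e, n, ζ, hL, hz⟩
  · rw [hrot] at d3
    linarith only [hk2, hxs0, hxπ, d3]
  rw [ptq_one F] at hL hz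
  rw [← hli] at hL hz
  obtain ⟨q, hq⟩ : ∃ q, q = ⌈xs * J⌉₊ := ⟨_, rfl⟩
  have hq1 : xs * J ≤ q := by rw [hq]; exact Nat.le_ceil _
  have hq2 : (q : ℝ) < xs * J + 1 := by rw [hq]; exact Nat.ceil_lt_add_one (by positivity)
  have hxπJ : xs * J ≤ (σ 1).pi / 8 * J := mul_le_mul_of_nonneg_right hxπ hJ0
  have hqJ : q ≤ J := by
    have e1 : xs * J ≤ 1 / 4 * J := mul_le_mul_of_nonneg_right hx2 hJ0
    have : (q : ℝ) ≤ J := by linarith only [hxs0, hx2, hJr, q1, q2, q3, q4, hq2, e1]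
    exact_mod_cast this
  have hqh : q + 4 ≤ ⌊h₁ * J⌋₊ := by
    refine Nat.le_floor ?_
    push_cast
    have e1 : xs * J ≤ h₁ / 4 * J := mul_le_mul_of_nonneg_right hx1 hJ0
    linarith only [hxs0, hx2, hJh₁, hq2, e1]
  have hql : q + 4 ≤ li := by
    have : ((q + 4 : ℕ) : ℝ) < ((li + 1 : ℕ) : ℝ) := by
      push_cast
      nlinarith only [hxs0, hx2, hJk, hliπ, hkJ, hq2, hxπJ]
    have : q + 4 < li + 1 := by exact_mod_cast this
    omega
  obtain ⟨M, hM⟩ : ∃ M : ℝ, M = (2 + 2 * C) * 2 ^ (q + 1) + 2 := ⟨_, rfl⟩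
  have hM0 : 0 ≤ M := by
    rw [hM]
    have : 0 ≤ (2 + 2 * C) * 2 ^ (q + 1) := mul_nonneg (by linarith only [hC1, hxs0, hx2]) (by positivity)
    linarith only [hxs0, hx2, this]
  have hlogM : 7 * Real.log (8 * M + 19) ≤ η / 4 * J := by
    have hp1 : (1 : ℝ) ≤ 2 ^ q := one_le_pow₀ (by norm_num)
    have e1 : 8 * M + 19 ≤ K₀ * 2 ^ q := by
      rw [hM, hK₀, pow_succ]
      nlinarith only [hp1]
    have e2 : Real.log (8 * M + 19) ≤ Real.log K₀ + q * Real.log 2 := by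
      refine (Real.log_le_log (by linarith only [hxs0, hx2, hM0]) e1).trans (le_of_eq ?_)
      rw [Real.log_mul (by linarith only [hC1, hxs0, hx2, hK₀]) (by positivity), Real.log_pow]
    have e3 : (q : ℝ) * Real.log 2 ≤ xs * J + 1 :=
      (mul_le_of_le_one_right (Nat.cast_nonneg q) hl21).trans hq2.le
    have e4 : xs * J ≤ η / 64 * J := mul_le_mul_of_nonneg_right hxη hJ0
    nlinarith only [hxs0, hx2, hlK, hJη, e2, e3, e4]
  -- the target
  exact by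
   obtain ⟨BX, hBX⟩ : ∃ BX, BX = F.sbx ς x (x + l) P (ald l al) (fun ω => -(pl (κ ω)).s)
     (fun ω => -(pl (κ ω)).c) := ⟨_, rfl⟩
   obtain ⟨BY, hBY⟩ : ∃ BY, BY = F.sbx ς y (y + l) P (ald l al) (fun ω => -(pl (κ ω)).s)
     (fun ω => -(pl (κ ω)).c) := ⟨_, rfl⟩
   rw [← hBX, ← hBY]
   obtain ⟨E, hE⟩ : ∃ E, E = 2 * (((y : ℝ) - x) * Real.log 2) - η / 2 * J := ⟨_, rfl⟩
   have hcnd0 := CH_nonneg (p := Pool.Agent.H49.Ent.cond F.p A True) (cond_nonneg F.isLaw.nonneg A True)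
     BY (fun ω => (BX ω, (Uni.dg l al ω, (κ ω, F.W ω))))
   have hηJ : 0 ≤ η * J := mul_nonneg hη.le hJ0
   by_cases hE0 : E < 0
   · rw [hE] at hE0
     linarith only [hxs0, hx2, hlK, hJη, hcnd0, hE0]
   push Not at hE0
   have hAS : S.St τ₃ J F A := d1 A (fun _ h => h) (by
     have h1 : (1 : ℝ) ≤ δ₀⁻¹ := one_le_inv_iff₀.2 ⟨hδ00, hδ01⟩
     have := mul_le_mul_of_nonneg_right h1 (Pe_nonneg F.isLaw A)
     linarith only [this])
   have hA : 0 < Pe F.p A := lt_of_lt_of_le (Real.exp_pos _) (hC.st _ _ _ _ hAS).2.2.2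
   have hexh := exh_ge F.isLaw hA BY (fun ω => (BX ω, (Uni.dg l al ω, (κ ω, F.W ω))))
     (δ := δ₀) hE0 hδ00.le (by
     intro B hB hPB hPB2
     have hBS : S.St τ₃ J F B := d1 B hB (by
       have : Pe F.p A = δ₀⁻¹ * (δ₀ * Pe F.p A) := by field_simp
       rw [this]
       exact mul_le_mul_of_nonneg_left hPB2 (by positivity))
     obtain ⟨B₁, hB₁, hPB₁, hpr⟩ := hsp J hJ3 F B hBS q hqJ hq1 (by omega)
     have e2 : Real.exp (-Real.log 2) = 1 / 2 := by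
       rw [Real.exp_neg, Real.exp_log (by norm_num)]
       norm_num
     rw [e2] at hPB₁
     obtain ⟨eb, nb, hfr⟩ := hC.lb _ _ _ _ hBS
     have hB₁A : ∀ ω, B₁ ω → A ω := fun ω hω => hB _ (hB₁ _ hω)
     have hB₁0 : 0 < Pe F.p B₁ := lt_of_lt_of_le (by linarith only [hPB]) hPB₁
     have hl1 : ∀ j, ∀ ω, A ω → |F.d ω j - e (Fam.pt F ω) j * F.d ω i₀ - n (Fam.pt F ω) j| ≤
         1 / 2 ^ l := fun j ω hω => (hL ω hω j).trans (inv_mono hll)
     have hslope : ∀ ω, B₁ ω → |e (Fam.pt F ω) (ς 1)| ≤ 3 / 2 := by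
       intro ω hω
       obtain ⟨ω', ω'', b1, b2, b3, b4, b5⟩ := hpr ω hω
       have a1 := hfr.line ω' (hB₁ _ b1) (ς 1)
       have a2 := hfr.line ω'' (hB₁ _ b2) (ς 1)
       have a3 := hL _ (hB₁A _ b1) (ς 1)
       have a4 := hL _ (hB₁A _ b2) (ς 1)
       rw [b3] at a1 a3
       rw [b4] at a2 a4
       have hcl := frame_close (U := ℕ) (d := F.d) a1 a2 a3 a4 (by positivity) b5
       have hbb := hfr.bound ω (hB₁ _ hω) (ς 1)
       have k1 : (1 : ℝ) / 2 ^ li ≤ 1 / 2 ^ (q + 4) := inv_mono hql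
       have k2 : (1 : ℝ) / 2 ^ ⌊h₁ * J⌋₊ ≤ 1 / 2 ^ (q + 4) := inv_mono hqh
       have t1 : (2 * (1 / 2 ^ ⌊h₁ * J⌋₊) + 2 * (1 / 2 ^ li)) / (1 / 2 ^ (q + 1)) ≤
           (1 / 2 : ℝ) := by
         rw [div_le_iff₀ (by positivity)]
         have : (1 : ℝ) / 2 ^ (q + 4) = 1 / 2 ^ (q + 1) / 8 := by
           rw [show q + 4 = q + 1 + 3 by ring, pow_add 2 (q + 1) 3]
           field_simp
           norm_num
         have h0 : (0 : ℝ) < 1 / 2 ^ (q + 1) := by positivity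
         rw [this] at k1 k2
         linarith only [k1, k2]
       have := abs_sub_abs_le_abs_sub (e (Fam.pt F ω) (ς 1)) (eb (Fam.pt F ω) (ς 1))
       linarith only [hcl, hbb, t1, this]
     exact by
      have hown : ∀ ω, B₁ ω → |al ω - e (Fam.pt F ω) (ς 1)| ≤ (2 + 2 * C) * 2 ^ (q + 1) / 2 ^ l := by
        intro ω hω
        obtain ⟨ω', ω'', b1, b2, b3, b4, b5⟩ := hpr ω hω
        have a1 := hl1 (ς 1) _ (hB₁A _ b1)
        have a2 := hl1 (ς 1) _ (hB₁A _ b2)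
        have a3 := hnu _ (hB₁A _ b1)
        have a4 := hnu _ (hB₁A _ b2)
        rw [hφa _ (hB₁A _ b1), b3, hς0] at a3
        rw [hφa _ (hB₁A _ b2), b4, hς0] at a4
        rw [b3] at a1
        rw [b4] at a2
        rw [hφa _ (hB₁A _ hω)]
        exact slope_near (by linarith only [hC1, hxs0, hx2]) a1 a2 a3 a4 b5
      have hslam : ∀ ω ω' : F.Ω, slam F x ω = slam F x ω' →
          slam F ⌊(X : ℝ) * J⌋₊ ω = slam F ⌊(X : ℝ) * J⌋₊ ω' := fun ω ω' h =>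
        Pool.S6K.slam_mono hXx hxJ h
      -- the slope from the line, as a function of the window `x`
      obtain ⟨ζ', hζ'⟩ : ∃ ζ' : ((Fin 3 → ℝ) × (Fin 3 → ℝ)) × F.ζ × ℕ → ℝ, ∀ ω,
          ζ' (slam F x ω) = ζ (slam F ⌊(X : ℝ) * J⌋₊ ω) (ς 1) := by
        refine ⟨fun s => if h : ∃ ω, slam F x ω = s then
          ζ (slam F ⌊(X : ℝ) * J⌋₊ h.choose) (ς 1) else 0, fun ω => ?_⟩
        have h : ∃ ω', slam F x ω' = slam F x ω := ⟨ω, rfl⟩
        beta_reduce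
        rw [dif_pos h, hslam _ _ h.choose_spec]
      have hI' : ∀ ω, B₁ ω → Inc i₀ (ς 1) (ς 2) v lamv T C (pl (κ ω)) (F.t ω) (F.x ω)
          (F.d ω) := fun ω hω => by
        have := hI ω (hB₁A _ hω)
        rwa [hς0] at this
      obtain ⟨φ, hφ⟩ := hκp
      obtain ⟨ψ, hψ⟩ := hκs
      obtain ⟨B', hB', hPB', yl, z, n1, n2, n3, n4, n5, n6, n7⟩ := nat_lab F hi (v := v)
        (lamv := lamv) (x := x) (y₀ := y) (l := l) (P := P) (T := T) (C := C) (by linarith only [hC1, hxs0, hx2]) hB₁0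
        hvx hvT hxy hylP hPJ hl2' hI' ⟨φ, fun ω hω => hφ ω (hB₁A _ hω)⟩
        ⟨ψ, fun ω hω => hψ ω (hB₁A _ hω)⟩ (e := fun u => e u (ς 1)) (n := fun u => n u (ς 1))
        hslope (fun ω hω => hl1 (ς 1) ω (hB₁A _ hω)) (ζ := ζ') (fun ω hω => by
          rw [hζ']
          exact (hz ω (hB₁A _ hω) (ς 1)).trans (inv_mono hll))
      have hB'0 : 0 < Pe F.p B' := lt_of_lt_of_le (mul_pos hcN hB₁0) hPB'
      have hB'A : Sub B' A := fun ω hω => hB₁A _ (hB' _ hω)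
      refine ⟨B', hB'.trans hB₁, hB'0, ?_⟩
      have hPAB : Pe F.p A ≤ C' * Pe F.p B' := by
        have g1 : Pe F.p A ≤ 2 / (δ₀ * cNat C) * Pe F.p B' := by
          rw [div_mul_eq_mul_div, le_div_iff₀ (mul_pos hδ00 hcN)]
          nlinarith only [hPB', hxs0, hx2, hcN, hPB2, hPB₁]
        exact g1.trans (mul_le_mul_of_nonneg_right hC'2 hB'0.le)
      have hSB' := d2 B' hB'A hPAB
      have hSB1 := S.mono (min_le_left (τ₁ / 2) τ₂) hSB'
      have hSB2 := hC.st _ _ _ _ (S.mono (min_le_right (τ₁ / 2) τ₂) hSB')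
      -- the theorem for one family
      have key := hfam J hJ2 F B' hSB2.1 hSB2.2.1.1 hSB2.2.2.1 hSB2.2.2.2 i₀ (ς 1) (ς 2) x l y l P P
        hxy le_rfl hylP hPJ (Λ × Pln) (fun ω => (κ ω, yl ω)) Prod.snd z (by
          rintro B'' hB'' hP'' ⟨aa, bb, cc, t1, t2⟩
          have hS'' := S.res (τ' := τ₁ / 2) (by linarith only [hτ₁]) hSB1 hB'' hP''
          rw [add_halves] at hS''
          obtain ⟨φy, hφy⟩ : ∃ φy : (Fin 3 → ℤ) × (ℕ × F.ζ) → Pln, ∀ ω, B' ω →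
              yl ω = φy (ptq F J ω) := by
            refine ⟨fun u => if h : ∃ ω, B' ω ∧ Fam.pt F ω = u then yl h.choose else default,
              fun ω hω => ?_⟩
            have h : ∃ ω', B' ω' ∧ Fam.pt F ω' = ptq F J ω := ⟨ω, hω, rfl⟩
            beta_reduce
            rw [dif_pos h]
            exact (n6 ω h.choose hω h.choose_spec.1 h.choose_spec.2.symm).1
          refine htub J hJ1 F B'' hS'' (ς 1) (ς 2) hi x P ?_ hPJ yl (fun ω hω => ?_)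
            ⟨φy, fun ω hω => hφy ω (hB'' _ hω)⟩ aa bb cc (fun ω hω => t1 ω hω) (fun ω hω => ?_)
          · have : (x : ℝ) ≤ y := by exact_mod_cast hxy
            linarith only [hyP, this]
          · rw [← hl]
            exact n3 ω (hB' _ (hB'' _ hω))
          · rw [← hl]
            exact t2 ω hω) (by
          intro ω ω' hω hω' hs
          have g1 := n5 ω ω' (hB' _ hω) (hB' _ hω') hs
          have g2 : κ ω = κ ω' := by
            rw [hψ ω (hB'A _ hω), hψ ω' (hB'A _ hω'), Pool.S6K.slam_mono hvx hxJ hs]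
          exact Prod.ext g2 g1) (by
          intro ω ω' hω hω' hs
          have g1 := (n6 ω ω' hω hω' hs).1
          have g2 : κ ω = κ ω' := by rw [hφ ω (hB'A _ hω), hφ ω' (hB'A _ hω'), hs]
          exact Prod.ext g2 g1) (fun ω hω => n3 ω (hB' _ hω))
        (fun ω ω' hω hω' hs => (n6 ω ω' hω hω' hs).2) (fun ω hω => n4 ω (hB' _ hω))
      exact by
       have hlaw : IsLaw (Pool.Agent.H49.Ent.cond F.p B' True) := isLaw_cond F.isLaw hB'0
       have hpos : ∀ ω, 0 < Pool.Agent.H49.Ent.cond F.p B' True ω → B' ω := fun ω hω => by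
         have := ((cond_pos_iff F.isLaw.nonneg B' True ω).1 hω).2
         simpa using this
       have g1 := CH_le_add hlaw.nonneg (F.X P) z (fun ω => ((κ ω, yl ω), F.W ω))
       have g2 := ent_nat F (ς := ς) (x := x) (y₀ := y) (l := l) (P := P) hM0 hlaw (κ := κ)
         (pl := pl) (al := al) (y := yl) (z := z) (fun ω hω => n1 ω) (fun ω hω => by
           have := n3 ω (hB' _ (hpos ω hω))
           rwa [hς0]) (fun ω => by rw [n7, hς0]) (fun ω hω => by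
           have u1 := hown ω (hB' _ (hpos ω hω))
           have u2 := n2 ω (hB' _ (hpos ω hω))
           have u3 : M / (2 : ℝ) ^ l = (2 + 2 * C) * 2 ^ (q + 1) / 2 ^ l + 2 / 2 ^ l := by
             rw [hM]; ring
           rw [u3]
           have u4 := abs_sub_le (al ω) (e (Fam.pt F ω) (ς 1)) (yl ω).e
           rw [abs_sub_comm (e (Fam.pt F ω) (ς 1)) (yl ω).e] at u4
           linarith only [u1, u2, u4])
       exact by
        rw [← hBX, ← hBY] at g2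
        rw [hE]
        linarith only [hlogM, key, g1, g2])
   exact by
    have hEb : E ≤ 2 * J := by
      have h1 : (y : ℝ) ≤ J := by
        have : y ≤ J := by omega
        exact_mod_cast this
      have h2 : (0 : ℝ) ≤ x := Nat.cast_nonneg x
      have h3 : (((y : ℝ) - x) * Real.log 2) ≤ J * 1 := by
        refine mul_le_mul (by linarith only [h1]) hl21 hl2.le hJ0
      rw [hE]
      linarith only [hxs0, hx2, hlK, hJη, h3]
    exact by
     have h5 : δ₀ * E ≤ η / 8 * (2 * J) := mul_le_mul hδ0η hEb hE0 (by linarith only [hxs0, hxη])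
     rw [hE] at hexh h5
     nlinarith only [hxs0, hx2, hlK, hJη, hexh, h5]

end Pool.S6C
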