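import Pool.Agent.H75.S6C.SNB

/-!
# Exact frames of the planks

For every family of planks `y` at windows below a window on which the directions turn there is, on
a part of the event, an exact frame: the slopes `al`, `k` of the velocities in the chart, with the
precisions `pi` and `sN`, and they are near the frame of the planks.
-/

set_option autoImplicit false

namespace Pool.S6C

open Finset Real
open Pool.Agent.H49.Ent Pool.Agent.H32.Dense Pool.STK Pool.KA Pool.KSAT Pool.K2S Pool.PB Pool.KS6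

/-- A label is a label with a trivial frame. -/
theorem inc_triv {i0 iu iN : Fin 3} {w lam P : ℕ} {C : ℝ} {y : Pln} {t : ℝ} {x d : Fin 3 → ℝ}
    (hC : 0 ≤ C) (h : Inc i0 iu iN w lam P C y t x d) : Inc i0 iu iN w 0 P C y t x d :=
  ⟨h.e_le, h.c_le, h.s_le, h.pe,
    h.pu.trans (div_le_div_of_nonneg_left hC (by positivity)
      (pow_le_pow_right₀ (by norm_num) (by omega))), h.pn, h.ve,
    h.vu.trans (div_le_div_of_nonneg_left hC (by positivity)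
      (pow_le_pow_right₀ (by norm_num) (Nat.zero_le _))), h.vn⟩

/-- The slope of a pair of velocities and the frame of the plank. -/
theorem pair_fu {i₀ iu iN : Fin 3} {w lam P q lp : ℕ} {y : Pln} {t1 t2 : ℝ}
    {x1 x2 d1 d2 : Fin 3 → ℝ} {e n : ℝ}
    (h1 : Inc i₀ iu iN w lam P 2 y t1 x1 d1) (h2 : Inc i₀ iu iN w lam P 2 y t2 x2 d2)
    (l1 : |d1 iu - e * d1 i₀ - n| ≤ 1 / 2 ^ lp) (l2 : |d2 iu - e * d2 i₀ - n| ≤ 1 / 2 ^ lp)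
    (hq : 1 / 2 ^ (q + 1) ≤ |d1 i₀ - d2 i₀|) :
    |e - y.e| ≤ 4 * 2 ^ q * (2 * (1 / 2 ^ lam) + 1 / 2 ^ lp) := by
  have hq0 : (0 : ℝ) < 1 / 2 ^ (q + 1) := by positivity
  have e1 : (e - y.e) * (d1 i₀ - d2 i₀) =
      ((fu i₀ iu y.e d1 - fu i₀ iu y.e y.db) - (fu i₀ iu y.e d2 - fu i₀ iu y.e y.db)) -
      ((d1 iu - e * d1 i₀ - n) - (d2 iu - e * d2 i₀ - n)) := by
    unfold fu
    ring
  have t1 := abs_sub ((fu i₀ iu y.e d1 - fu i₀ iu y.e y.db) -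
    (fu i₀ iu y.e d2 - fu i₀ iu y.e y.db)) ((d1 iu - e * d1 i₀ - n) - (d2 iu - e * d2 i₀ - n))
  have t2 := abs_sub (fu i₀ iu y.e d1 - fu i₀ iu y.e y.db) (fu i₀ iu y.e d2 - fu i₀ iu y.e y.db)
  have t3 := abs_sub (d1 iu - e * d1 i₀ - n) (d2 iu - e * d2 i₀ - n)
  have v1 := h1.vu
  have v2 := h2.vu
  have e2 : (2 : ℝ) / 2 ^ lam = 2 * (1 / 2 ^ lam) := by ring
  rw [e2] at v1 v2
  rw [← e1, abs_mul] at t1
  have t4 : |e - y.e| * (1 / 2 ^ (q + 1)) ≤ 2 * (2 * (1 / 2 ^ lam)) + 2 * (1 / 2 ^ lp) :=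
    (mul_le_mul_of_nonneg_left hq (abs_nonneg _)).trans (by linarith)
  have e3 : |e - y.e| * (1 / 2 ^ (q + 1)) * 2 ^ (q + 1) = |e - y.e| := by
    field_simp
  calc |e - y.e| = |e - y.e| * (1 / 2 ^ (q + 1)) * 2 ^ (q + 1) := e3.symm
    _ ≤ (2 * (2 * (1 / 2 ^ lam)) + 2 * (1 / 2 ^ lp)) * 2 ^ (q + 1) :=
        mul_le_mul_of_nonneg_right t4 (by positivity)
    _ = 4 * 2 ^ q * (2 * (1 / 2 ^ lam) + 1 / 2 ^ lp) := by
        rw [pow_succ]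
        ring

/-- The slope in the direction of the normal. -/
theorem pair_k {i₀ iu iN : Fin 3} {w lam P q γ : ℕ} {y : Pln} {t1 t2 : ℝ}
    {x1 x2 d1 d2 : Fin 3 → ℝ} {b k : ℝ}
    (h1 : Inc i₀ iu iN w lam P 2 y t1 x1 d1) (h2 : Inc i₀ iu iN w lam P 2 y t2 x2 d2)
    (l1 : |fn i₀ iu iN y.c y.s d1 - b - k * d1 i₀| ≤ 1 / 2 ^ γ)
    (l2 : |fn i₀ iu iN y.c y.s d2 - b - k * d2 i₀| ≤ 1 / 2 ^ γ)
    (hq : 1 / 2 ^ (q + 1) ≤ |d1 i₀ - d2 i₀|) :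
    |k| ≤ 4 * 2 ^ q * (2 * (2 ^ w / 2 ^ P) + 1 / 2 ^ γ) := by
  have hq0 : (0 : ℝ) < 1 / 2 ^ (q + 1) := by positivity
  have e1 : k * (d1 i₀ - d2 i₀) =
      ((fn i₀ iu iN y.c y.s d1 - fn i₀ iu iN y.c y.s y.db) -
        (fn i₀ iu iN y.c y.s d2 - fn i₀ iu iN y.c y.s y.db)) -
      ((fn i₀ iu iN y.c y.s d1 - b - k * d1 i₀) -
        (fn i₀ iu iN y.c y.s d2 - b - k * d2 i₀)) := by
    ring
  have t1 := abs_sub ((fn i₀ iu iN y.c y.s d1 - fn i₀ iu iN y.c y.s y.db) -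
        (fn i₀ iu iN y.c y.s d2 - fn i₀ iu iN y.c y.s y.db))
      ((fn i₀ iu iN y.c y.s d1 - b - k * d1 i₀) - (fn i₀ iu iN y.c y.s d2 - b - k * d2 i₀))
  have t2 := abs_sub (fn i₀ iu iN y.c y.s d1 - fn i₀ iu iN y.c y.s y.db)
    (fn i₀ iu iN y.c y.s d2 - fn i₀ iu iN y.c y.s y.db)
  have t3 := abs_sub (fn i₀ iu iN y.c y.s d1 - b - k * d1 i₀)
    (fn i₀ iu iN y.c y.s d2 - b - k * d2 i₀)
  have v1 := h1.vn
  have v2 := h2.vn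
  have e2 : (2 : ℝ) * 2 ^ w / 2 ^ P = 2 * (2 ^ w / 2 ^ P) := by ring
  rw [e2] at v1 v2
  rw [← e1, abs_mul] at t1
  have t4 : |k| * (1 / 2 ^ (q + 1)) ≤ 2 * (2 * (2 ^ w / 2 ^ P)) + 2 * (1 / 2 ^ γ) :=
    (mul_le_mul_of_nonneg_left hq (abs_nonneg _)).trans (by linarith)
  have e3 : |k| * (1 / 2 ^ (q + 1)) * 2 ^ (q + 1) = |k| := by
    field_simp
  calc |k| = |k| * (1 / 2 ^ (q + 1)) * 2 ^ (q + 1) := e3.symm
    _ ≤ (2 * (2 * (2 ^ w / 2 ^ P)) + 2 * (1 / 2 ^ γ)) * 2 ^ (q + 1) :=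
        mul_le_mul_of_nonneg_right t4 (by positivity)
    _ = 4 * 2 ^ q * (2 * (2 ^ w / 2 ^ P) + 1 / 2 ^ γ) := by
        rw [pow_succ]
        ring

theorem pow_q8 {q K lam : ℕ} (h : K + q + 5 ≤ lam) :
    (8 : ℝ) * 2 ^ q * (1 / 2 ^ lam) ≤ 1 / 4 * (1 / 2 ^ K) := by
  obtain ⟨m, rfl⟩ := Nat.exists_eq_add_of_le h
  have a1 : (0 : ℝ) < 2 ^ q := by positivity
  have a2 : (0 : ℝ) < 2 ^ K := by positivity
  have a3 : (1 : ℝ) ≤ 2 ^ m := one_le_pow₀ (by norm_num)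
  have e1 : (8 : ℝ) * 2 ^ q * (1 / 2 ^ (K + q + 5 + m)) = 1 / 4 * (1 / 2 ^ K) * (1 / 2 ^ m) := by
    rw [pow_add, pow_add, pow_add]
    field_simp
    norm_num
  rw [e1]
  have : (1 : ℝ) / 2 ^ m ≤ 1 := by
    rw [div_le_one (by positivity)]
    exact a3
  have h0 : (0 : ℝ) ≤ 1 / 4 * (1 / 2 ^ K) := by positivity
  calc 1 / 4 * (1 / 2 ^ K) * (1 / 2 ^ m) ≤ 1 / 4 * (1 / 2 ^ K) * 1 :=
        mul_le_mul_of_nonneg_left this h0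
    _ = _ := mul_one _

/-- **Exact frames.** -/
theorem xframe {S : PCl 3} {a R h₁ : ℝ} {i₀ : Fin 3} {c s₂ : ℝ} {r : ℝ → ℝ} {D : Set ℝ}
    {σ : ℝ → Row} (hC : Cs S a R h₁ i₀ c s₂ r D σ) (v₁ : ℚ) (hv1 : v₁ ≤ 1)
    (turn : (σ 1).rot v₁ < (σ 1).pi) {w v t : ℚ} (hw0 : 0 ≤ w) (hw : w ≤ v₁) (hv0 : 0 ≤ v)
    (hv : v ≤ v₁) (ht0 : 0 ≤ t) (ht1 : t ≤ 1) {s g' C V V' pe κ : ℝ} (hg0 : 0 ≤ g')
    (h1 : g' < (σ 1).sN v t) (h2 : g' < t - v + ((σ 1).pi - (σ 1).rot v₁))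
    (h3 : g' < s - w + ((σ 1).pi - (σ 1).rot v₁)) (hC1 : 1 ≤ C) (hpe : pe < (σ 1).pi)
    (hpi : 0 < (σ 1).pi) (hV : V' < V) (hVp : V' < (σ 1).pi) (hκ0 : 0 ≤ κ) (hκ1 : κ < s - w)
    (hκ2 : κ < g') :
    Clp S (fun J F A => ∀ G : F.Ω → Prop, Sub G A → Pe F.p A ≤ C * Pe F.p G →
      ∀ iu iN : Fin 3, (∀ j : Fin 3, j = i₀ ∨ j = iu ∨ j = iN) → ∀ y : F.Ω → Pln,
      (∀ ω, G ω → Inc i₀ iu iN ⌊(w : ℝ) * J⌋₊ ⌊V * J⌋₊ ⌊s * J⌋₊ 2 (y ω) (F.t ω) (F.x ω)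
        (F.d ω)) →
      (∃ φ : (Fin 3 → ℤ) × (ℕ × F.ζ) → Pln, ∀ ω, G ω → y ω = φ (ptq F J ω)) →
      (∃ ψ : ((Fin 3 → ℝ) × (Fin 3 → ℝ)) × F.ζ × ℕ → Pln, ∀ ω, G ω →
        y ω = ψ (slam F ⌊(w : ℝ) * J⌋₊ ω)) →
      ∃ B : F.Ω → Prop, Sub B G ∧ Pe F.p G ≤ 8 * Pe F.p B ∧
        ∃ al nu b k : (Fin 3 → ℤ) × (ℕ × F.ζ) → ℝ, ∀ ω, B ω →
        |F.d ω iu - al (ptq F J ω) * F.d ω i₀ - nu (ptq F J ω)| ≤ 1 / 2 ^ ⌊pe * J⌋₊ ∧
        |fn i₀ iu iN (y ω).c (y ω).s (F.d ω) - b (ptq F J ω) - k (ptq F J ω) * F.d ω i₀| ≤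
          1 / 2 ^ ⌊g' * J⌋₊ ∧
        |al (ptq F J ω)| ≤ 2 ∧ |k (ptq F J ω)| ≤ 1 / 2 ^ ⌊κ * J⌋₊ ∧
        (0 ≤ V' → |al (ptq F J ω) - (y ω).e| ≤ 1 / 2 ^ ⌊V' * J⌋₊)) := by
  classical
  have hR1 := hC.row 1 one_pos le_rfl hC.D1
  obtain ⟨η, hη⟩ : ∃ η, η = min (min (min (σ 1).pi ((σ 1).pi - pe)) (min (V - V')
    ((σ 1).pi - V'))) (min (s - w - κ) (g' - κ)) := ⟨_, rfl⟩
  have hη0 : 0 < η := by
    rw [hη]
    exact lt_min (lt_min (lt_min hpi (by linarith)) (lt_min (by linarith) (by linarith)))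
      (lt_min (by linarith) (by linarith))
  have η1 : η ≤ (σ 1).pi := by
    rw [hη]; exact ((min_le_left _ _).trans (min_le_left _ _)).trans (min_le_left _ _)
  have η2 : η ≤ (σ 1).pi - pe := by
    rw [hη]; exact ((min_le_left _ _).trans (min_le_left _ _)).trans (min_le_right _ _)
  have η3 : η ≤ V - V' := by
    rw [hη]; exact ((min_le_left _ _).trans (min_le_right _ _)).trans (min_le_left _ _)
  have η4 : η ≤ (σ 1).pi - V' := by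
    rw [hη]; exact ((min_le_left _ _).trans (min_le_right _ _)).trans (min_le_right _ _)
  have η5 : η ≤ s - w - κ := by rw [hη]; exact (min_le_right _ _).trans (min_le_left _ _)
  have η6 : η ≤ g' - κ := by rw [hη]; exact (min_le_right _ _).trans (min_le_right _ _)
  obtain ⟨x, hx⟩ : ∃ x, x = min (η / 8) (min h₁ 1 / 4) := ⟨_, rfl⟩
  have hx0 : 0 < x := by
    rw [hx]
    have := lt_min hC.h₁0 one_pos
    exact lt_min (by linarith) (by linarith)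
  have hxη : x ≤ η / 8 := by rw [hx]; exact min_le_left _ _
  have hx1 : x ≤ h₁ / 4 := by
    rw [hx]
    refine (min_le_right _ _).trans ?_
    have := min_le_left h₁ 1
    linarith
  have hx2 : x ≤ 1 / 4 := by
    rw [hx]
    refine (min_le_right _ _).trans ?_
    have := min_le_right h₁ 1
    linarith
  obtain ⟨τ, hτ, J₁, hsp⟩ := spread_part hC.a1 hC.R0 hC.ub hC.st hC.lb hx0
  obtain ⟨J₃, hJ₃⟩ := exists_nat_gt (64 / η + 64 / h₁ + 16)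
  have c1 := nst hC v₁ hv1 turn hw0 hw hv0 hv ht0 ht1 hg0 h1 h2 h3 hC1
  have c2 := sub_base (S := S) hτ (by linarith : (1 : ℝ) ≤ 4 * C)
  have c3 := hR1.pi.1 (η / 8) (by linarith)
  refine Clp.mono (J₂ := max J₁ J₃) ((c1.and c2).and c3) ?_
  rintro J hJ F A ⟨⟨d1, d2⟩, d3⟩ G hG hPG iu iN hi y hI ⟨φ, hφ⟩ hψ
  have hJ1 : J₁ ≤ J := (le_max_left _ _).trans hJ
  have hJr : 64 / η + 64 / h₁ + 16 < J :=
    hJ₃.trans_le (by exact_mod_cast (le_max_right _ _).trans hJ)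
  have q1 : 0 < 64 / η := by positivity
  have q2 : 0 < 64 / h₁ := div_pos (by norm_num) hC.h₁0
  have hJη : 64 < J * η := by
    have : 64 / η < J := by linarith
    rwa [div_lt_iff₀ hη0] at this
  have hJh₁ : 64 < J * h₁ := by
    have : 64 / h₁ < J := by linarith
    rwa [div_lt_iff₀ hC.h₁0] at this
  have hJ0 : (0 : ℝ) ≤ J := Nat.cast_nonneg J
  have hJ16 : (16 : ℝ) < J := by linarith
  rcases d3 with d3 | ⟨-, e, n, hL⟩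
  · linarith
  rw [ptq_one F] at hL
  obtain ⟨B₀, hB₀, hPB₀, b, k, hb⟩ := d1 G hG hPG iu iN hi y
    (fun ω hω => inc_triv (by norm_num) (hI ω hω)) ⟨φ, hφ⟩ hψ
  have hSB : S.St τ J F B₀ := d2 B₀ (hB₀.trans hG) (by
    have := mul_le_mul_of_nonneg_left hPB₀ (by linarith : (0 : ℝ) ≤ C)
    linarith)
  obtain ⟨q, hq⟩ : ∃ q, q = ⌈x * J⌉₊ := ⟨_, rfl⟩
  have hq1 : x * J ≤ q := by rw [hq]; exact Nat.le_ceil _
  have hq2 : (q : ℝ) < x * J + 1 := by rw [hq]; exact Nat.ceil_lt_add_one (by positivity)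
  have hxJ : x * J ≤ η / 8 * J := mul_le_mul_of_nonneg_right hxη hJ0
  have hqJ : q ≤ J := by
    have e1 : x * J ≤ 1 / 4 * J := mul_le_mul_of_nonneg_right hx2 hJ0
    have : (q : ℝ) ≤ J := by linarith
    exact_mod_cast this
  have hqh : q + 4 ≤ ⌊h₁ * J⌋₊ := by
    refine Nat.le_floor ?_
    push_cast
    have e1 : x * J ≤ h₁ / 4 * J := mul_le_mul_of_nonneg_right hx1 hJ0
    linarith
  obtain ⟨B, hB, hPB, hpr⟩ := hsp J hJ1 F B₀ hSB q hqJ hq1 (by omega)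
  have e2 : Real.exp (-Real.log 2) = 1 / 2 := by
    rw [Real.exp_neg, Real.exp_log (by norm_num)]
    norm_num
  rw [e2] at hPB
  obtain ⟨eb, nb, hfr⟩ := hC.lb _ _ _ _ hSB
  obtain ⟨lp, hlp⟩ : ∃ lp, lp = ⌊((σ 1).pi - η / 8) * J⌋₊ := ⟨_, rfl⟩
  obtain ⟨w₀, hw₀⟩ : ∃ w₀, w₀ = ⌊(w : ℝ) * J⌋₊ := ⟨_, rfl⟩
  obtain ⟨P, hP⟩ : ∃ P, P = ⌊s * J⌋₊ := ⟨_, rfl⟩
  obtain ⟨lam, hlam⟩ : ∃ lam, lam = ⌊V * J⌋₊ := ⟨_, rfl⟩
  obtain ⟨γ, hγ⟩ : ∃ γ, γ = ⌊g' * J⌋₊ := ⟨_, rfl⟩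
  obtain ⟨K, hK⟩ : ∃ K, K = ⌊κ * J⌋₊ := ⟨_, rfl⟩
  rw [← hlp] at hL
  rw [← hw₀, ← hlam, ← hP] at hI
  rw [← hγ] at hb
  have hw0r : (0 : ℝ) ≤ w := by exact_mod_cast hw0
  have f2 : ((σ 1).pi - η / 8) * J < lp + 1 := by rw [hlp]; exact Nat.lt_floor_add_one _
  have f3 : (w₀ : ℝ) ≤ w * J := by rw [hw₀]; exact Nat.floor_le (by positivity)
  have f5 : s * J < P + 1 := by rw [hP]; exact Nat.lt_floor_add_one _
  have f7 : g' * J < γ + 1 := by rw [hγ]; exact Nat.lt_floor_add_one _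
  have f8 : (K : ℝ) ≤ κ * J := by rw [hK]; exact Nat.floor_le (by positivity)
  have f9 : V * J < lam + 1 := by rw [hlam]; exact Nat.lt_floor_add_one _
  have m1 : η * J ≤ (σ 1).pi * J := mul_le_mul_of_nonneg_right η1 hJ0
  have m5 : η * J ≤ (s - w - κ) * J := mul_le_mul_of_nonneg_right η5 hJ0
  have m6 : η * J ≤ (g' - κ) * J := mul_le_mul_of_nonneg_right η6 hJ0
  have m3 : η * J ≤ (V - V') * J := mul_le_mul_of_nonneg_right η3 hJ0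
  have m4 : η * J ≤ ((σ 1).pi - V') * J := mul_le_mul_of_nonneg_right η4 hJ0
  have n1 : q + 4 ≤ lp := by
    have : ((q + 4 : ℕ) : ℝ) < ((lp + 1 : ℕ) : ℝ) := by
      push_cast
      linarith
    have : q + 4 < lp + 1 := by exact_mod_cast this
    omega
  have n5 : K + q + w₀ + 5 ≤ P := by
    have : ((K + q + w₀ + 5 : ℕ) : ℝ) < ((P + 1 : ℕ) : ℝ) := by
      push_cast
      linarith
    have : K + q + w₀ + 5 < P + 1 := by exact_mod_cast this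
    omega
  have n6 : K + q + 5 ≤ γ := by
    have : ((K + q + 5 : ℕ) : ℝ) < ((γ + 1 : ℕ) : ℝ) := by
      push_cast
      linarith
    have : K + q + 5 < γ + 1 := by exact_mod_cast this
    omega
  have hlpe : ⌊pe * J⌋₊ ≤ lp := by
    rw [hlp]
    exact Nat.floor_le_floor (mul_le_mul_of_nonneg_right (by linarith) hJ0)
  refine ⟨B, hB.trans hB₀, by linarith, fun u => e u iu, fun u => n u iu, b, k,
    fun ω hω => ⟨?_, hγ ▸ hb ω (hB _ hω), ?_, ?_, fun hV0 => ?_⟩⟩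
  · have := hL _ (hG _ (hB₀ _ (hB _ hω))) iu
    exact this.trans (inv_mono hlpe)
  · obtain ⟨ω', ω'', b1, b2, b3, b4, b5⟩ := hpr ω hω
    have a1 := hfr.line ω' (hB _ b1) iu
    have a2 := hfr.line ω'' (hB _ b2) iu
    have a3 := hL _ (hG _ (hB₀ _ (hB _ b1))) iu
    have a4 := hL _ (hG _ (hB₀ _ (hB _ b2))) iu
    rw [b3] at a1 a3
    rw [b4] at a2 a4
    have hcl := frame_close (U := ℕ) (d := F.d) a1 a2 a3 a4 (by positivity) b5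
    have hbb := hfr.bound ω (hB _ hω) iu
    have k1 : (1 : ℝ) / 2 ^ lp ≤ 1 / 2 ^ (q + 4) := inv_mono n1
    have k2 : (1 : ℝ) / 2 ^ ⌊h₁ * J⌋₊ ≤ 1 / 2 ^ (q + 4) := inv_mono hqh
    have t1 : (2 * (1 / 2 ^ ⌊h₁ * J⌋₊) + 2 * (1 / 2 ^ lp)) / (1 / 2 ^ (q + 1)) ≤ (1 : ℝ) := by
      rw [div_le_iff₀ (by positivity)]
      have : (1 : ℝ) / 2 ^ (q + 4) = 1 / 2 ^ (q + 1) / 8 := by
        rw [show q + 4 = q + 1 + 3 by ring, pow_add 2 (q + 1) 3]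
        field_simp
        norm_num
      have h0 : (0 : ℝ) < 1 / 2 ^ (q + 1) := by positivity
      rw [this] at k1 k2
      linarith
    have := abs_sub_abs_le_abs_sub (e (Fam.pt F ω) iu) (eb (Fam.pt F ω) iu)
    have h5 : |e (Fam.pt F ω) iu| ≤ 2 := by linarith
    exact h5
  · obtain ⟨ω', ω'', b1, b2, b3, b4, b5⟩ := hpr ω hω
    have g0 := hG
    have I1 := hI _ (hB₀ _ (hB _ b1))
    have I2 := hI _ (hB₀ _ (hB _ b2))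
    have k1 := hb _ (hB _ b1)
    have k2 := hb _ (hB _ b2)
    have p3 : ptq F J ω' = ptq F J ω := b3
    have p4 : ptq F J ω'' = ptq F J ω := b4
    have y1 : y ω' = y ω := by
      rw [hφ _ (hB₀ _ (hB _ b1)), hφ _ (hB₀ _ (hB _ hω)), p3]
    have y2 : y ω'' = y ω := by
      rw [hφ _ (hB₀ _ (hB _ b2)), hφ _ (hB₀ _ (hB _ hω)), p4]
    rw [y1] at I1 k1
    rw [y2] at I2 k2
    rw [p3] at k1
    rw [p4] at k2
    have hk := pair_k I1 I2 k1 k2 b5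
    refine hk.trans ?_
    rw [← hK]
    have t1 := pow_q8 (q := q) (K := K) (lam := γ) n6
    have t2 : (8 : ℝ) * 2 ^ q * (2 ^ w₀ / 2 ^ P) ≤ 1 / 4 * (1 / 2 ^ K) := by
      obtain ⟨m, hm⟩ := Nat.exists_eq_add_of_le (by omega : w₀ ≤ P)
      have e3 : (2 : ℝ) ^ w₀ / 2 ^ P = 1 / 2 ^ m := by
        rw [hm, pow_add]
        field_simp
      rw [e3]
      exact pow_q8 (by omega)
    have t3 : (0 : ℝ) < 1 / 2 ^ K := by positivity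
    have t4 : (0 : ℝ) < 2 ^ q * (1 / 2 ^ γ) := by positivity
    have e4 : (4 : ℝ) * 2 ^ q * (2 * (2 ^ w₀ / 2 ^ P) + 1 / 2 ^ γ) =
        8 * 2 ^ q * (2 ^ w₀ / 2 ^ P) + 4 * (2 ^ q * (1 / 2 ^ γ)) := by ring
    rw [e4]
    linarith
  · obtain ⟨ω', ω'', b1, b2, b3, b4, b5⟩ := hpr ω hω
    have I1 := hI _ (hB₀ _ (hB _ b1))
    have I2 := hI _ (hB₀ _ (hB _ b2))
    have a3 := hL _ (hG _ (hB₀ _ (hB _ b1))) iu
    have a4 := hL _ (hG _ (hB₀ _ (hB _ b2))) iu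
    rw [b3] at a3
    rw [b4] at a4
    have p3 : ptq F J ω' = ptq F J ω := b3
    have p4 : ptq F J ω'' = ptq F J ω := b4
    have y1 : y ω' = y ω := by
      rw [hφ _ (hB₀ _ (hB _ b1)), hφ _ (hB₀ _ (hB _ hω)), p3]
    have y2 : y ω'' = y ω := by
      rw [hφ _ (hB₀ _ (hB _ b2)), hφ _ (hB₀ _ (hB _ hω)), p4]
    rw [y1] at I1
    rw [y2] at I2
    have hk := pair_fu I1 I2 a3 a4 b5
    have f10 : (⌊V' * J⌋₊ : ℝ) ≤ V' * J := Nat.floor_le (by positivity)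
    have n7 : ⌊V' * J⌋₊ + q + 5 ≤ lam := by
      have : ((⌊V' * J⌋₊ + q + 5 : ℕ) : ℝ) < ((lam + 1 : ℕ) : ℝ) := by
        push_cast
        linarith
      have : ⌊V' * J⌋₊ + q + 5 < lam + 1 := by exact_mod_cast this
      omega
    have n8 : ⌊V' * J⌋₊ + q + 5 ≤ lp := by
      have : ((⌊V' * J⌋₊ + q + 5 : ℕ) : ℝ) < ((lp + 1 : ℕ) : ℝ) := by
        push_cast
        linarith
      have : ⌊V' * J⌋₊ + q + 5 < lp + 1 := by exact_mod_cast this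
      omega
    have t1 := pow_q8 n7
    have t2 := pow_q8 n8
    have t3 : (0 : ℝ) < 1 / 2 ^ ⌊V' * J⌋₊ := by positivity
    have t4 : (0 : ℝ) < 2 ^ q * (1 / 2 ^ lp) := by positivity
    have e4 : (4 : ℝ) * 2 ^ q * (2 * (1 / 2 ^ lam) + 1 / 2 ^ lp) =
        8 * 2 ^ q * (1 / 2 ^ lam) + 4 * (2 ^ q * (1 / 2 ^ lp)) := by ring
    rw [e4] at hk
    have hk' : |e (Fam.pt F ω) iu - (y ω).e| ≤ 1 / 2 ^ ⌊V' * J⌋₊ := by linarith
    exact hk'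

end Pool.S6C
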